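import Pool.Agent.H914R2.KDefs2
import Pool.Agent.H914R2.HodgeDefs

/-!
# The conjecture A with coefficients: definitions
-/

open CategoryTheory AlgebraicGeometry

universe u v

namespace Pool.Agent.W498.Dom

open Pool.Agent.H914 VarClass Obj WeilCohomology

variable {k : Type u} [Field k] {𝒱 : VarClass k} {ops : CycleOps 𝒱}

/-- The conjecture A for `X` and the divisor `D` in the codimension `j`, with coefficients in the
coefficient field `K` of the cohomology: if `x` is a class in `H^(2j)(X)` and `D ^ (n - 2j) x` is a
`K`-linear combination of classes of algebraic cycles, where `n = dim X`, then `x` is a `K`-linear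
combination of classes of algebraic cycles. -/
def LefschetzASpan (W : WeilCohomology.{u, v} ops) (X : 𝒱.Obj) (D : X.Cycles) (j : ℕ) : Prop :=
  ∀ x ∈ W.gr X (2 * j), W.cl X D ^ (X.dim - 2 * j) * x ∈ spanCycles W X (X.dim - j : ℕ) →
    x ∈ spanCycles W X j

end Pool.Agent.W498.Dom
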