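import Pool.Agent.W498.Dom.Ranks
import Pool.Agent.W498.Dom.ADefs

/-!
# The conjecture A and dominant morphisms
-/

open CategoryTheory AlgebraicGeometry Finset

set_option linter.unusedSectionVars false

universe u v

namespace Pool.Agent.W498.Dom

open Pool.Agent.H914 Pool.Agent.H447 VarClass Obj WeilCohomology Pool.Agent.W534

variable {k : Type u} [Field k] {𝒱 : VarClass k} {ops : CycleOps 𝒱}
  {W : WeilCohomology.{u, v} ops} {Y X : 𝒱.Obj} {f : Y ⟶ X} {D : X.Cycles} {E : Y.Cycles}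

lemma mulLeft_pow_apply (a : W.H X) (c : ℕ) (x : W.H X) :
    (LinearMap.mulLeft W.K a ^ c) x = a ^ c * x := by
  rw [LinearMap.pow_mulLeft, LinearMap.mulLeft_apply]

/-- The conjecture A with coefficients is an equality of ranks. -/
lemma aspan_iff (hD : X.IsCyc 1 D) (hHL : HardLefschetz W X D) {j c : ℕ} (hj : 2 * j + c = X.dim) :
    LefschetzASpan W X D j ↔ cycleRank W X j = cycleRank W X (j + c) := by
  have hT : ∀ q : ℤ, ∀ a ∈ spanCycles W X q,
      (LinearMap.mulLeft W.K (W.cl X D)) a ∈ spanCycles W X (q + 1) := fun q a ha => span_mul hD ha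
  have e1 : ((X.dim - j : ℕ) : ℤ) = (j : ℤ) + (c : ℤ) := by omega
  have e2 : X.dim - 2 * j = c := by omega
  have hinj : ∀ x ∈ W.gr X (2 * j), (LinearMap.mulLeft W.K (W.cl X D) ^ c) x = 0 → x = 0 := by
    intro x hx h0
    apply (hHL (2 * j) (by omega)).1 x hx
    rw [e2]
    exact h0
  constructor
  · intro h
    apply finrank_eq_of_surj (T := LinearMap.mulLeft W.K (W.cl X D) ^ c)
      (fun x hx => span_pow hT c hx)
      (fun x hx h0 => hinj x (span_le_gr (by push_cast; ring) hx) h0)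
    intro y hy
    obtain ⟨x, hx, hxy⟩ := (hHL (2 * j) (by omega)).2 y (span_le_gr (by push_cast; omega) hy)
    rw [e2] at hxy
    refine ⟨x, h x hx ?_, hxy⟩
    rw [e1, e2, ← mulLeft_pow_apply, hxy]
    exact hy
  · intro h x hx hxs
    rw [e1, e2, ← mulLeft_pow_apply] at hxs
    obtain ⟨a, ha, hax⟩ := surj_of_rank hT hHL hj h _ hxs
    have h2 : x - a = 0 := by
      apply hinj (x - a) (Submodule.sub_mem _ hx (span_le_gr (by push_cast; ring) ha))
      rw [map_sub, hax, sub_self]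
    rw [sub_eq_zero.1 h2]
    exact ha

lemma aspan_of_A (hE : Y.IsCyc 1 E) (hHL : HardLefschetz W Y E) (hA : LefschetzA W Y E) {j : ℕ}
    (hj : 2 * j ≤ Y.dim) : LefschetzASpan W Y E j := by
  rw [aspan_iff hE hHL (c := Y.dim - 2 * j) (by omega)]
  have hT : ∀ q : ℤ, ∀ a ∈ spanCycles W Y q,
      (LinearMap.mulLeft W.K (W.cl Y E)) a ∈ spanCycles W Y (q + 1) := fun q a ha => span_mul hE ha
  apply finrank_eq_of_surj (T := LinearMap.mulLeft W.K (W.cl Y E) ^ (Y.dim - 2 * j))
    (fun x hx => span_pow hT _ hx)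
    (fun x hx h0 => (hHL (2 * j) (by omega)).1 x (span_le_gr (by push_cast; ring) hx) h0)
  intro y hy
  induction hy using Submodule.span_induction with
  | mem x hx =>
    obtain ⟨p, hp, z, hz, rfl⟩ := hx
    obtain rfl : p = Y.dim - j := by omega
    obtain ⟨z', hz', h2⟩ := hA j hj z hz
    refine ⟨_, Submodule.subset_span ⟨j, rfl, z', hz', rfl⟩, ?_⟩
    rw [← h2, cl_divPow]
  | zero => exact ⟨0, Submodule.zero_mem _, map_zero _⟩
  | add x y _ _ hx hy =>
    obtain ⟨a, ha, rfl⟩ := hx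
    obtain ⟨b, hb, rfl⟩ := hy
    exact ⟨a + b, Submodule.add_mem _ ha hb, map_add _ _ _⟩
  | smul c x _ hx =>
    obtain ⟨a, ha, rfl⟩ := hx
    exact ⟨c • a, Submodule.smul_mem _ _ ha, map_smul _ _ _⟩

/-- **The conjecture A with coefficients descends along dominant morphisms.** -/
theorem aspan_of_dominant (Q : PerverseDecomposition W f D E) (hD : X.IsCyc 1 D)
    (hE : Y.IsCyc 1 E) (hHL : HardLefschetz W X D) (hf : IsDominant ops f) {E' : Y.Cycles}
    (hE' : Y.IsCyc 1 E') (hHL' : HardLefschetz W Y E')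
    (hA : ∀ j, 2 * j ≤ Y.dim → LefschetzASpan W Y E' j) :
    ∀ j, 2 * j ≤ X.dim → LefschetzASpan W X D j := by
  intro j hj
  rw [aspan_iff hD hHL (c := X.dim - 2 * j) (by omega)]
  apply ranks_of_dominant Q hD hE hHL hf _ j (X.dim - 2 * j) (by omega)
  intro j c hjc
  exact (aspan_iff hE' hHL' hjc).1 (hA j (by omega))

/-- **The conjecture A with coefficients in one codimension.** -/
theorem aspan_single (Q : PerverseDecomposition W f D E) (hD : X.IsCyc 1 D)
    (hE : Y.IsCyc 1 E) (hHL : HardLefschetz W X D) (hf : IsDominant ops f) {E' : Y.Cycles}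
    (hE' : Y.IsCyc 1 E') (hHL' : HardLefschetz W Y E') {r : ℕ} (hr : Y.dim = X.dim + r) {j : ℕ}
    (hj : 2 * j + r < X.dim) (hA : LefschetzASpan W Y E' (j + r)) : LefschetzASpan W X D j := by
  rw [aspan_iff hD hHL (c := X.dim - 2 * j) (by omega)]
  have h1 := rank_single Q hD hE hHL hf hr hj (by
    have h2 := (aspan_iff hE' hHL' (c := Y.dim - 2 * (j + r)) (by omega)).1 hA
    rw [h2]
    congr 1
    omega)
  rw [h1]
  congr 1
  omega

/-- **One codimension on a variety dominating the square.** -/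
theorem lefschetzB_of_cover {Z X : 𝒱.Obj} {g : Z ⟶ X.prod X} {D : X.Cycles} {E : Z.Cycles}
    (hg : IsDominant ops g) (hdim : Z.dim ≤ 2 * X.dim + 1) (hn : 1 ≤ X.dim)
    (hD : X.IsCyc 1 D) (hHL : HardLefschetz W X D) {D' : (X.prod X).Cycles}
    (hD' : (X.prod X).IsCyc 1 D') (hHL' : HardLefschetz W (X.prod X) D') (hE : Z.IsCyc 1 E)
    (Q : PerverseDecomposition W g D' E)
    (hrank : cycleRank W Z ((Z.dim : ℤ) - X.dim - 1) = cycleRank W Z (X.dim + 1)) :
    LefschetzB W X D := by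
  by_cases h1 : (1 : W.H (X.prod X)) = 0
  · apply lefschetzB_of_rank hD hHL
    rw [rank_zero h1, rank_zero h1]
  obtain ⟨r, hr⟩ : ∃ r, Z.dim = (X.prod X).dim + r := ⟨Z.dim - (X.prod X).dim, by
    have := dim_le Q hD' hE hHL' hg h1; omega⟩
  have hr' : Z.dim = 2 * X.dim + r := by rw [hr, dim_prod]; ring
  have h2 := rank_single Q hD' hE hHL' hg hr (j := X.dim - 1) (by rw [dim_prod]; omega) (by
    rw [show ((X.dim - 1 + r : ℕ) : ℤ) = (Z.dim : ℤ) - X.dim - 1 by omega, hrank]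
    congr 1
    rw [dim_prod]; omega)
  apply lefschetzB_of_rank hD hHL
  rw [show (X.dim : ℤ) - 1 = ((X.dim - 1 : ℕ) : ℤ) by omega, h2]
  congr 1
  rw [dim_prod]; omega

end Pool.Agent.W498.Dom
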