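import Pool.Agent.H447R3.AoA
import Pool.Agent.W537.RangeA
import Pool.Agent.H914R2.HLam
import Pool.Agent.H914R2.PProd
import Pool.Agent.W498.Dom.Gen

/-!
# Two commuting Lefschetz operators
-/

open Finset

set_option linter.unusedSectionVars false

namespace Pool.Agent.W498.Dom

open Pool.Agent.H914 Pool.Agent.H447

variable {K : Type*} [Field K] [CharZero K] {V : Type*} [AddCommGroup V] [Module K V]

/-- An operator commuting with `H` and `e` commutes with `f`. -/
lemma comm_f [Module.Finite K V] {H e f T : Module.End K V} (t : Sl2 H e f)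
    (hH : T * H = H * T) (he : T * e = e * T) : T * f = f * T := by
  have t' := Pool.Agent.W537.sl2_adL (K := K) t
  have h1 : (Pool.Agent.W537.adL K H) (T * f - f * T) = -((2 : ℕ) : K) • (T * f - f * T) := by
    rw [Pool.Agent.W537.adL_apply]
    have h2 := t.hf
    have h3 : H * (T * f - f * T) - (T * f - f * T) * H =
        T * (H * f - f * H) - (H * f - f * H) * T := by
      have e1 : H * (T * f) = T * (H * f) := by rw [← mul_assoc, ← hH, mul_assoc]
      have e2 : f * T * H = f * H * T := by rw [mul_assoc, hH, mul_assoc]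
      calc H * (T * f - f * T) - (T * f - f * T) * H
          = H * (T * f) - H * f * T - T * (f * H) + f * T * H := by noncomm_ring
        _ = T * (H * f) - H * f * T - T * (f * H) + f * H * T := by rw [e1, e2]
        _ = _ := by noncomm_ring
    rw [h3, h2]
    have h4 : -((2 : ℕ) : K) • (T * f - f * T) = -(2 * (T * f - f * T)) := by
      rw [neg_smul, Nat.cast_smul_eq_nsmul, nsmul_eq_mul]
      push_cast; rfl
    rw [h4]
    noncomm_ring
  have h2 : (Pool.Agent.W537.adL K e) (T * f - f * T) = 0 := by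
    rw [Pool.Agent.W537.adL_apply]
    have h3 : e * (T * f - f * T) - (T * f - f * T) * e =
        T * (e * f - f * e) - (e * f - f * e) * T := by
      have e1 : e * (T * f) = T * (e * f) := by rw [← mul_assoc, ← he, mul_assoc]
      have e2 : f * T * e = f * e * T := by rw [mul_assoc, he, mul_assoc]
      calc e * (T * f - f * T) - (T * f - f * T) * e
          = e * (T * f) - e * f * T - T * (f * e) + f * T * e := by noncomm_ring
        _ = T * (e * f) - e * f * T - T * (f * e) + f * e * T := by rw [e1, e2]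
        _ = _ := by noncomm_ring
    rw [h3, t.ef, hH, sub_self]
  have h3 := e_pow_inj t' (c := 2) h1 (by
    rw [pow_two, Module.End.mul_apply, h2, map_zero])
  exact sub_eq_zero.1 h3

lemma wt_apply {gr : ℕ → Submodule K V} (h : DirectSum.IsInternal gr) (n : ℕ) {i : ℕ} {a : V}
    (ha : a ∈ gr i) : wt h n a = ((i : K) - n) • a := by
  rw [wt, scal_apply h _ ha]
  simp [node]

/-- A vector of weight `j - n` has degree `j`. -/
lemma mem_of_wt {gr : ℕ → Submodule K V} (h : DirectSum.IsInternal gr) {N : ℕ}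
    (hN : ∀ i, N ≤ i → gr i = ⊥) {n : ℕ} {j : ℤ} {v : V} (hv : wt h n v = ((j : K) - n) • v) :
    v ∈ grZ gr j := by
  have key : ∀ i : ℕ, (i : ℤ) ≠ j → proj h i v = 0 := by
    intro i hij
    have h1 : wt h n (proj h i v) = proj h i (wt h n v) := by
      rw [← Module.End.mul_apply, ← Module.End.mul_apply, wt, proj, scal_mul, scal_mul]
      congr 2
      funext l
      ring
    rw [wt_apply h n (proj_mem h i v), hv, map_smul, ← sub_eq_zero, ← sub_smul] at h1
    rcases smul_eq_zero.1 h1 with h2 | h2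
    · exfalso
      apply hij
      have h3 : (i : K) = (j : K) := by
        rw [← sub_eq_zero]
        rw [← h2]; ring
      exact_mod_cast h3
    · exact h2
  have hsum : v = ∑ i ∈ range N, proj h i v := by
    conv_lhs => rw [show v = (1 : Module.End K V) v from rfl, ← sum_proj h hN]
    rw [LinearMap.sum_apply]
  rw [hsum]
  apply Submodule.sum_mem
  intro i _
  by_cases hij : (i : ℤ) = j
  · rw [← hij, grZ_natCast]; exact proj_mem h i v
  · rw [key i hij]; exact Submodule.zero_mem _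

/-- The component of `e` raising the degree of the second grading by two. -/
noncomputable def top {P : ℕ → Submodule K V} (iP : DirectSum.IsInternal P) (m : ℕ)
    (e : Module.End K V) : Module.End K V :=
  ∑ p ∈ range (2 * m + 1), proj iP (p + 2) * e * proj iP p

/-- A space with two gradings and two commuting Lefschetz operators. -/
structure Setup (gr P : ℕ → Submodule K V) (m : ℕ) (h e : Module.End K V) : Prop where
  igr : DirectSum.IsInternal gr
  iP : DirectSum.IsInternal P
  bgr : ∀ i, 2 * m + 1 ≤ i → gr i = ⊥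
  bP : ∀ i, 2 * m + 1 ≤ i → P i = ⊥
  hom : ∀ p j, ∀ v ∈ P p, proj igr j v ∈ P p
  hgr : IsHom gr 2 h
  egr : IsHom gr 2 e
  hP : ∀ p, ∀ v ∈ P p, h v ∈ P p
  he : h * e = e * h
  eP : ∀ p, ∀ v ∈ P p, ∀ q, p + 2 < q → proj iP q (e v) = 0
  hl : ∀ p, HardLef (fun j => P p ⊓ gr j) p h
  van : ∀ p j, 2 * p < j → P p ⊓ gr j = ⊥
  rl : HardLef P m (top iP m e)

namespace Setup

variable {gr P : ℕ → Submodule K V} {m : ℕ} {h e : Module.End K V} (S : Setup gr P m h e)

include S

lemma sumP (v : V) : v = ∑ p ∈ range (2 * m + 1), proj S.iP p v := by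
  conv_lhs => rw [show v = (1 : Module.End K V) v from rfl, ← sum_proj S.iP S.bP]
  rw [LinearMap.sum_apply]

lemma sumG (v : V) : v = ∑ p ∈ range (2 * m + 1), proj S.igr p v := by
  conv_lhs => rw [show v = (1 : Module.End K V) v from rfl, ← sum_proj S.igr S.bgr]
  rw [LinearMap.sum_apply]

lemma le_of_ne {p : ℕ} {v : V} (hv : v ∈ P p) (h0 : v ≠ 0) : p ≤ 2 * m := by
  by_contra hp
  rw [S.bP p (by omega)] at hv
  exact h0 ((Submodule.mem_bot _).1 hv)

lemma proj_comm (j p : ℕ) : proj S.igr j * proj S.iP p = proj S.iP p * proj S.igr j := by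
  apply gr_ext S.iP
  intro p' v hv
  rw [Module.End.mul_apply, Module.End.mul_apply]
  by_cases hp : p' = p
  · subst hp
    rw [proj_same S.iP hv, proj_same S.iP (S.hom _ j v hv)]
  · rw [proj_ne S.iP hv hp, map_zero, proj_ne S.iP (S.hom _ j v hv) hp]

lemma projP_gr {j : ℕ} {v : V} (hv : v ∈ gr j) (p : ℕ) : proj S.iP p v ∈ gr j := by
  have h1 : proj S.igr j (proj S.iP p v) = proj S.iP p v := by
    rw [← Module.End.mul_apply, S.proj_comm, Module.End.mul_apply, proj_same S.igr hv]
  rw [← h1]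
  exact proj_mem S.igr j _

lemma isHom_projP (p : ℕ) : IsHom gr 0 (proj S.iP p) := by
  intro i a ha
  rw [add_zero]
  by_cases hi : 0 ≤ i
  · lift i to ℕ using hi
    rw [grZ_natCast] at ha ⊢
    exact S.projP_gr ha p
  · rw [grZ_of_neg (by omega)] at ha ⊢
    rw [(Submodule.mem_bot _).1 ha, map_zero]
    exact Submodule.zero_mem _

lemma isHomP_h : IsHom P 0 h := by
  intro i a ha
  rw [add_zero]
  by_cases hi : 0 ≤ i
  · lift i to ℕ using hi
    rw [grZ_natCast] at ha ⊢
    exact S.hP _ a ha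
  · rw [grZ_of_neg (by omega)] at ha ⊢
    rw [(Submodule.mem_bot _).1 ha, map_zero]
    exact Submodule.zero_mem _

lemma projP_h (p : ℕ) : proj S.iP p * h = h * proj S.iP p := S.isHomP_h.proj_comm S.iP p

lemma top_apply {p : ℕ} {v : V} (hv : v ∈ P p) : top S.iP m e v = proj S.iP (p + 2) (e v) := by
  by_cases hp : p < 2 * m + 1
  · rw [top, LinearMap.sum_apply, Finset.sum_eq_single p]
    · rw [Module.End.mul_apply, Module.End.mul_apply, proj_same S.iP hv]
    · intro q _ hq
      rw [Module.End.mul_apply, proj_ne S.iP hv (Ne.symm hq), map_zero]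
    · intro h'; exact absurd (Finset.mem_range.2 hp) h'
  · rw [S.bP p (by omega)] at hv
    rw [(Submodule.mem_bot _).1 hv, map_zero, map_zero, map_zero]

lemma isHomP_top : IsHom P 2 (top S.iP m e) := by
  intro i a ha
  by_cases hi : 0 ≤ i
  · lift i to ℕ using hi
    rw [grZ_natCast] at ha
    rw [show (i : ℤ) + 2 = ((i + 2 : ℕ) : ℤ) by push_cast; ring, grZ_natCast, S.top_apply ha]
    exact proj_mem S.iP _ _
  · rw [grZ_of_neg (by omega)] at ha
    rw [(Submodule.mem_bot _).1 ha, map_zero]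
    exact Submodule.zero_mem _

lemma isHom_top : IsHom gr 2 (top S.iP m e) := by
  apply IsHom.sum
  intro p _
  have h1 := ((S.isHom_projP (p + 2)).mul S.egr).mul (S.isHom_projP p)
  simpa using h1

lemma h_top : h * top S.iP m e = top S.iP m e * h := by
  rw [top, Finset.mul_sum, Finset.sum_mul]
  apply Finset.sum_congr rfl
  intro p _
  calc h * (proj S.iP (p + 2) * e * proj S.iP p)
      = (h * proj S.iP (p + 2)) * e * proj S.iP p := by noncomm_ring
    _ = proj S.iP (p + 2) * (h * e) * proj S.iP p := by rw [← S.projP_h]; noncomm_ring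
    _ = proj S.iP (p + 2) * e * (h * proj S.iP p) := by rw [S.he]; noncomm_ring
    _ = _ := by rw [← S.projP_h]; noncomm_ring

/-- The difference of the two weight operators. -/
noncomputable def _root_.Pool.Agent.W498.Dom.Ha {gr P : ℕ → Submodule K V}
    (igr : DirectSum.IsInternal gr) (iP : DirectSum.IsInternal P) (m : ℕ) : Module.End K V :=
  wt igr m - wt iP m

lemma Ha_apply {p j : ℕ} {v : V} (hp : v ∈ P p) (hj : v ∈ gr j) :
    Ha S.igr S.iP m v = ((j : K) - p) • v := by
  rw [Ha, LinearMap.sub_apply, wt_apply _ m hj, wt_apply _ m hp, ← sub_smul]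
  congr 1
  ring

lemma wt_projP (p : ℕ) : wt S.igr m * proj S.iP p = proj S.iP p * wt S.igr m := by
  have h1 := (S.isHom_projP p).wt_comm S.igr m
  rw [h1]
  simp

lemma wtP_projP (p : ℕ) : wt S.iP m * proj S.iP p = proj S.iP p * wt S.iP m := by
  rw [wt, proj, scal_mul, scal_mul]
  congr 1
  funext l
  ring

lemma Ha_projP (p : ℕ) : Ha S.igr S.iP m * proj S.iP p = proj S.iP p * Ha S.igr S.iP m := by
  rw [Ha, sub_mul, mul_sub, S.wt_projP, S.wtP_projP]

lemma isHomP_projG (j : ℕ) : IsHom P 0 (proj S.igr j) := by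
  intro i a ha
  rw [add_zero]
  by_cases hi : 0 ≤ i
  · lift i to ℕ using hi
    rw [grZ_natCast] at ha ⊢
    exact S.hom _ _ a ha
  · rw [grZ_of_neg (by omega)] at ha ⊢
    rw [(Submodule.mem_bot _).1 ha, map_zero]
    exact Submodule.zero_mem _

lemma wt_wt : wt S.igr m * wt S.iP m = wt S.iP m * wt S.igr m := by
  apply gr_ext S.iP
  intro p v hv
  rw [Module.End.mul_apply, Module.End.mul_apply, wt_apply _ m hv, map_smul]
  have h1 : wt S.igr m v ∈ P p := by
    have h2 : wt S.igr m v = proj S.iP p (wt S.igr m v) := by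
      rw [← Module.End.mul_apply, ← S.wt_projP, Module.End.mul_apply, proj_same S.iP hv]
    rw [h2]; exact proj_mem S.iP p _
  rw [wt_apply _ m h1]

lemma Ha_h : Ha S.igr S.iP m * h = h * Ha S.igr S.iP m + (2 : K) • h := by
  have h1 := S.hgr.wt_comm S.igr m
  have h2 := S.isHomP_h.wt_comm S.iP m
  rw [Ha, sub_mul, mul_sub, h1, h2]
  push_cast
  rw [zero_smul, add_zero]
  abel

lemma Ha_top : Ha S.igr S.iP m * top S.iP m e = top S.iP m e * Ha S.igr S.iP m := by
  have h1 := S.isHom_top.wt_comm S.igr m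
  have h2 := S.isHomP_top.wt_comm S.iP m
  rw [Ha, sub_mul, mul_sub, h1, h2]
  abel

/-- Decomposition of an eigenvector of the difference of the weights. -/
lemma comp_mem {c : ℤ} {v : V} (hv : Ha S.igr S.iP m v = (c : K) • v) (p : ℕ) :
    proj S.iP p v ∈ grZ gr (c + p) := by
  apply mem_of_wt S.igr S.bgr (n := m)
  have h1 : Ha S.igr S.iP m (proj S.iP p v) = (c : K) • proj S.iP p v := by
    rw [← Module.End.mul_apply, S.Ha_projP, Module.End.mul_apply, hv, map_smul]
  have h2 : wt S.iP m (proj S.iP p v) = ((p : K) - m) • proj S.iP p v :=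
    wt_apply _ m (proj_mem S.iP p v)
  rw [Ha, LinearMap.sub_apply, sub_eq_iff_eq_add, h2, ← add_smul] at h1
  rw [h1]
  congr 1
  push_cast; ring

/-- The grading by the difference of the weights. -/
noncomputable def _root_.Pool.Agent.W498.Dom.grA {gr P : ℕ → Submodule K V}
    (igr : DirectSum.IsInternal gr) (iP : DirectSum.IsInternal P) (m : ℕ) (i : ℕ) :
    Submodule K V :=
  Module.End.eigenspace (Ha igr iP m) (((i : ℤ) - (2 * m : ℕ) : ℤ) : K)

lemma mem_grA {i : ℕ} {v : V} : v ∈ grA S.igr S.iP m i ↔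
    Ha S.igr S.iP m v = (((i : ℤ) - (2 * m : ℕ) : ℤ) : K) • v := Module.End.mem_eigenspace_iff

lemma igrA [Module.Finite K V] : DirectSum.IsInternal (grA S.igr S.iP m) := by
  apply DirectSum.isInternal_submodule_of_iSupIndep_of_iSup_eq_top
  · have h1 := Module.End.eigenspaces_iSupIndep (Ha S.igr S.iP m)
    have h2 : Function.Injective (fun i : ℕ => (((i : ℤ) - (2 * m : ℕ) : ℤ) : K)) := by
      intro a b hab
      have h3 : ((a : ℤ) - (2 * m : ℕ) : ℤ) = (b : ℤ) - (2 * m : ℕ) := by
        have : (((a : ℤ) - (2 * m : ℕ) : ℤ) : K) = (((b : ℤ) - (2 * m : ℕ) : ℤ) : K) := hab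
        exact_mod_cast this
      omega
    exact h1.comp h2
  · rw [eq_top_iff]
    intro v _
    rw [S.sumP v]
    apply Submodule.sum_mem
    intro p hp
    rw [S.sumG (proj S.iP p v)]
    apply Submodule.sum_mem
    intro j _
    have h1 : proj S.igr j (proj S.iP p v) ∈ P p := S.hom _ _ _ (proj_mem S.iP p v)
    have h2 : proj S.igr j (proj S.iP p v) ∈ gr j := proj_mem S.igr j _
    apply Submodule.mem_iSup_of_mem (j + 2 * m - p)
    rw [S.mem_grA, S.Ha_apply h1 h2]
    congr 1
    have := Finset.mem_range.1 hp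
    have h3 : ((j + 2 * m - p : ℕ) : ℤ) - (2 * m : ℕ) = (j : ℤ) - p := by omega
    rw [h3]
    push_cast; ring

lemma isHom_grA : IsHom (grA S.igr S.iP m) 2 h := by
  intro i a ha
  by_cases hi : 0 ≤ i
  · lift i to ℕ using hi
    rw [grZ_natCast, S.mem_grA] at ha
    rw [show (i : ℤ) + 2 = ((i + 2 : ℕ) : ℤ) by push_cast; ring, grZ_natCast, S.mem_grA]
    have h1 := congrArg (fun F => F a) S.Ha_h
    simp only [Module.End.mul_apply, LinearMap.add_apply, LinearMap.smul_apply] at h1
    rw [h1, ha, map_smul, ← add_smul]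
    congr 1
    push_cast; ring
  · rw [grZ_of_neg (by omega)] at ha
    rw [(Submodule.mem_bot _).1 ha, map_zero]
    exact Submodule.zero_mem _

lemma pow_h_projP (p c : ℕ) (v : V) : (h ^ c) (proj S.iP p v) = proj S.iP p ((h ^ c) v) := by
  have h1 : Commute (proj S.iP p) h := S.projP_h p
  have h2 := (h1.pow_right c).eq
  rw [← Module.End.mul_apply, ← Module.End.mul_apply, h2]

lemma bgrA (i : ℕ) (hi : 2 * (2 * m) + 1 ≤ i) : grA S.igr S.iP m i = ⊥ := by
  rw [eq_bot_iff]
  intro v hv
  rw [S.mem_grA] at hv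
  rw [Submodule.mem_bot, S.sumP v]
  apply Finset.sum_eq_zero
  intro p _
  have h1 := S.comp_mem hv p
  have h2 : grZ gr ((i : ℤ) - (2 * m : ℕ) + p) = ⊥ := by
    rw [show ((i : ℤ) - (2 * m : ℕ) + p) = ((i - 2 * m + p : ℕ) : ℤ) by omega, grZ_natCast]
    exact S.bgr _ (by omega)
  rw [h2] at h1
  exact (Submodule.mem_bot _).1 h1

lemma hlA : HardLef (grA S.igr S.iP m) (2 * m) h := by
  intro i hi
  constructor
  · intro v hv h0
    rw [S.mem_grA] at hv
    rw [S.sumP v]
    apply Finset.sum_eq_zero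
    intro p _
    have h1 := S.comp_mem hv p
    by_cases hneg : (i : ℤ) - (2 * m : ℕ) + p < 0
    · rw [grZ_of_neg hneg] at h1
      exact (Submodule.mem_bot _).1 h1
    · obtain ⟨j, hj⟩ := Int.eq_ofNat_of_zero_le (not_lt.1 hneg)
      rw [hj, grZ_natCast] at h1
      apply (S.hl p j (by omega)).1 _ ⟨proj_mem S.iP p v, h1⟩
      rw [S.pow_h_projP, show p - j = 2 * m - i by omega, h0, map_zero]
  · intro w hw
    rw [S.mem_grA] at hw
    have hex : ∀ p, ∃ v, v ∈ P p ∧ v ∈ grZ gr ((i : ℤ) - (2 * m : ℕ) + p) ∧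
        (h ^ (2 * m - i)) v = proj S.iP p w := by
      intro p
      have h1 := S.comp_mem hw p
      rw [show ((2 * (2 * m) - i : ℕ) : ℤ) - (2 * m : ℕ) + p = ((p + (2 * m - i) : ℕ) : ℤ) by omega,
        grZ_natCast] at h1
      by_cases hp : 2 * m - i ≤ p
      · obtain ⟨v, hv, hv'⟩ := (S.hl p (p - (2 * m - i)) (by omega)).2 (proj S.iP p w)
          ⟨proj_mem S.iP p w, by
            rw [show 2 * p - (p - (2 * m - i)) = p + (2 * m - i) by omega]; exact h1⟩
        rw [show p - (p - (2 * m - i)) = 2 * m - i by omega] at hv'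
        refine ⟨v, hv.1, ?_, hv'⟩
        rw [show (i : ℤ) - (2 * m : ℕ) + p = ((p - (2 * m - i) : ℕ) : ℤ) by omega, grZ_natCast]
        exact hv.2
      · refine ⟨0, Submodule.zero_mem _, Submodule.zero_mem _, ?_⟩
        have h2 : proj S.iP p w ∈ P p ⊓ gr (p + (2 * m - i)) := ⟨proj_mem S.iP p w, h1⟩
        rw [S.van p _ (by omega)] at h2
        rw [map_zero, (Submodule.mem_bot _).1 h2]
    choose v hv1 hv2 hv3 using hex
    refine ⟨∑ p ∈ range (2 * m + 1), v p, ?_, ?_⟩
    · apply Submodule.sum_mem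
      intro p _
      rw [S.mem_grA]
      have h2 := hv2 p
      by_cases hneg : (i : ℤ) - (2 * m : ℕ) + p < 0
      · rw [grZ_of_neg hneg] at h2
        rw [(Submodule.mem_bot _).1 h2, map_zero, smul_zero]
      · obtain ⟨j, hj⟩ := Int.eq_ofNat_of_zero_le (not_lt.1 hneg)
        rw [hj, grZ_natCast] at h2
        rw [S.Ha_apply (hv1 p) h2]
        congr 1
        have : ((i : ℤ) - (2 * m : ℕ)) = (j : ℤ) - p := by
          have := hj
          omega
        rw [this]
        push_cast; ring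
    · rw [map_sum, S.sumP w]
      apply Finset.sum_congr rfl
      intro p _
      rw [hv3]

/-- The first triple. -/
lemma exists_sl2_h [Module.Finite K V] : ∃ Λ, Sl2 (Ha S.igr S.iP m) h Λ := by
  obtain ⟨Λ, t, -, -⟩ := exists_sl2 S.igrA S.isHom_grA S.bgrA S.hlA
  refine ⟨Λ, ?_⟩
  have h1 : wt S.igrA (2 * m) = Ha S.igr S.iP m := by
    apply gr_ext S.igrA
    intro i a ha
    rw [wt_apply _ _ ha, S.mem_grA.1 ha]
    push_cast; rfl
  rwa [h1] at t

/-- **Two commuting Lefschetz operators.** -/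
theorem exists_sl2_both [Module.Finite K V] : ∃ Λ Λ' : Module.End K V,
    Sl2 (Ha S.igr S.iP m) h Λ ∧ Sl2 (wt S.iP m) (top S.iP m e) Λ' ∧ IsHom P (-2) Λ' ∧
      Sl2 (wt S.igr m) (h + top S.iP m e) (Λ + Λ') := by
  obtain ⟨Λ, t1⟩ := S.exists_sl2_h
  obtain ⟨Λ', t2, hΛ', -⟩ := exists_sl2 S.iP S.isHomP_top S.bP S.rl
  refine ⟨Λ, Λ', t1, t2, hΛ', ?_⟩
  have hwh : wt S.iP m * h = h * wt S.iP m := by
    have := S.isHomP_h.wt_comm S.iP m
    rw [this]; simp
  have hwHa : wt S.iP m * Ha S.igr S.iP m = Ha S.igr S.iP m * wt S.iP m := by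
    rw [Ha, mul_sub, sub_mul, S.wt_wt]
  have c1 : h * Λ' = Λ' * h := comm_f t2 hwh.symm S.h_top
  have c2 : top S.iP m e * Λ = Λ * top S.iP m e := comm_f t1 S.Ha_top.symm S.h_top.symm
  have c3 : wt S.iP m * Λ = Λ * wt S.iP m := comm_f t1 hwHa hwh
  have c4 : Ha S.igr S.iP m * Λ' = Λ' * Ha S.igr S.iP m := comm_f t2 hwHa.symm S.Ha_top
  have c5 : Λ * Λ' = Λ' * Λ := comm_f t2 c3.symm c2.symm
  have t := Sl2.add t1 t2 S.Ha_top c4 hwh.symm c1 c3.symm c2.symm
  have h1 : Ha S.igr S.iP m + wt S.iP m = wt S.igr m := by rw [Ha, sub_add_cancel]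
  rwa [h1] at t

end Setup

end Pool.Agent.W498.Dom
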