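import Pool.Agent.W498.Dom.Defs
import Pool.Agent.W534.HDefs
import Pool.Agent.W550.B.AddDefs

/-!
# The varieties obtained by products, hyperplane sections, sums of twists and images: definitions
-/

open CategoryTheory AlgebraicGeometry

universe u v

namespace Pool.Agent.W498.Dom

open Pool.Agent.H914 VarClass Obj WeilCohomology Pool.Agent.W550.B Pool.Agent.W534

variable {k : Type u} [Field k] {𝒱 : VarClass k} {ops : CycleOps 𝒱}

/-- There is a matrix of `K`-linear combinations of algebraic correspondences which maps the direct
sum of the cohomology groups `H(X s)(-a s)` bijectively to the direct sum of the groups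
`H(Y t)(-b t)` and preserves the weights. -/
def SumsBijectively (W : WeilCohomology.{u, v} ops) {m r : ℕ} (X : Fin m → 𝒱.Obj)
    (a : Fin m → ℤ) (Y : Fin r → 𝒱.Obj) (b : Fin r → ℤ) : Prop :=
  ∃ F : ∀ s t, W.H ((X s).prod (Y t)), IsAlgMatrix W a b F ∧
    ∀ y : ∀ t, W.H (Y t), ∃! x : ∀ s, W.H (X s), ∀ t, ∑ s, W.corr (F s t) (x s) = y t

/-- The smallest class of varieties which contains the varieties in `S` and all curves, and which
is stable under the following operations: products; hyperplane sections (with the weak Lefschetz
theorem in `W`); passing from some varieties to other varieties such that a direct sum of Tate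
twists of the cohomologies of the first is mapped bijectively to a direct sum of Tate twists of
the cohomologies of the second by a matrix of algebraic correspondences (for example blow-ups of
members of the class with centres in the class, and projective bundles over members of the class);
images under dominant morphisms (with the decomposition theorem and the relative hard Lefschetz
theorem in `W`). -/
inductive Built (W : WeilCohomology.{u, v} ops) (S : Set 𝒱.Obj) : 𝒱.Obj → Prop
  | base {X : 𝒱.Obj} (hX : X ∈ S) : Built W S X
  | curve {X : 𝒱.Obj} (hX : X.dim ≤ 1) : Built W S X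
  | prod {X Y : 𝒱.Obj} (hX : Built W S X) (hY : Built W S Y) : Built W S (X.prod Y)
  | hyperplane {X Y : 𝒱.Obj} (i : Y ⟶ X) (D : X.Cycles) (hdim : X.dim = Y.dim + 1)
      (hD : IsLefschetzDivisor W X D) (hY : W.cl X (ops.push i Y.V.fundCycle) = W.cl X D)
      (hi : WeakLefschetz W i) (hX : Built W S X) : Built W S Y
  | sum {m r : ℕ} {X : Fin m → 𝒱.Obj} {a : Fin m → ℤ} {Y : Fin r → 𝒱.Obj} {b : Fin r → ℤ}
      (h : SumsBijectively W X a Y b) (hX : ∀ s, Built W S (X s)) (t : Fin r) : Built W S (Y t)
  | image {Y X : 𝒱.Obj} (f : Y ⟶ X) (D : X.Cycles) (E : Y.Cycles)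
      (hD : IsLefschetzDivisor W X D) (hE : Y.IsCyc 1 E) (hf : IsDominant ops f)
      (Q : PerverseDecomposition W f D E) (hY : Built W S Y) : Built W S X

end Pool.Agent.W498.Dom
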