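import Pool.Agent.W498.Dom.Main
import Pool.Agent.W498.Dom.ClassDefs
import Pool.Agent.W550.B.AddTop
import Pool.Agent.W550.B.Top
import Pool.Agent.W537.OneCycleB

/-!
# The Lefschetz standard conjecture for the class
-/

open CategoryTheory AlgebraicGeometry Finset

set_option linter.unusedSectionVars false

universe u v

namespace Pool.Agent.W498.Dom

open Pool.Agent.H914 Pool.Agent.H447 VarClass Obj WeilCohomology Pool.Agent.W550.B
  Pool.Agent.W534

variable {k : Type u} [Field k] {𝒱 : VarClass k} {ops : CycleOps 𝒱}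
  {W : WeilCohomology.{u, v} ops} {X Y Z : 𝒱.Obj}

/-- Injective combinations in all complementary degrees. -/
def Inj (W : WeilCohomology.{u, v} ops) (X : 𝒱.Obj) : Prop :=
  ∀ c ≤ X.dim, ∃ ν ∈ KOp W X X (-c), ∀ a ∈ W.gr X (X.dim + c), ν a = 0 → a = 0

lemma kop_pow {d : ℤ} {T : Module.End W.K (W.H Y)} (hT : T ∈ KOp W Y Y d) (j : ℕ) :
    T ^ j ∈ KOp W Y Y (j * d) :=
  mem_KS_iff.1 ((rop_opAlg (W := W) (X := Y)).kspan.pow (mem_KS_iff.2 hT) j)

/-- Products. -/
theorem Inj.prod {D : Y.Cycles} {E : Z.Cycles} (hD : IsLefschetzDivisor W Y D)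
    (hE : IsLefschetzDivisor W Z E) (hY : Inj W Y) (hZ : Inj W Z) : Inj W (Y.prod Z) := by
  obtain ⟨F, hF, t⟩ := exists_lower (kop_L hD.1) hD.2 hY
  obtain ⟨F', hF', t'⟩ := exists_lower (kop_L hE.1) hE.2 hZ
  have tt := sl2_prod t t'
  rw [← wt_prod] at tt
  intro c _
  have hk : extSum W F F' ∈ KOp W (Y.prod Z) (Y.prod Z) (-1) := by
    rw [extSum, extL_apply, extR_apply]
    apply Submodule.add_mem
    · exact KOp.cast (KOp.ext hF (KOp.id Z)) (by ring)
    · exact KOp.cast (KOp.ext (KOp.id Y) hF') (by ring)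
  refine ⟨extSum W F F' ^ c, KOp.cast (kop_pow hk c) (by ring), fun a ha h0 => ?_⟩
  apply f_pow_inj tt (c := c) _ h0
  rw [wt_apply _ _ ha]
  congr 1
  push_cast; ring

/-- Curves. -/
theorem Inj.curve (hX : X.dim ≤ 1) : Inj W X := by
  intro c hc
  rcases Nat.eq_zero_or_pos c with rfl | hc0
  · exact ⟨LinearMap.id, KOp.cast (KOp.id X) (by simp), fun a _ h => h⟩
  · obtain rfl : c = X.dim := by omega
    refine ⟨W.corr (W.cl _ (X.prod X).V.fundCycle), ?_, ?_⟩
    · exact KOp.gen (p := 0) (by push_cast; ring) (X.prod X).V.fundCycle_mem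
    · intro a ha h0
      rw [corr_apply, W.cl_fund, one_mul, push_snd'] at h0
      by_cases h1 : (1 : W.H X) = 0
      · rw [← mul_one a, h1, mul_zero]
      · apply tr_top_inj _ ((smul_eq_zero.1 h0).resolve_right h1)
        rw [two_mul]; exact ha

/-- Hyperplane sections. -/
theorem Inj.hyperplane (i : Y ⟶ X) {D : X.Cycles} (hdim : X.dim = Y.dim + 1)
    (hD : IsLefschetzDivisor W X D) (hY : W.cl X (ops.push i Y.V.fundCycle) = W.cl X D)
    (hi : WeakLefschetz W i) (hX : Inj W X) : Inj W Y := by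
  have S := hsec hdim hD.1 hY hD.2 hi
  intro c hc
  rcases Nat.eq_zero_or_pos c with rfl | hc0
  · exact ⟨LinearMap.id, KOp.cast (KOp.id Y) (by simp), fun a _ h => h⟩
  obtain ⟨ν, hν, hinj⟩ := hX (c + 1) (by omega)
  refine ⟨(W.map i).toLinearMap ∘ₗ ν ∘ₗ W.push i, ?_, ?_⟩
  · refine KOp.cast (KOp.comp (qop_pull i).kop (KOp.comp hν (qop_push i).kop)) ?_
    rw [hdim]; push_cast; ring
  · intro a ha h0
    have h1 : W.push i a ∈ W.gr X (X.dim + (c + 1)) := by
      have := S.hγ _ a ha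
      rwa [show Y.dim + c + 2 = X.dim + (c + 1) by omega] at this
    have h2 : ν (W.push i a) ∈ W.gr X (Y.dim - c) := by
      have h3 := KOp.isHom hν ((X.dim + (c + 1) : ℕ) : ℤ) _ (by rw [grZ_natCast]; exact h1)
      rw [show ((X.dim + (c + 1) : ℕ) : ℤ) + 2 * -((c + 1 : ℕ) : ℤ) = ((Y.dim - c : ℕ) : ℤ) by
        omega, grZ_natCast] at h3
      exact h3
    have h3 : ν (W.push i a) = 0 := S.ι_inj (by omega) h2 h0
    exact S.inj _ (by omega) a ha (hinj _ h1 h3)

lemma mapsBijectively {m r : ℕ} {X : Fin m → 𝒱.Obj} {a : Fin m → ℤ} {Y : Fin r → 𝒱.Obj}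
    {b : Fin r → ℤ} (h : SumsBijectively W X a Y b) : MapsBijectively W X a Y b := by
  obtain ⟨F, hF, h1⟩ := h
  have key : ∀ x t, matrixOp W F x t = ∑ s, W.corr (F s t) (x s) := by
    intro x t
    simp [matrixOp]
  refine ⟨F, hF, ?_, ?_⟩
  · intro x x' hx
    exact (h1 (matrixOp W F x)).unique (fun t => (key x t).symm)
      (fun t => by rw [hx]; exact (key x' t).symm)
  · intro y
    obtain ⟨x, hx, -⟩ := h1 y
    exact ⟨x, funext fun t => (key x t).trans (hx t)⟩

/-- **The class.** -/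
theorem inj_of_built (hW : ∀ X : 𝒱.Obj, ∃ D, IsLefschetzDivisor W X D) {S : Set 𝒱.Obj}
    (hS : ∀ P ∈ S, ∃ D, IsLefschetzDivisor W P D ∧ LefschetzB W P D) (hX : Built W S X) :
    Inj W X := by
  induction hX with
  | base hX =>
    obtain ⟨D, hD, hB⟩ := hS _ hX
    exact inj_of_lefschetzB hD.1 hD.2 hB
  | curve hX => exact Inj.curve hX
  | @prod X Y _ _ ihX ihY =>
    obtain ⟨D, hD⟩ := hW X
    obtain ⟨E, hE⟩ := hW Y
    exact Inj.prod hD hE ihX ihY
  | hyperplane i D hdim hD hY hi _ ih => exact Inj.hyperplane i hdim hD hY hi ih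
  | @sum m r X a Y b h _ t ih =>
    choose D hD using fun s => hW (X s)
    choose E hE using fun s => hW (Y s)
    have h1 := (sums_main hD hE (mapsBijectively h)).1 (fun s => lefschetzB_of_inj (hD s).1 (hD s).2 (ih s))
    exact inj_of_lefschetzB (hE t).1 (hE t).2 (h1 t)
  | image f D E hD hE hf Q _ ih => exact inj_of_dominant Q hD.1 hE hD.2 hf ih

/-- The conjecture B for all members of the class and all divisors with hard Lefschetz. -/
theorem lefschetzB_of_built (hW : ∀ X : 𝒱.Obj, ∃ D, IsLefschetzDivisor W X D) {S : Set 𝒱.Obj}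
    (hS : ∀ P ∈ S, ∃ D, IsLefschetzDivisor W P D ∧ LefschetzB W P D) (hX : Built W S X)
    {D : X.Cycles} (hD : IsLefschetzDivisor W X D) : LefschetzB W X D :=
  lefschetzB_of_inj hD.1 hD.2 (inj_of_built hW hS hX)

end Pool.Agent.W498.Dom
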