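import Pool.Agent.W498.Dom.Lat

/-!
# The limit argument
-/

open Finset Polynomial

set_option linter.unusedSectionVars false

namespace Pool.Agent.W498.Dom

open Pool.Agent.H914 Pool.Agent.H447

variable {K : Type*} [Field K] [CharZero K] {V : Type*} [AddCommGroup V] [Module K V]

namespace Setup

variable {gr P : ℕ → Submodule K V} {m : ℕ} {h e : Module.End K V} (S : Setup gr P m h e)

include S

lemma hardLef_of_inj [Module.Finite K V]
    (hdim : ∀ c ≤ m, Module.finrank K (gr (m - c)) = Module.finrank K (gr (m + c)))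
    {s : K} (hs : s ≠ 0)
    (hinj : ∀ c ≤ m, ∀ v ∈ gr (m - c), (LL S.iP m h e s ^ c) v = 0 → v = 0) :
    HardLef gr m (h + s ^ 2 • e) := by
  intro i hi
  have hT : IsHom gr 2 (h + s ^ 2 • e) := S.hgr.add (S.egr.smul _)
  have h1 : ∀ v ∈ gr i, ((h + s ^ 2 • e) ^ (m - i)) v = 0 → v = 0 := by
    intro v hv h0
    have h2 : scal S.iP (fun p => (s ^ p)⁻¹) v = 0 := by
      apply hinj (m - i) (by omega) _
      · rw [show m - (m - i) = i by omega]
        exact S.scal_gr _ hv
      · rw [S.LL_pow hs, Module.End.mul_apply, Module.End.mul_apply,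
          ← Module.End.mul_apply (scal S.iP (fun p => s ^ p)), S.scal_inv hs,
          Module.End.one_apply, h0, map_zero]
    have h3 : v = scal S.iP (fun p => s ^ p) (scal S.iP (fun p => (s ^ p)⁻¹) v) := by
      rw [← Module.End.mul_apply, S.scal_inv hs, Module.End.one_apply]
    rw [h3, h2, map_zero]
  refine ⟨h1, ?_⟩
  have hmem : ∀ v ∈ gr i, ((h + s ^ 2 • e) ^ (m - i)) v ∈ gr (2 * m - i) := by
    intro v hv
    have := pow_L_mem hT hv (m - i)
    rwa [show i + 2 * (m - i) = 2 * m - i by omega] at this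
  have hfr : Module.finrank K (gr i) = Module.finrank K (gr (2 * m - i)) := by
    have := hdim (m - i) (by omega)
    rwa [show m - (m - i) = i by omega, show m + (m - i) = 2 * m - i by omega] at this
  set g : gr i →ₗ[K] gr (2 * m - i) := ((h + s ^ 2 • e) ^ (m - i)).restrict hmem with hg
  have hginj : Function.Injective g := by
    rw [← LinearMap.ker_eq_bot, LinearMap.ker_eq_bot']
    rintro ⟨v, hv⟩ h0
    apply Subtype.ext
    exact h1 v hv (congrArg Subtype.val h0)
  have hgsurj : Function.Surjective g :=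
    (LinearMap.injective_iff_surjective_of_finrank_eq_finrank hfr).1 hginj
  intro b hb
  obtain ⟨⟨a, ha⟩, hab⟩ := hgsurj ⟨b, hb⟩
  exact ⟨a, ha, congrArg Subtype.val hab⟩

/-- Filtration level of the powers of `e`. -/
lemma e_pow_level {a k : ℕ} {v : V} (hv : ∀ q, a < q → proj S.iP q v = 0) :
    ∀ q, a + 2 * k < q → proj S.iP q ((e ^ k) v) = 0 := by
  induction k with
  | zero => simpa using hv
  | succ k ih =>
    intro q hq
    rw [pow_succ', Module.End.mul_apply, S.sumP ((e ^ k) v), map_sum, map_sum]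
    apply Finset.sum_eq_zero
    intro p _
    by_cases hp : a + 2 * k < p
    · rw [ih p hp, map_zero, map_zero]
    · exact S.eP p _ (proj_mem S.iP p _) q (by omega)

end Setup

namespace MapSetup

variable {U : Type*} [AddCommGroup U] [Module K U] {gr P : ℕ → Submodule K V}
    {grU : ℕ → Submodule K U} {n r : ℕ} {h e : Module.End K V} {hU : Module.End K U}
    {φ : U →ₗ[K] V} {ψ : V →ₗ[K] U} {δ : K} (S : Setup gr P (n + r) h e)
    (M : MapSetup gr P grU n r h e hU φ ψ δ)

include S M

lemma psi_low {p : ℕ} (hp : p < n) {v : V} (hv : v ∈ P p) : ψ ((e ^ r) v) = 0 := by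
  have h1 : ∀ q, p + 2 * r < q → proj S.iP q ((e ^ r) v) = 0 :=
    S.e_pow_level (fun q hq => proj_ne S.iP hv (by omega))
  rw [S.sumP ((e ^ r) v), map_sum]
  apply Finset.sum_eq_zero
  intro q _
  by_cases hq : q = n + 2 * r
  · rw [h1 q (by omega), map_zero]
  · exact M.ψP q hq _ (proj_mem S.iP q _)

/-- **The limit argument.** -/
theorem core [Module.Finite K V] [Module.Finite K U]
    (hdim : ∀ c ≤ n + r, Module.finrank K (gr (n + r - c)) = Module.finrank K (gr (n + r + c)))
    (c : ℕ) :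
    ∃ s : K, s ≠ 0 ∧ HardLef gr (n + r) (h + s ^ 2 • e) ∧
      HardLef gr (n + r) (h + (2 * s) ^ 2 • e) ∧
      ∀ f1 f2, Sl2 (wt S.igr (n + r)) (h + s ^ 2 • e) f1 →
        Sl2 (wt S.igr (n + r)) (h + (2 * s) ^ 2 • e) f2 →
        ∀ y ∈ grU (n + c),
          ψ ((e ^ r) ((((3 : K)⁻¹ • ((4 : K) • f2 - f1)) ^ c) (φ y))) = 0 → y = 0 := by
  obtain ⟨Λ, Λ', t1, t2, hΛ', t⟩ := S.exists_sl2_both
  obtain ⟨q, A, hq, hA, hqA⟩ := S.exists_family
  obtain ⟨ΛU, tU, -, -⟩ := exists_sl2 M.iU M.hUgr (fun i hi => M.bU i hi) M.hlU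
  set D2 := scal S.iP (fun p => (2 : K) ^ p) with hD2
  set D2' := scal S.iP (fun p => ((2 : K) ^ p)⁻¹) with hD2'
  have h2 : (2 : K) ≠ 0 := two_ne_zero
  have e12 : D2 * D2' = 1 := S.scal_inv h2
  set B : K → Module.End K V := fun s =>
    (3 : K)⁻¹ • ((4 * q.eval s) • (D2 * A (2 * s) * D2') - q.eval (2 * s) • A s) with hB
  have hBv : PVec B := by
    apply PVec.csmul
    apply PVec.sub
    · have h3 : PVec (fun s => D2 * A (2 * s) * D2') :=
        (hA.scale 2).map (LinearMap.mulRight K D2' ∘ₗ LinearMap.mulLeft K D2)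
      have h4 := h3.smul (C 4 * q)
      simpa using h4
    · have h4 := hA.smul (q.comp (C 2 * X))
      simpa using h4
  have hA0 : A 0 = q.eval 0 • (Λ + Λ') := (hqA 0 (Λ + Λ') (by rw [S.LL_zero]; exact t)).symm
  have hΛD : D2 * Λ = Λ * D2 := by
    apply commute_scal S.iP S.bP
    intro p
    exact comm_f t1 (S.Ha_projP p).symm (S.projP_h p)
  have hΛ'D : D2 * Λ' * D2' = (4 : K)⁻¹ • Λ' := by
    apply gr_ext S.iP
    intro p v hv
    rw [Module.End.mul_apply, Module.End.mul_apply, scal_apply S.iP _ hv, map_smul, map_smul,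
      LinearMap.smul_apply]
    have h3 := hΛ' p v (by rw [grZ_natCast]; exact hv)
    by_cases hp : 2 ≤ p
    · rw [show (p : ℤ) + -2 = ((p - 2 : ℕ) : ℤ) by omega, grZ_natCast] at h3
      rw [scal_apply S.iP _ h3, smul_smul]
      congr 1
      obtain ⟨p', rfl⟩ : ∃ p', p = p' + 2 := ⟨p - 2, by omega⟩
      rw [Nat.add_sub_cancel, pow_add]
      have h4 : (2 : K) ^ p' ≠ 0 := pow_ne_zero _ h2
      field_simp
      norm_num
    · rw [grZ_of_neg (by omega)] at h3
      rw [(Submodule.mem_bot _).1 h3, map_zero, smul_zero, smul_zero]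
  have hB0 : B 0 = (q.eval 0 ^ 2) • Λ := by
    simp only [hB]
    rw [mul_zero, hA0, mul_smul_comm, smul_mul_assoc, mul_add, add_mul, hΛ'D, hΛD, mul_assoc Λ, e12,
      mul_one, smul_smul, smul_smul, smul_add, smul_add, smul_smul]
    have h3 : (3 : K) ≠ 0 := three_ne_zero
    module
  -- the family of maps
  set F : K → (grU (n + c)) →ₗ[K] U := fun s =>
    ∑ p ∈ range (2 * (n + r) + 1), (if n ≤ p then (X ^ (p - n) : K[X]) else 0).eval s •
      (ψ ∘ₗ (e ^ r) ∘ₗ proj S.iP p ∘ₗ (B s ^ c) ∘ₗ φ ∘ₗ (grU (n + c)).subtype) with hF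
  have hFf : PFam F := by
    apply PFam.sum
    intro p _
    apply PFam.smul
    intro x
    have h3 := (hBv.pfam.pow c) (φ x)
    exact h3.map (ψ ∘ₗ (e ^ r) ∘ₗ proj S.iP p)
  have hΛpow : ∀ (j : ℕ) (u : U), (Λ ^ j) (φ u) = φ ((ΛU ^ j) u) := by
    intro j
    induction j with
    | zero => intro u; rfl
    | succ j ih =>
      intro u
      rw [pow_succ, pow_succ, Module.End.mul_apply, Module.End.mul_apply,
        intertwine S M t1 tU, ih]
  have hF0 : ∀ y, F 0 y = ((q.eval 0 ^ 2) ^ c * δ) • (ΛU ^ c) y := by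
    intro y
    rw [hF]
    simp only [LinearMap.sum_apply]
    rw [Finset.sum_eq_single n]
    · rw [if_pos le_rfl, Nat.sub_self, pow_zero, eval_one, one_smul, hB0, _root_.smul_pow]
      simp only [LinearMap.comp_apply, LinearMap.smul_apply, Submodule.subtype_apply, map_smul]
      rw [hΛpow, proj_same S.iP (M.φP _), M.ψφ, smul_smul]
    · intro p _ hp
      by_cases hnp : n ≤ p
      · rw [if_pos hnp, eval_pow, eval_X, zero_pow (by omega), zero_smul, LinearMap.zero_apply]
      · rw [if_neg hnp, eval_zero, zero_smul, LinearMap.zero_apply]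
    · intro h'; exact absurd (Finset.mem_range.2 (by omega)) h'
  have hF0inj : Function.Injective (F 0) := by
    rw [← LinearMap.ker_eq_bot, LinearMap.ker_eq_bot']
    intro y hy
    rw [hF0] at hy
    rcases smul_eq_zero.1 hy with h3 | h3
    · exfalso
      exact mul_ne_zero (pow_ne_zero _ (pow_ne_zero _ hq)) M.δ0 h3
    · apply Subtype.ext
      apply f_pow_inj tU (c := c) _ h3
      rw [wt_apply M.iU n y.2]
      congr 1
      push_cast; ring
  obtain ⟨pF, hpF, hpF'⟩ := hFf.generic_inj hF0inj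
  -- hard Lefschetz
  have hG : ∀ c' : ℕ, ∃ p : K[X], p ≠ 0 ∧ ∀ s, p.eval s ≠ 0 →
      ∀ v ∈ gr (n + r - c'), c' ≤ n + r → (LL S.iP (n + r) h e s ^ c') v = 0 → v = 0 := by
    intro c'
    by_cases hc' : c' ≤ n + r
    · set G : K → gr (n + r - c') →ₗ[K] V := fun s =>
        (LL S.iP (n + r) h e s ^ c') ∘ₗ (gr (n + r - c')).subtype with hG
      have hGf : PFam G := fun x => (S.pvec_LL.pfam.pow c') x
      have hG0 : Function.Injective (G 0) := by
        rw [← LinearMap.ker_eq_bot, LinearMap.ker_eq_bot']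
        intro y hy
        apply Subtype.ext
        rw [hG] at hy
        simp only [LinearMap.comp_apply, Submodule.subtype_apply] at hy
        rw [S.LL_zero] at hy
        apply e_pow_inj t (c := c') _ hy
        rw [wt_apply S.igr (n + r) y.2]
        congr 1
        rw [Nat.cast_sub hc']
        push_cast; ring
      obtain ⟨p, hp, hp'⟩ := hGf.generic_inj hG0
      refine ⟨p, hp, fun s hs v hv _ h0 => ?_⟩
      have h3 := hp' s hs
      rw [← LinearMap.ker_eq_bot, LinearMap.ker_eq_bot'] at h3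
      exact congrArg Subtype.val (h3 ⟨v, hv⟩ h0)
    · exact ⟨1, one_ne_zero, fun s _ v _ h' => absurd h' hc'⟩
  choose pG hpG hpG' using hG
  have hcomp : ∀ p : K[X], p ≠ 0 → p.comp (C 2 * X) ≠ 0 := by
    intro p hp h0
    apply hp
    have h3 : (p.comp (C 2 * X)).comp (C 2⁻¹ * X) = p := by
      rw [comp_assoc, mul_comp, C_comp, X_comp, ← mul_assoc, ← C_mul, mul_inv_cancel₀ h2, C_1,
        one_mul, comp_X]
    rw [← h3, h0, zero_comp]
  have hq0 : q ≠ 0 := by
    intro h0
    apply hq
    rw [h0, eval_zero]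
  obtain ⟨s, hs, hroot⟩ := exists_nonroot
    (pF * q * q.comp (C 2 * X) * (∏ c' ∈ range (n + r + 1), pG c') *
      (∏ c' ∈ range (n + r + 1), (pG c').comp (C 2 * X)))
    (by
      refine mul_ne_zero (mul_ne_zero (mul_ne_zero (mul_ne_zero hpF hq0) (hcomp q hq0)) ?_) ?_
      · exact Finset.prod_ne_zero_iff.2 (fun c' _ => hpG c')
      · exact Finset.prod_ne_zero_iff.2 (fun c' _ => hcomp _ (hpG c')))
  simp only [eval_mul, eval_prod, eval_comp, eval_C, eval_X] at hroot
  have r5 := right_ne_zero_of_mul hroot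
  have r1234 := left_ne_zero_of_mul hroot
  have r4 := right_ne_zero_of_mul r1234
  have r123 := left_ne_zero_of_mul r1234
  have r3 := right_ne_zero_of_mul r123
  have r12 := left_ne_zero_of_mul r123
  have r2 := right_ne_zero_of_mul r12
  have r1 := left_ne_zero_of_mul r12
  have h2s : 2 * s ≠ 0 := mul_ne_zero h2 hs
  refine ⟨s, hs, ?_, ?_, ?_⟩
  · apply S.hardLef_of_inj hdim hs
    intro c' hc' v hv h0
    exact hpG' c' s (Finset.prod_ne_zero_iff.1 r4 c' (Finset.mem_range.2 (by omega))) v hv hc' h0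
  · apply S.hardLef_of_inj hdim h2s
    intro c' hc' v hv h0
    exact hpG' c' (2 * s) (Finset.prod_ne_zero_iff.1 r5 c' (Finset.mem_range.2 (by omega))) v hv
      hc' h0
  · intro f1 f2 tf1 tf2 y hy h0
    have g1 := hqA s _ (S.sl2_conj hs tf1)
    have g2 := hqA (2 * s) _ (S.sl2_conj h2s tf2)
    set D := scal S.iP (fun p => s ^ p) with hD
    set D' := scal S.iP (fun p => (s ^ p)⁻¹) with hD'
    set Ξ := (3 : K)⁻¹ • ((4 : K) • f2 - f1) with hΞ
    have c1 : scal S.iP (fun p => (2 * s) ^ p) * D2' = D := by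
      rw [hD2', scal_mul, hD]
      congr 1
      funext p
      rw [mul_pow]
      have h4 : (2 : K) ^ p ≠ 0 := pow_ne_zero _ h2
      field_simp
    have c2 : D2 * scal S.iP (fun p => ((2 * s) ^ p)⁻¹) = D' := by
      rw [hD2, scal_mul, hD']
      congr 1
      funext p
      rw [mul_pow]
      have h4 : (2 : K) ^ p ≠ 0 := pow_ne_zero _ h2
      have h5 : s ^ p ≠ 0 := pow_ne_zero _ hs
      field_simp
    have hBs : B s = (q.eval s * q.eval (2 * s)) • (D' * Ξ * D) := by
      simp only [hB]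
      rw [← g1, ← g2, mul_smul_comm, smul_mul_assoc]
      have h3 : D2 * (scal S.iP (fun p => ((2 * s) ^ p)⁻¹) * f2 *
          scal S.iP (fun p => (2 * s) ^ p)) * D2' = D' * f2 * D := by
        rw [← c1, ← c2]; noncomm_ring
      rw [h3, hΞ, mul_smul_comm, smul_mul_assoc, mul_sub, sub_mul, mul_smul_comm, smul_mul_assoc]
      module
    have hDD' : D * D' = 1 := S.scal_inv hs
    have hconj : ∀ j : ℕ, (D' * Ξ * D) ^ j = D' * Ξ ^ j * D := by
      intro j
      induction j with
      | zero => rw [pow_zero, pow_zero, mul_one, hD, hD', S.inv_scal hs]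
      | succ j ih =>
        rw [pow_succ, ih, pow_succ]
        calc D' * Ξ ^ j * D * (D' * Ξ * D) = D' * Ξ ^ j * (D * D') * Ξ * D := by noncomm_ring
          _ = _ := by rw [hDD']; noncomm_ring
    set x := (Ξ ^ c) (φ y) with hx
    have hBx : (B s ^ c) (φ y) = ((q.eval s * q.eval (2 * s)) ^ c * s ^ n) • D' x := by
      rw [hBs, _root_.smul_pow, hconj, LinearMap.smul_apply, Module.End.mul_apply, Module.End.mul_apply,
        hD, scal_apply S.iP _ (M.φP y), map_smul, map_smul, smul_smul]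
    have hFs : F s ⟨y, hy⟩ = ((q.eval s * q.eval (2 * s)) ^ c) • ψ ((e ^ r) x) := by
      rw [hF]
      simp only [LinearMap.sum_apply, LinearMap.smul_apply, LinearMap.comp_apply,
        Submodule.subtype_apply, hBx, map_smul]
      conv_rhs => rw [S.sumP x, map_sum, map_sum, Finset.smul_sum]
      apply Finset.sum_congr rfl
      intro p _
      have h3 : proj S.iP p (D' x) = (s ^ p)⁻¹ • proj S.iP p x := by
        rw [← Module.End.mul_apply, hD', proj, scal_mul, ← LinearMap.smul_apply]
        congr 1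
        apply gr_ext S.iP
        intro p' v hv
        rw [scal_apply S.iP _ hv, LinearMap.smul_apply, scal_apply S.iP _ hv]
        by_cases hp : p' = p
        · subst hp; simp
        · simp [hp]
      rw [h3, map_smul, map_smul, smul_smul, smul_smul]
      by_cases hnp : n ≤ p
      · rw [if_pos hnp, eval_pow, eval_X]
        congr 1
        have h4 : s ^ p = s ^ (p - n) * s ^ n := by rw [← pow_add]; congr 1; omega
        rw [h4]
        have h5 : s ^ (p - n) ≠ 0 := pow_ne_zero _ hs
        have h6 : s ^ n ≠ 0 := pow_ne_zero _ hs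
        field_simp
      · rw [psi_low S M (by omega) (proj_mem S.iP p x), smul_zero, smul_zero]
    have h3 := hpF' s r1
    rw [← LinearMap.ker_eq_bot, LinearMap.ker_eq_bot'] at h3
    have h4 := h3 ⟨y, hy⟩ (by rw [hFs, h0, smul_zero])
    exact congrArg Subtype.val h4

end MapSetup

end Pool.Agent.W498.Dom
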