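import Pool.Agent.W498.Dom.Ranks

/-!
# Restriction to a fibre: linear algebra
-/

open Finset Polynomial

set_option linter.unusedSectionVars false

namespace Pool.Agent.W498.Dom

open Pool.Agent.H914 Pool.Agent.H447

variable {K : Type*} [Field K] [CharZero K] {V : Type*} [AddCommGroup V] [Module K V]

/-- A lowering operator has degree `-2`. -/
lemma isHom_of_sl2 {gr : ℕ → Submodule K V} (h : DirectSum.IsInternal gr) {N : ℕ}
    (hN : ∀ i, N ≤ i → gr i = ⊥) {n : ℕ} {L f : Module.End K V} (t : Sl2 (wt h n) L f) :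
    IsHom gr (-2) f := by
  intro i a ha
  by_cases hi : 0 ≤ i
  · lift i to ℕ using hi
    rw [grZ_natCast] at ha
    apply mem_of_wt h hN (n := n)
    have h1 := congrArg (fun F => F a) t.hf
    simp only [LinearMap.sub_apply, Module.End.mul_apply, two_mul, LinearMap.add_apply,
      LinearMap.neg_apply] at h1
    rw [sub_eq_iff_eq_add, wt_apply h n ha, map_smul] at h1
    rw [h1]
    have h2 : -(f a + f a) = (-2 : K) • f a := by
      rw [neg_smul, two_smul]
    rw [h2, ← add_smul]
    congr 1
    push_cast; ring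
  · rw [grZ_of_neg (by omega)] at ha
    rw [(Submodule.mem_bot _).1 ha, map_zero]
    exact Submodule.zero_mem _

/-- Intertwining operators of representations of `sl(2)`. -/
lemma sl2_intertwine [Module.Finite K V] {U : Type*} [AddCommGroup U] [Module K U]
    [Module.Finite K U] {HV eV fV : Module.End K V} {HU eU fU : Module.End K U}
    (tV : Sl2 HV eV fV) (tU : Sl2 HU eU fU) {T : V →ₗ[K] U} (hH : ∀ v, T (HV v) = HU (T v))
    (he : ∀ v, T (eV v) = eU (T v)) (v : V) : T (fV v) = fU (T v) := by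
  have tt : Sl2 (LinearMap.prodMap HV HU) (LinearMap.prodMap eV eU) (LinearMap.prodMap fV fU) := by
    constructor
    · apply LinearMap.ext
      rintro ⟨v, u⟩
      have h1 := congrArg (fun F => F v) tV.ef
      have h2 := congrArg (fun F => F u) tU.ef
      simp only [LinearMap.sub_apply, Module.End.mul_apply] at h1 h2
      simp [h1, h2]
    · apply LinearMap.ext
      rintro ⟨v, u⟩
      have h1 := congrArg (fun F => F v) tV.he
      have h2 := congrArg (fun F => F u) tU.he
      simp only [LinearMap.sub_apply, Module.End.mul_apply, two_mul, LinearMap.add_apply] at h1 h2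
      simp [h1, h2, two_mul]
    · apply LinearMap.ext
      rintro ⟨v, u⟩
      have h1 := congrArg (fun F => F v) tV.hf
      have h2 := congrArg (fun F => F u) tU.hf
      simp only [LinearMap.sub_apply, Module.End.mul_apply, two_mul, LinearMap.add_apply,
        LinearMap.neg_apply] at h1 h2
      simp [h1, h2, two_mul]
  set T' : Module.End K (V × U) := LinearMap.inr K V U ∘ₗ T ∘ₗ LinearMap.fst K V U with hT
  have hTa : ∀ v u, T' (v, u) = (0, T v) := fun v u => rfl
  have hc := comm_f tt (T := T')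
    (by
      apply LinearMap.ext
      rintro ⟨v, u⟩
      rw [Module.End.mul_apply, Module.End.mul_apply, hTa]
      simp [hTa, hH])
    (by
      apply LinearMap.ext
      rintro ⟨v, u⟩
      rw [Module.End.mul_apply, Module.End.mul_apply, hTa]
      simp [hTa, he])
  have h1 := congrArg (fun F => F (v, (0 : U))) hc
  simp only [Module.End.mul_apply] at h1
  rw [hTa] at h1
  simp only [LinearMap.prodMap_apply, map_zero] at h1
  rw [hTa] at h1
  exact congrArg Prod.snd h1

/-- The restriction `ι` to a fibre of dimension `m` over a base of dimension `s`, and the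
push-forward `γ`. -/
structure FibSetup {U : Type*} [AddCommGroup U] [Module K U] (gr P : ℕ → Submodule K V)
    (s : ℕ) (h : Module.End K V) (ι : V →ₗ[K] U) (γ : U →ₗ[K] V) (κ : K) : Prop where
  κ0 : κ ≠ 0
  ι0 : ∀ p j, j + s ≠ p → ∀ v ∈ P p, v ∈ gr j → ι v = 0
  γι : ∀ v, γ (ι v) = κ • (h ^ s) v

namespace FibSetup

variable {U : Type*} [AddCommGroup U] [Module K U] {gr P : ℕ → Submodule K V}
    {m s : ℕ} {h e : Module.End K V} {ι : V →ₗ[K] U} {γ : U →ₗ[K] V} {κ : K}
    (S : Setup gr P (m + s) h e) (M : FibSetup gr P s h ι γ κ)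

include S M

lemma iota_proj {j : ℕ} {v : V} (hv : v ∈ gr j) : ι v = ι (proj S.iP (j + s) v) := by
  conv_lhs => rw [S.sumP v, map_sum]
  by_cases hj : j + s < 2 * (m + s) + 1
  · rw [Finset.sum_eq_single (j + s)]
    · intro p _ hp
      exact M.ι0 p j (Ne.symm hp) _ (proj_mem S.iP p v) (S.projP_gr hv p)
    · intro h'; exact absurd (Finset.mem_range.2 hj) h'
  · have h1 := proj_mem S.iP (j + s) v
    rw [S.bP _ (by omega)] at h1
    rw [(Submodule.mem_bot _).1 h1, map_zero]
    apply Finset.sum_eq_zero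
    intro p hp
    exact M.ι0 p j (by have := Finset.mem_range.1 hp; omega) _ (proj_mem S.iP p v)
      (S.projP_gr hv p)

/-- `ι` vanishes on the vectors of weight different from `-s`. -/
lemma iota_weight {c : ℤ} (hc : c ≠ -(s : ℤ)) {v : V}
    (hv : Ha S.igr S.iP (m + s) v = (c : K) • v) : ι v = 0 := by
  rw [S.sumP v, map_sum]
  apply Finset.sum_eq_zero
  intro p _
  have h1 := S.comp_mem hv p
  by_cases hneg : c + p < 0
  · rw [grZ_of_neg hneg] at h1
    rw [(Submodule.mem_bot _).1 h1, map_zero]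
  · obtain ⟨j, hj⟩ := Int.eq_ofNat_of_zero_le (not_lt.1 hneg)
    rw [hj, grZ_natCast] at h1
    exact M.ι0 p j (by omega) _ (proj_mem S.iP p v) h1

/-- **The limit argument for a fibre.** -/
theorem core_fib [Module.Finite K V] [Module.Finite K U]
    (hdim : ∀ c ≤ m + s, Module.finrank K (gr (m + s - c)) = Module.finrank K (gr (m + s + c)))
    (j c : ℕ) (hjc : c = 0 ∨ j = m + c) :
    ∃ σ : K, σ ≠ 0 ∧ HardLef gr (m + s) (h + σ ^ 2 • e) ∧
      ∀ F, Sl2 (wt S.igr (m + s)) (h + σ ^ 2 • e) F →
        ∀ x ∈ gr j, ι ((F ^ (s + c)) (γ (ι x))) = 0 → ι x = 0 := by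
  obtain ⟨Λ, Λ', t1, t2, hΛ', t⟩ := S.exists_sl2_both
  obtain ⟨q, A, hq, hA, hqA⟩ := S.exists_family
  have hA0 : A 0 = q.eval 0 • (Λ + Λ') := (hqA 0 (Λ + Λ') (by rw [S.LL_zero]; exact t)).symm
  have hcomm : Commute Λ Λ' := by
    have hwh : wt S.iP (m + s) * h = h * wt S.iP (m + s) := by
      have := S.isHomP_h.wt_comm S.iP (m + s)
      rw [this]; simp
    have hwHa : wt S.iP (m + s) * Ha S.igr S.iP (m + s) =
        Ha S.igr S.iP (m + s) * wt S.iP (m + s) := by
      rw [Ha, mul_sub, sub_mul, S.wt_wt]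
    have c3 : wt S.iP (m + s) * Λ = Λ * wt S.iP (m + s) := comm_f t1 hwHa hwh
    have c2 : top S.iP (m + s) e * Λ = Λ * top S.iP (m + s) e :=
      comm_f t1 S.Ha_top.symm S.h_top.symm
    exact comm_f t2 c3.symm c2.symm
  have hcH : Commute (Ha S.igr S.iP (m + s)) Λ' := by
    have hwHa : wt S.iP (m + s) * Ha S.igr S.iP (m + s) =
        Ha S.igr S.iP (m + s) * wt S.iP (m + s) := by
      rw [Ha, mul_sub, sub_mul, S.wt_wt]
    exact comm_f t2 hwHa.symm S.Ha_top
  -- the space of restrictions
  set B : Submodule K U := (gr j).map ι with hB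
  set F : K → B →ₗ[K] U := fun σ => ι ∘ₗ (A σ ^ (s + c)) ∘ₗ γ ∘ₗ B.subtype with hF
  have hFf : PFam F := by
    intro x
    have h3 := (hA.pfam.pow (s + c)) (γ x)
    exact h3.map ι
  have hlow : ∀ x ∈ gr j, γ (ι x) = κ • (h ^ s) (proj S.iP (j + s) x) := by
    intro x hx
    rw [M.iota_proj S hx, M.γι]
  have hweight : ∀ (i : ℕ) (v : V) (w : ℤ), Ha S.igr S.iP (m + s) v = (w : K) • v →
      Ha S.igr S.iP (m + s) ((Λ ^ i) v) = ((w - 2 * i : ℤ) : K) • (Λ ^ i) v := by
    intro i
    induction i with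
    | zero => intro v w hv; simpa using hv
    | succ i ih =>
      intro v w hv
      have h1 := congrArg (fun G => G ((Λ ^ i) v)) t1.hf
      simp only [LinearMap.sub_apply, Module.End.mul_apply, two_mul, LinearMap.add_apply,
        LinearMap.neg_apply] at h1
      rw [sub_eq_iff_eq_add, ih v w hv, map_smul] at h1
      rw [pow_succ', Module.End.mul_apply, h1, ← two_smul K (Λ ((Λ ^ i) v)), ← neg_smul,
        ← add_smul]
      congr 1
      push_cast; ring
  have hweight' : ∀ (i : ℕ) (v : V) (w : K), Ha S.igr S.iP (m + s) v = w • v →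
      Ha S.igr S.iP (m + s) ((Λ' ^ i) v) = w • (Λ' ^ i) v := by
    intro i v w hv
    have h1 := (hcH.pow_right i).eq
    rw [← Module.End.mul_apply, h1, Module.End.mul_apply, hv, map_smul]
  have hF0inj : Function.Injective (F 0) := by
    rw [← LinearMap.ker_eq_bot, LinearMap.ker_eq_bot']
    rintro ⟨_, x, hx, rfl⟩ h0
    apply Subtype.ext
    change ι x = 0
    set x0 := proj S.iP (j + s) x with hx0
    have hx0P : x0 ∈ P (j + s) := proj_mem S.iP _ _
    have hx0g : x0 ∈ gr j := S.projP_gr hx _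
    have hx0w : Ha S.igr S.iP (m + s) x0 = -((s : ℕ) : K) • x0 := by
      rw [S.Ha_apply hx0P hx0g]
      congr 1
      push_cast; ring
    set u := (h ^ s) x0 with hu
    have huP : u ∈ P (j + s) := by
      rw [hu, hx0, S.pow_h_projP]
      exact proj_mem S.iP _ _
    have hug : u ∈ gr (j + 2 * s) := pow_L_mem S.hgr hx0g s
    have huw : Ha S.igr S.iP (m + s) u = (s : K) • u := by
      rw [S.Ha_apply huP hug]
      congr 1
      push_cast; ring
    have h1 : F 0 ⟨ι x, x, hx, rfl⟩ = (q.eval 0 ^ (s + c) * κ) • ι (((Λ + Λ') ^ (s + c)) u) := by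
      rw [hF]
      simp only [LinearMap.comp_apply, Submodule.subtype_apply, hA0, _root_.smul_pow,
        LinearMap.smul_apply, map_smul]
      rw [hlow x hx, map_smul, map_smul, smul_smul]
    rw [h1] at h0
    have h2 : ι (((Λ + Λ') ^ (s + c)) u) = 0 := by
      rcases smul_eq_zero.1 h0 with h3 | h3
      · exact absurd h3 (mul_ne_zero (pow_ne_zero _ hq) M.κ0)
      · exact h3
    -- the only surviving term
    have h3 : ι (((Λ + Λ') ^ (s + c)) u) =
        ((s + c).choose s : K) • ι ((Λ ^ s) ((Λ' ^ c) u)) := by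
      rw [hcomm.add_pow, LinearMap.sum_apply, map_sum, Finset.sum_eq_single s]
      · rw [Nat.add_sub_cancel_left, ← nsmul_eq_mul', LinearMap.smul_apply,
          Module.End.mul_apply, map_nsmul, Nat.cast_smul_eq_nsmul]
      · intro a _ ha
        rw [← nsmul_eq_mul', LinearMap.smul_apply, Module.End.mul_apply, map_nsmul]
        have h4 : ι ((Λ ^ a) ((Λ' ^ (s + c - a)) u)) = 0 := by
          apply M.iota_weight S (c := (s : ℤ) - 2 * a) (by omega)
          apply hweight
          rw [Int.cast_natCast]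
          exact hweight' _ _ _ huw
        rw [h4, smul_zero]
      · intro h'
        exact absurd (Finset.mem_range.2 (by omega)) h'
    rw [h3] at h2
    have h4 : ι ((Λ ^ s) ((Λ' ^ c) u)) = 0 := by
      rcases smul_eq_zero.1 h2 with h5 | h5
      · exfalso
        have h6 : (s + c).choose s ≠ 0 := (Nat.choose_pos (by omega)).ne'
        exact h6 (by exact_mod_cast h5)
      · exact h5
    set v := (Λ ^ s) ((Λ' ^ c) u) with hv
    have hvw : Ha S.igr S.iP (m + s) v = -((s : ℕ) : K) • v := by
      have h5 := hweight s ((Λ' ^ c) u) s (by rw [Int.cast_natCast]; exact hweight' _ _ _ huw)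
      rw [hv, h5]
      congr 1
      push_cast; ring
    have h5 : (h ^ s) v = 0 := by
      have h6 := M.γι v
      rw [h4, map_zero] at h6
      rcases smul_eq_zero.1 h6.symm with h7 | h7
      · exact absurd h7 M.κ0
      · exact h7
    have h6 : v = 0 := e_pow_inj t1 hvw h5
    have h7 : (Λ' ^ c) u = 0 := f_pow_inj t1 (c := s) (hweight' _ _ _ huw) h6
    have h8 : u = 0 := by
      rcases hjc with rfl | rfl
      · simpa using h7
      · apply f_pow_inj t2 (c := c) _ h7
        rw [wt_apply S.iP _ huP]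
        congr 1
        push_cast; ring
    have h9 : x0 = 0 := e_pow_inj t1 hx0w h8
    rw [M.iota_proj S hx, ← hx0, h9, map_zero]
  obtain ⟨pF, hpF, hpF'⟩ := hFf.generic_inj hF0inj
  -- hard Lefschetz
  have hG : ∀ c' : ℕ, ∃ p : K[X], p ≠ 0 ∧ ∀ σ, p.eval σ ≠ 0 →
      ∀ v ∈ gr (m + s - c'), c' ≤ m + s → (LL S.iP (m + s) h e σ ^ c') v = 0 → v = 0 := by
    intro c'
    by_cases hc' : c' ≤ m + s
    · set G : K → gr (m + s - c') →ₗ[K] V := fun σ =>
        (LL S.iP (m + s) h e σ ^ c') ∘ₗ (gr (m + s - c')).subtype with hG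
      have hGf : PFam G := fun x => (S.pvec_LL.pfam.pow c') x
      have hG0 : Function.Injective (G 0) := by
        rw [← LinearMap.ker_eq_bot, LinearMap.ker_eq_bot']
        intro y hy
        apply Subtype.ext
        rw [hG] at hy
        simp only [LinearMap.comp_apply, Submodule.subtype_apply] at hy
        rw [S.LL_zero] at hy
        apply e_pow_inj t (c := c') _ hy
        rw [wt_apply S.igr (m + s) y.2]
        congr 1
        rw [Nat.cast_sub hc']
        push_cast; ring
      obtain ⟨p, hp, hp'⟩ := hGf.generic_inj hG0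
      refine ⟨p, hp, fun σ hσ v hv _ h0 => ?_⟩
      have h3 := hp' σ hσ
      rw [← LinearMap.ker_eq_bot, LinearMap.ker_eq_bot'] at h3
      exact congrArg Subtype.val (h3 ⟨v, hv⟩ h0)
    · exact ⟨1, one_ne_zero, fun σ _ v _ h' => absurd h' hc'⟩
  choose pG hpG hpG' using hG
  have hq0 : q ≠ 0 := by
    intro h0
    apply hq
    rw [h0, eval_zero]
  obtain ⟨σ, hσ, hroot⟩ := exists_nonroot (pF * q * ∏ c' ∈ range (m + s + 1), pG c')
    (mul_ne_zero (mul_ne_zero hpF hq0) (Finset.prod_ne_zero_iff.2 (fun c' _ => hpG c')))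
  simp only [eval_mul, eval_prod] at hroot
  have r3 := right_ne_zero_of_mul hroot
  have r12 := left_ne_zero_of_mul hroot
  have r2 := right_ne_zero_of_mul r12
  have r1 := left_ne_zero_of_mul r12
  refine ⟨σ, hσ, ?_, ?_⟩
  · apply S.hardLef_of_inj hdim hσ
    intro c' hc' v hv h0
    exact hpG' c' σ (Finset.prod_ne_zero_iff.1 r3 c' (Finset.mem_range.2 (by omega))) v hv hc' h0
  · intro G tG x hx h0
    have g1 := hqA σ _ (S.sl2_conj hσ tG)
    set D := scal S.iP (fun p => σ ^ p) with hD
    set D' := scal S.iP (fun p => (σ ^ p)⁻¹) with hD'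
    have hDD' : D * D' = 1 := S.scal_inv hσ
    have hconj : ∀ i : ℕ, (D' * G * D) ^ i = D' * G ^ i * D := by
      intro i
      induction i with
      | zero => rw [pow_zero, pow_zero, mul_one, hD, hD', S.inv_scal hσ]
      | succ i ih =>
        rw [pow_succ, ih, pow_succ]
        calc D' * G ^ i * D * (D' * G * D) = D' * G ^ i * (D * D') * G * D := by noncomm_ring
          _ = _ := by rw [hDD']; noncomm_ring
    have hxP : γ (ι x) ∈ P (j + s) := by
      rw [hlow x hx, S.pow_h_projP]
      exact Submodule.smul_mem _ _ (proj_mem S.iP _ _)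
    have hxg : γ (ι x) ∈ gr (j + 2 * s) := by
      rw [hlow x hx]
      exact Submodule.smul_mem _ _ (pow_L_mem S.hgr (S.projP_gr hx _) s)
    set z := (G ^ (s + c)) (γ (ι x)) with hz
    have hGh : IsHom gr (-2) G := isHom_of_sl2 S.igr S.bgr tG
    have hzg : z ∈ grZ gr ((j : ℤ) - 2 * c) := by
      have h1 := (hGh.pow (s + c)) ((j + 2 * s : ℕ) : ℤ) _ (by rw [grZ_natCast]; exact hxg)
      have h2 : ((j + 2 * s : ℕ) : ℤ) + ((s + c : ℕ) : ℤ) * -2 = (j : ℤ) - 2 * c := by
        push_cast; ring
      rwa [h2] at h1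
    have hFx : F σ ⟨ι x, x, hx, rfl⟩ = (q.eval σ ^ (s + c) * σ ^ (j + s)) • ι (D' z) := by
      rw [hF]
      simp only [LinearMap.comp_apply, Submodule.subtype_apply]
      rw [← g1, _root_.smul_pow, hconj, LinearMap.smul_apply, Module.End.mul_apply,
        Module.End.mul_apply, hD, scal_apply S.iP _ hxP, map_smul, map_smul, map_smul, map_smul,
        smul_smul]
    have hιz : ι (D' z) = 0 := by
      by_cases hneg : (j : ℤ) - 2 * c < 0
      · rw [grZ_of_neg hneg] at hzg
        rw [(Submodule.mem_bot _).1 hzg, map_zero, map_zero]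
      · obtain ⟨i, hi⟩ := Int.eq_ofNat_of_zero_le (not_lt.1 hneg)
        rw [hi, grZ_natCast] at hzg
        have h1 : D' z ∈ gr i := S.scal_gr _ hzg
        have h2 : proj S.iP (i + s) (D' z) = (σ ^ (i + s))⁻¹ • proj S.iP (i + s) z := by
          rw [← Module.End.mul_apply, hD', proj, scal_mul, ← LinearMap.smul_apply]
          congr 1
          apply gr_ext S.iP
          intro p' v hv
          rw [scal_apply S.iP _ hv, LinearMap.smul_apply, scal_apply S.iP _ hv]
          by_cases hp : p' = i + s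
          · subst hp; simp
          · simp [hp]
        rw [M.iota_proj S h1, h2, map_smul, ← M.iota_proj S hzg, h0, smul_zero]
    have h3 := hpF' σ r1
    rw [← LinearMap.ker_eq_bot, LinearMap.ker_eq_bot'] at h3
    have h4 := h3 ⟨ι x, x, hx, rfl⟩ (by rw [hFx, hιz, smul_zero])
    exact congrArg Subtype.val h4

end FibSetup

end Pool.Agent.W498.Dom
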