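import Pool.Agent.W498.Dom.Defs
import Pool.Agent.H914R2.HodgeDefs

/-!
# Smooth fibres: definitions
-/

open CategoryTheory AlgebraicGeometry

universe u v

namespace Pool.Agent.W498.Dom

open Pool.Agent.H914 VarClass Obj WeilCohomology

section Alg

variable {K A B : Type*} [Field K] [Ring A] [Algebra K A] [Ring B] [Algebra K B]

/-- The restriction `r` from the cohomology `A` of `Y` to the cohomology `B` of a fibre of a
morphism from `Y` to a variety of dimension `s`, with the dual push-forward `γ`: the class `γ 1` of
the fibre is a nonzero multiple of the power `s` of the class `h`, and the part of degree `j` of the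
piece `p` restricts to zero if `j - p` is not `-s`. -/
structure IsFibreRestriction (gr piece : ℕ → Submodule K A) (s : ℕ) (h : A) (r : A →ₐ[K] B)
    (γ : B →ₗ[K] A) : Prop where
  /-- the class of the fibre -/
  push_one : ∃ c : ℚ, c ≠ 0 ∧ γ 1 = (c : K) • h ^ s
  /-- the restriction to the fibre factors through the lowest degree -/
  map_eq_zero : ∀ p j, j + s ≠ p → ∀ x ∈ piece p ⊓ gr j, r x = 0

end Alg

variable {k : Type u} [Field k] {𝒱 : VarClass k} {ops : CycleOps 𝒱}

/-- The consequences in cohomology of the fact that `i : P ⟶ Y` is the inclusion of the fibre of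
the morphism `f : Y ⟶ S` over a point over which `f` is smooth, for a perverse decomposition `Q` of
the cohomology of `Y`: the class of the fibre `P` is a nonzero multiple of the class of
`f^* D ^ dim S` (in the `ℓ`-adic theory `D` is ample on `S`, so `D ^ dim S` is a multiple of the
class of a point), and the restriction to `P` maps `H^(j - p)(S, R_p)`, the part of degree `j` of
the piece `p`, to zero for `j - p ≠ - dim S` (near the point the perverse sheaf `R_p` is a local
system in degree `- dim S`). -/
structure IsSmoothFibre {W : WeilCohomology.{u, v} ops} {P Y S : 𝒱.Obj} {f : Y ⟶ S}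
    {D : S.Cycles} {E : Y.Cycles} (Q : PerverseDecomposition W f D E) (i : P ⟶ Y) : Prop where
  /-- the dimension of the fibre -/
  dim_eq : Y.dim = P.dim + S.dim
  /-- the restriction to the fibre -/
  restriction : IsFibreRestriction (W.gr Y) Q.piece S.dim (W.map f (W.cl S D)) (W.map i) (W.push i)

/-- Via `i`, the variety `P` is a fibre of the morphism `f : Y ⟶ S` over a point over which `f` is
smooth, and the decomposition theorem and the relative hard Lefschetz theorem hold for `f`, for
some divisors `D` on `S` and `E` on `Y`. -/
def HasSmoothFibre (W : WeilCohomology.{u, v} ops) {P Y S : 𝒱.Obj} (f : Y ⟶ S) (i : P ⟶ Y) :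
    Prop :=
  ∃ (D : S.Cycles) (E : Y.Cycles) (Q : PerverseDecomposition W f D E),
    S.IsCyc 1 D ∧ Y.IsCyc 1 E ∧ IsSmoothFibre Q i

/-- The class `a` on `P` is the restriction of the class of a cycle of codimension `q` on `Y`. -/
def Extends (W : WeilCohomology.{u, v} ops) {P Y : 𝒱.Obj} (i : P ⟶ Y) (q : ℕ) (a : W.H P) :
    Prop :=
  ∃ z, Y.IsCyc q z ∧ W.map i (W.cl Y z) = a

/-- The class of the diagonal. -/
noncomputable def diagClass (W : WeilCohomology.{u, v} ops) (X : 𝒱.Obj) : W.H (X.prod X) :=
  W.push (diag X) 1

/-- The square `X × X` is, via `i`, a fibre of the morphism `f : Y ⟶ S` over a point over which `f`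
is smooth, the decomposition theorem and the relative hard Lefschetz theorem hold for `f`, and the
class `L ⊗ 1 + 1 ⊗ L` and the class of the diagonal on `X × X` are restrictions of classes of cycles
on `Y`. -/
def IsSquareFibre (W : WeilCohomology.{u, v} ops) {X Y S : 𝒱.Obj} (f : Y ⟶ S)
    (i : X.prod X ⟶ Y) (L : X.Cycles) : Prop :=
  HasSmoothFibre W f i ∧ Extends W i 1 (W.cl (X.prod X) (boxSum ops L)) ∧
    Extends W i X.dim (diagClass W X)

/-- The morphism `g : X' ⟶ X` is dominant, and the decomposition theorem and the relative hard
Lefschetz theorem hold for `g`, the divisor `L` on `X` and some divisor on `X'`. -/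
def IsDominantFor (W : WeilCohomology.{u, v} ops) {X' X : 𝒱.Obj} (g : X' ⟶ X)
    (L : X.Cycles) : Prop :=
  IsDominant ops g ∧ ∃ (G : X'.Cycles) (_ : PerverseDecomposition W g L G), X'.IsCyc 1 G

end Pool.Agent.W498.Dom
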