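import Pool.Agent.W498.Dom.FibAlg
import Pool.Agent.W498.Dom.FibDefs

/-!
# The conjecture A on a family and the conjecture B on a fibre
-/

open CategoryTheory AlgebraicGeometry Finset

set_option linter.unusedSectionVars false

universe u v

namespace Pool.Agent.W498.Dom

open Pool.Agent.H914 Pool.Agent.H447 VarClass Obj WeilCohomology Pool.Agent.W534

variable {k : Type u} [Field k] {𝒱 : VarClass k} {ops : CycleOps 𝒱}
  {W : WeilCohomology.{u, v} ops} {P Y S X : 𝒱.Obj} {f : Y ⟶ S} {D : S.Cycles} {E : Y.Cycles}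
  {i : P ⟶ Y}

/-- The classes on `P` which are restrictions of `K`-combinations of algebraic classes on `Y`. -/
def restrGr (W : WeilCohomology.{u, v} ops) {P Y : 𝒱.Obj} (i : P ⟶ Y) (j : ℕ) :
    Submodule W.K (W.H P) := (algGr W Y j).map (W.map i).toLinearMap

lemma restrGr_le_alg (j : ℕ) : restrGr W i j ≤ algGr W P j := by
  rintro _ ⟨x, hx, rfl⟩
  exact algGr_map hx

lemma restrGr_le (j : ℕ) : restrGr W i j ≤ W.gr P j := (restrGr_le_alg j).trans (algGr_le j)

section

variable {Q : PerverseDecomposition W f D E}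

/-- The linear algebra of the restriction to a smooth fibre. -/
lemma exists_fibSetup (hi : IsSmoothFibre Q i) : ∃ κ : W.K,
    FibSetup (W.gr Y) Q.piece S.dim (hop W f D) (W.map i).toLinearMap (W.push i) κ := by
  obtain ⟨c, hc, hc1⟩ := hi.restriction.push_one
  refine ⟨c, ⟨by exact_mod_cast hc,
    fun p j hpj v hv hv' => hi.restriction.map_eq_zero p j hpj v ⟨hv, hv'⟩, fun v => ?_⟩⟩
  have h1 := W.push_mul i 1 v
  rw [one_mul, hc1] at h1
  change W.push i (W.map i v) = _
  rw [h1, hop_pow, map_pow, smul_mul_assoc]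

/-- Lowering operators of pencils preserve the algebraic classes. -/
lemma pencil_lower (hD : S.IsCyc 1 D) (hE : Y.IsCyc 1 E)
    (hY : ∀ j c, 2 * j + c = Y.dim → cycleRank W Y j = cycleRank W Y (j + c)) (a : W.K)
    (hl : HardLef (W.gr Y) Y.dim (hop W f D + a • eop W Y E)) :
    ∃ F, Sl2 (wt (W.isInternal Y) Y.dim) (hop W f D + a • eop W Y E) F ∧
      IsHom (algGr W Y) (-2) F := by
  have hT := span_pencil (W := W) (f := f) hD hE a
  apply exists_stable_lower (W.isInternal Y) W_hbd _ hl algGr_le (isHom_algGr hT)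
  · intro c' hc' b hb
    rcases Nat.even_or_odd' (Y.dim - c') with ⟨p, hp | hp⟩
    · have h2 : Y.dim + c' = 2 * (p + c') := by omega
      rw [h2, algGr_even] at hb
      rw [hp, algGr_even]
      exact surj_of_rank hT hl (j := p) (c := c') (by omega) (hY p c' (by omega)) b
        (by rwa [Nat.cast_add] at hb)
    · rw [algGr_odd (i := Y.dim + c') ⟨p + c', by omega⟩] at hb
      refine ⟨0, Submodule.zero_mem _, ?_⟩
      rw [(Submodule.mem_bot _).1 hb, map_zero]
  · exact (isHom_hop hD).add ((isHom_mulLeft W hE).smul _)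

/-- An algebraic operator from the classes of a fibre to the classes of the family. -/
theorem exists_inj_restr (hD : S.IsCyc 1 D) (hE : Y.IsCyc 1 E) (hi : IsSmoothFibre Q i)
    (hY : ∀ j c, 2 * j + c = Y.dim → cycleRank W Y j = cycleRank W Y (j + c))
    (j c : ℕ) (hcj : 2 * c ≤ j) (hjc : c = 0 ∨ j = P.dim + c) :
    ∃ T : W.H P →ₗ[W.K] W.H P, (∀ a ∈ algGr W P j, T a ∈ restrGr W i (j - 2 * c)) ∧
      ∀ x ∈ W.gr Y j, T (W.map i x) = 0 → W.map i x = 0 := by
  obtain ⟨κ, M⟩ := exists_fibSetup hi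
  have hr := hi.dim_eq
  have S' := setup Q hD hE hr
  have hdim : ∀ c ≤ P.dim + S.dim, Module.finrank W.K (W.gr Y (P.dim + S.dim - c)) =
      Module.finrank W.K (W.gr Y (P.dim + S.dim + c)) := by
    intro c hc
    have := betti_symm (X := Y) W (i := P.dim + S.dim - c) (by omega)
    rw [show 2 * Y.dim - (P.dim + S.dim - c) = P.dim + S.dim + c by omega] at this
    exact this.symm
  obtain ⟨σ, hσ, hl, hcore⟩ := M.core_fib S' hdim j c hjc
  obtain ⟨F, t, hF⟩ := pencil_lower (f := f) hD hE hY (σ ^ 2) (by rw [hr]; exact hl)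
  refine ⟨(W.map i).toLinearMap ∘ₗ (F ^ (S.dim + c)) ∘ₗ W.push i, ?_, ?_⟩
  · intro a ha
    have h2 : W.push i a ∈ algGr W Y (j + 2 * S.dim) := algGr_push (by omega) ha
    rw [← grZ_natCast (gr := algGr W Y)] at h2
    have h3 := (hF.pow (S.dim + c)) _ _ h2
    rw [show ((j + 2 * S.dim : ℕ) : ℤ) + ((S.dim + c : ℕ) : ℤ) * -2 = ((j - 2 * c : ℕ) : ℤ) by
      omega, grZ_natCast] at h3
    exact ⟨_, h3, rfl⟩
  · intro x hx h0
    have hw : ∀ m (hm : Y.dim = m), wt (W.isInternal Y) Y.dim = wt (setup Q hD hE hm).igr m := by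
      intro m hm; subst hm; rfl
    apply hcore F _ x hx h0
    rw [← hw _ hr]; exact t

/-- **The restricted algebraic classes on a smooth fibre satisfy hard Lefschetz.** -/
theorem restr_lower (hD : S.IsCyc 1 D) (hE : Y.IsCyc 1 E) (hi : IsSmoothFibre Q i)
    (hY : ∀ j c, 2 * j + c = Y.dim → cycleRank W Y j = cycleRank W Y (j + c))
    {M : Y.Cycles} (hM : Y.IsCyc 1 M) {L : P.Cycles} (hL : P.IsCyc 1 L)
    (hML : W.map i (W.cl Y M) = W.cl P L) (hHL : HardLefschetz W P L) :
    ∃ F, Sl2 (wt (W.isInternal P) P.dim) (LinearMap.mulLeft W.K (W.cl P L)) F ∧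
      IsHom (restrGr W i) (-2) F := by
  have hLS : IsHom (restrGr W i) 2 (LinearMap.mulLeft W.K (W.cl P L)) := by
    intro j a ha
    by_cases hj : 0 ≤ j
    · lift j to ℕ using hj
      rw [grZ_natCast] at ha
      obtain ⟨x, hx, rfl⟩ := ha
      rw [show (j : ℤ) + 2 = ((j + 2 : ℕ) : ℤ) by push_cast; ring, grZ_natCast]
      have h1 := (isHom_algGr (W := W) (T := LinearMap.mulLeft W.K (W.cl Y M))
        (fun q a ha => span_mul hM ha)) j x (by rw [grZ_natCast]; exact hx)
      rw [show (j : ℤ) + 2 = ((j + 2 : ℕ) : ℤ) by push_cast; ring, grZ_natCast] at h1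
      refine ⟨_, h1, ?_⟩
      simp [hML]
    · rw [grZ_of_neg (by omega)] at ha
      rw [(Submodule.mem_bot _).1 ha, map_zero]
      exact Submodule.zero_mem _
  have hmem : ∀ (j c : ℕ), ∀ x ∈ restrGr W i j,
      (LinearMap.mulLeft W.K (W.cl P L) ^ c) x ∈ restrGr W i (j + 2 * c) :=
    fun j c x hx => pow_L_mem hLS hx c
  apply exists_stable_lower (W.isInternal P) W_hbd (isHom_mulLeft W hL) hHL restrGr_le hLS
  intro c hc
  have hinj : ∀ x ∈ restrGr W i (P.dim - c), (LinearMap.mulLeft W.K (W.cl P L) ^ c) x = 0 →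
      x = 0 := by
    intro x hx h0
    apply (hHL (P.dim - c) (by omega)).1 x (restrGr_le _ hx)
    rw [show P.dim - (P.dim - c) = c by omega]
    exact h0
  have hT : ∀ x ∈ restrGr W i (P.dim - c), (LinearMap.mulLeft W.K (W.cl P L) ^ c) x ∈
      restrGr W i (P.dim + c) := by
    intro x hx
    have := hmem _ c x hx
    rwa [show P.dim - c + 2 * c = P.dim + c by omega] at this
  apply surj_of_finrank_eq hT hinj
  apply le_antisymm
  · exact finrank_le_of_inj hT hinj
  · obtain ⟨T, hT1, hT2⟩ := exists_inj_restr hD hE hi hY (P.dim + c) c (by omega) (Or.inr rfl)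
    apply finrank_le_of_inj (T := T)
    · intro x hx
      have := hT1 x (restrGr_le_alg _ hx)
      rwa [show P.dim + c - 2 * c = P.dim - c by omega] at this
    · rintro _ ⟨x, hx, rfl⟩ h0
      exact hT2 x (algGr_le _ hx) h0

/-- **Algebraic classes on a smooth fibre which are restrictions of classes on the family are
restrictions of algebraic classes.** -/
theorem restr_eq (hD : S.IsCyc 1 D) (hE : Y.IsCyc 1 E) (hi : IsSmoothFibre Q i)
    (hY : ∀ j c, 2 * j + c = Y.dim → cycleRank W Y j = cycleRank W Y (j + c)) (j : ℕ) :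
    algGr W P j ⊓ (W.gr Y j).map (W.map i).toLinearMap = restrGr W i j := by
  apply le_antisymm
  · obtain ⟨T, hT1, hT2⟩ := exists_inj_restr hD hE hi hY j 0 (by omega) (Or.inl rfl)
    have hle : restrGr W i j ≤ algGr W P j ⊓ (W.gr Y j).map (W.map i).toLinearMap :=
      le_inf (restrGr_le_alg j) (Submodule.map_mono (algGr_le j))
    have h1 : Module.finrank W.K
        (algGr W P j ⊓ (W.gr Y j).map (W.map i).toLinearMap : Submodule W.K (W.H P)) ≤
        Module.finrank W.K (restrGr W i j) := by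
      apply finrank_le_of_inj (T := T)
      · intro x hx
        simpa using hT1 x hx.1
      · rintro _ ⟨-, x, hx, rfl⟩ h0
        exact hT2 x hx h0
    exact (Submodule.eq_of_le_of_finrank_le hle h1).ge
  · exact le_inf (restrGr_le_alg j) (Submodule.map_mono (algGr_le j))

/-! ### Squares -/

/-- The operator induced by a class of degree `j` shifts degrees by `j - 2 dim X`. -/
lemma isHom_corr {j : ℕ} {c : W.H (X.prod X)} (hc : c ∈ W.gr (X.prod X) j) :
    IsHom (W.gr X) ((j : ℤ) - 2 * X.dim) (W.corr c) := by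
  intro i a ha
  by_cases hi : 0 ≤ i
  · lift i to ℕ using hi
    rw [grZ_natCast] at ha
    have h1 := W.push_mem (snd X X) (W.mul_mem hc (W.map_mem (fst X X) ha))
    rw [corr_apply]
    have e : ((j + i : ℕ) : ℤ) + 2 * ((X.dim : ℤ) - (X.prod X).dim) =
        (i : ℤ) + ((j : ℤ) - 2 * X.dim) := by
      rw [dim_prod]; push_cast; ring
    rwa [e] at h1
  · rw [grZ_of_neg (by omega)] at ha
    rw [(Submodule.mem_bot _).1 ha, map_zero]
    exact Submodule.zero_mem _

/-- Hard Lefschetz for the square. -/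
lemma hardLefschetz_boxSum {L : X.Cycles} (hL : X.IsCyc 1 L) (hHL : HardLefschetz W X L) :
    HardLefschetz W (X.prod X) (boxSum ops L) := by
  obtain ⟨F, t, -, -⟩ := exists_sl2 (W.isInternal X) (isHom_mulLeft W hL) W_hbd hHL
  have hinj : ∀ (j c : ℕ), j + c = (X.prod X).dim → ∀ x ∈ W.gr (X.prod X) j,
      (LinearMap.mulLeft W.K (W.cl _ (boxSum ops L)) ^ c) x = 0 → x = 0 := by
    intro j c hjc x hx h0
    have h1 := congrArg W.corr h0
    rw [corr_boxSum_pow hL] at h1
    apply corr_inj
    apply e_pow_inj (sl2_dbl t) (c := c)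
    · rw [weight_dbl (W.isInternal X) (d := (j : ℤ) - 2 * X.dim) (isHom_corr hx)]
      congr 1
      rw [dim_prod] at hjc
      have : (j : ℤ) - 2 * X.dim = -(c : ℤ) := by omega
      rw [this]; push_cast; ring
    · rw [h1, corr_zero]
  intro j hj
  refine ⟨hinj j _ (by omega), ?_⟩
  apply surj_of_finrank_eq (A := W.gr (X.prod X) j) (B := W.gr (X.prod X) (2 * (X.prod X).dim - j))
  · intro x hx
    have := pow_L_mem (isHom_mulLeft W (boxSum_mem (ops := ops) hL)) hx ((X.prod X).dim - j)
    rwa [show j + 2 * ((X.prod X).dim - j) = 2 * (X.prod X).dim - j by omega] at this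
  · exact hinj j _ (by omega)
  · exact (betti_symm (X := X.prod X) W hj).symm

/-- **The conjecture A on a family implies the conjecture B on a variety whose square is a smooth
fibre.** -/
theorem lefschetzB_of_fibre {i : X.prod X ⟶ Y} (hD : S.IsCyc 1 D) (hE : Y.IsCyc 1 E)
    (hi : IsSmoothFibre Q i)
    (hY : ∀ j c, 2 * j + c = Y.dim → cycleRank W Y j = cycleRank W Y (j + c))
    {L : X.Cycles} (hL : X.IsCyc 1 L) (hHL : HardLefschetz W X L)
    {M : Y.Cycles} (hM : Y.IsCyc 1 M) (hML : W.map i (W.cl Y M) = W.cl _ (boxSum ops L))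
    {Z : Y.Cycles} (hZ : Y.IsCyc X.dim Z) (hZi : W.map i (W.cl Y Z) = W.push (diag X) 1) :
    LefschetzB W X L := by
  obtain ⟨F, tF, hF⟩ := restr_lower hD hE hi hY hM (boxSum_mem hL) hML
    (hardLefschetz_boxSum hL hHL)
  obtain ⟨G, tG, -, -⟩ := exists_sl2 (W.isInternal X) (isHom_mulLeft W hL) W_hbd hHL
  -- the lowering operators correspond to each other
  have key : ∀ c : W.H (X.prod X), W.corr (F c) = dbl G (W.corr c) := by
    intro c
    apply sl2_intertwine tF (sl2_dbl tG) (T := (corrEquiv W X).toLinearMap)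
    · intro v
      refine gr_induction (W.isInternal (X.prod X)) (p := fun v => (corrEquiv W X).toLinearMap
        (wt (W.isInternal (X.prod X)) (X.prod X).dim v) = (LinearMap.mulLeft W.K
          (wt (W.isInternal X) X.dim) - LinearMap.mulRight W.K (wt (W.isInternal X) X.dim))
          ((corrEquiv W X).toLinearMap v)) ?_ ?_ v
      · intro j a ha
        rw [wt_apply _ _ ha, map_smul]
        have h1 := weight_dbl (n := X.dim) (W.isInternal X) (d := (j : ℤ) - 2 * X.dim)
          (isHom_corr ha)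
        change _ = _ at h1
        have h2 : (corrEquiv W X).toLinearMap a = W.corr a := rfl
        rw [h2, h1]
        congr 1
        rw [dim_prod]
        push_cast; ring
      · intro a b ha hb
        rw [map_add, map_add, map_add, map_add, ha, hb]
    · intro v
      have h1 := corr_boxSum_pow (W := W) hL 1 v
      rw [pow_one, pow_one] at h1
      exact h1
  have h1 : W.push (diag X) 1 ∈ restrGr W i (2 * X.dim) := by
    rw [← hZi]
    refine ⟨_, ?_, rfl⟩
    rw [algGr_even]
    exact Submodule.subset_span ⟨X.dim, rfl, Z, hZ, rfl⟩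
  have h2 : F (W.push (diag X) 1) ∈ grZ (restrGr W i) ((2 * X.dim : ℕ) + (-2 : ℤ)) :=
    hF _ _ (by rw [grZ_natCast]; exact h1)
  have h3 : W.corr (F (W.push (diag X) 1)) = (2 : W.K) • G := by
    rw [key, dbl_apply]
    have h4 : W.corr (W.push (diag X) 1) = 1 := by
      apply LinearMap.ext
      intro a
      rw [corr_diag, one_mul]; rfl
    rw [h4, mul_one, one_mul, two_smul]
  have h4 : (2 : W.K) • G ∈ KOp W X X (-1) := by
    rw [← h3]
    by_cases hn : X.dim = 0
    · have h5 : F (W.push (diag X) 1) = 0 := by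
        rw [grZ_of_neg (by omega)] at h2
        exact (Submodule.mem_bot _).1 h2
      rw [h5, corr_zero]
      exact Submodule.zero_mem _
    · rw [show ((2 * X.dim : ℕ) + (-2 : ℤ)) = ((2 * (X.dim - 1) : ℕ) : ℤ) by omega,
        grZ_natCast] at h2
      have h5 := restrGr_le_alg _ h2
      rw [algGr_even] at h5
      rw [mem_KOp_iff]
      refine ⟨_, ?_, rfl⟩
      rwa [show (X.dim : ℤ) + -1 = ((X.dim - 1 : ℕ) : ℤ) by omega]
  have hG : G ∈ KOp W X X (-1) := by
    have h5 := Submodule.smul_mem _ ((2 : W.K)⁻¹) h4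
    rwa [smul_smul, inv_mul_cancel₀ two_ne_zero, one_smul] at h5
  apply lefschetzB_of_inj hL hHL
  intro c _
  have hOA := (rop_opAlg (W := W) (X := X)).kspan
  refine ⟨G ^ c, ?_, ?_⟩
  · rw [← mem_KS_iff]
    exact hOA.cast (hOA.pow (mem_KS_iff.2 hG) c) (by ring)
  · intro a ha h0
    apply f_pow_inj tG _ h0
    rw [wt_apply _ _ ha]
    congr 1
    push_cast; ring

end

end Pool.Agent.W498.Dom
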