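import Pool.Agent.W498.Dom.FibDefs
import Pool.Agent.H914R2.KDefs

/-!
# The fixed part of the cohomology of a fibre: definitions
-/

open CategoryTheory AlgebraicGeometry

universe u v

namespace Pool.Agent.W498.Dom

open Pool.Agent.H914 VarClass Obj WeilCohomology

section Alg

variable {K A : Type*} [Field K] [Ring A] [Algebra K A]

/-- The orthogonal complement of the subspace `I` for the pairing `tr (x y)`. -/
def perp (tr : A →ₗ[K] K) (I : Submodule K A) : Submodule K A where
  carrier := {x | ∀ y ∈ I, tr (x * y) = 0}
  add_mem' := by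
    intro a b ha hb y hy
    rw [add_mul, map_add, ha y hy, hb y hy, add_zero]
  zero_mem' := by
    intro y _
    rw [zero_mul, map_zero]
  smul_mem' := by
    intro c a ha y hy
    rw [smul_mul_assoc, map_smul, ha y hy, smul_zero]

/-- The operator `u` is the projector onto the part of degree `j` of `I`: it is the identity there
and zero on `J` and on the other degrees. -/
def ProjectsTo (gr : ℕ → Submodule K A) (I J : Submodule K A) (j : ℕ) (u : Module.End K A) : Prop :=
  (∀ x ∈ I ⊓ gr j, u x = x) ∧ (∀ x ∈ J, u x = 0) ∧ ∀ l ≠ j, ∀ x ∈ gr l, u x = 0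

/-- The operator `u` inverts multiplication by `ξ ^ c` on `I`. -/
def Inverts (I : Submodule K A) (ξ : A) (c : ℕ) (u : Module.End K A) : Prop :=
  ∀ x ∈ I, u (ξ ^ c * x) = x

/-- The operator `u` maps the orthogonal complement of `N` in `V` injectively to the quotient
by `N`. -/
def InjectiveMod (tr : A →ₗ[K] K) (V N : Submodule K A) (u : Module.End K A) : Prop :=
  ∀ x ∈ V, (∀ y ∈ N, tr (x * y) = 0) → u x ∈ N → x = 0

end Alg

variable {k : Type u} [Field k] {𝒱 : VarClass k} {ops : CycleOps 𝒱}

/-- The fixed part of `H(P)`: the image of the restriction `H(Y) ⟶ H(P)`. If `P` is a fibre of a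
morphism from `Y` to `S` over a point over which it is smooth, then in the `ℓ`-adic theory this is
the subspace of the invariants of the monodromy. -/
def fixedPart (W : WeilCohomology.{u, v} ops) {P Y : 𝒱.Obj} (i : P ⟶ Y) :
    Submodule W.K (W.H P) := LinearMap.range (W.map i).toLinearMap

/-- The orthogonal complement of the fixed part for the Poincaré duality pairing. -/
def fixedPerp (W : WeilCohomology.{u, v} ops) {P Y : 𝒱.Obj} (i : P ⟶ Y) :
    Submodule W.K (W.H P) := perp (W.tr P) (fixedPart W i)

/-- The part of degree `j` of the fixed part. -/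
def fixedGr (W : WeilCohomology.{u, v} ops) {P Y : 𝒱.Obj} (i : P ⟶ Y) (j : ℕ) :
    Submodule W.K (W.H P) := fixedPart W i ⊓ W.gr P j

/-- The `K`-span of the classes of algebraic cycles in `H^j(P)` (zero if `j` is odd). -/
def algSpan (W : WeilCohomology.{u, v} ops) (P : 𝒱.Obj) (j : ℕ) : Submodule W.K (W.H P) :=
  Submodule.span W.K {c | ∃ p : ℕ, 2 * p = j ∧ ∃ z, P.IsCyc p z ∧ W.cl P z = c}

/-- The operator `u` on `H(P)` is induced by a `K`-linear combination of the classes of algebraic
cycles of codimension `q` on `P × P`. -/
def IsCombination (W : WeilCohomology.{u, v} ops) (P : 𝒱.Obj) (q : ℤ)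
    (u : Module.End W.K (W.H P)) : Prop :=
  ∃ c ∈ spanCycles W (P.prod P) q, W.corr c = u

/-- For each `j` the projector of `H(P)` onto the part of degree `j` of the fixed part is induced by
a `K`-linear combination of algebraic correspondences: it is the identity on this part and zero on
the orthogonal complement of the fixed part and on the other degrees. -/
def FixedProjectors (W : WeilCohomology.{u, v} ops) {P Y : 𝒱.Obj} (i : P ⟶ Y) : Prop :=
  ∀ j, ∃ u, IsCombination W P P.dim u ∧ ProjectsTo (W.gr P) (fixedPart W i) (fixedPerp W i) j u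

/-- The Lefschetz conjecture for the fixed part: for `c ≤ m = dim P` a `K`-linear combination of
algebraic correspondences induces the inverse of the power `c` of the class of `L` on the part of
degree `m - c` of the fixed part. -/
def FixedLefschetz (W : WeilCohomology.{u, v} ops) {P Y : 𝒱.Obj} (i : P ⟶ Y) (L : P.Cycles) :
    Prop :=
  ∀ c ≤ P.dim, ∃ u, IsCombination W P (P.dim - c) u ∧
    Inverts (fixedGr W i (P.dim - c)) (W.cl P L) c u

/-- The fixed part is an algebraic direct summand of `H(P)`, complementary to its orthogonal
complement, and satisfies the Lefschetz conjecture. -/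
structure FixedPartSplits (W : WeilCohomology.{u, v} ops) {P Y : 𝒱.Obj} (i : P ⟶ Y)
    (L : P.Cycles) : Prop where
  /-- the cohomology is the direct sum of the fixed part and its orthogonal complement -/
  isCompl : IsCompl (fixedPart W i) (fixedPerp W i)
  /-- the projectors are algebraic -/
  projectors : FixedProjectors W i
  /-- the inverses of the powers of the Lefschetz operator on the fixed part are algebraic -/
  lefschetz : FixedLefschetz W i L

/-- The Lefschetz standard conjecture for `P` modulo the subspaces `N j` of `H^j(P)`: for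
`1 ≤ c ≤ m = dim P` a `K`-linear combination of algebraic correspondences from `H^(m + c)(P)` to
`H^(m - c)(P)` maps the orthogonal complement of `N (m - c)` in `H^(m + c)(P)` injectively to the
quotient of `H^(m - c)(P)` by `N (m - c)`. -/
def LefschetzMod (W : WeilCohomology.{u, v} ops) {P : 𝒱.Obj} (N : ℕ → Submodule W.K (W.H P)) :
    Prop :=
  ∀ c, 1 ≤ c → c ≤ P.dim → ∃ u, IsCombination W P (P.dim - c) u ∧
    InjectiveMod (W.tr P) (W.gr P (P.dim + c)) (N (P.dim - c)) u

/-- The Lefschetz standard conjecture for `P` modulo the fixed part. -/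
def LefschetzModFixed (W : WeilCohomology.{u, v} ops) {P Y : 𝒱.Obj} (i : P ⟶ Y) : Prop :=
  LefschetzMod W (fixedGr W i)

/-- The Lefschetz standard conjecture for `P` modulo the sum of the fixed part and of the span of
the algebraic classes. -/
def LefschetzModKnown (W : WeilCohomology.{u, v} ops) {P Y : 𝒱.Obj} (i : P ⟶ Y) : Prop :=
  LefschetzMod W (fun j => fixedGr W i j ⊔ algSpan W P j)

end Pool.Agent.W498.Dom
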