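import Pool.Agent.W498.Dom.FibMain
import Pool.Agent.W498.Dom.FixDefs
import Pool.Agent.W498.Dom.Class

/-!
# The fixed part of the cohomology of a smooth fibre
-/

open CategoryTheory AlgebraicGeometry Finset Polynomial

set_option linter.unusedSectionVars false

universe u v

namespace Pool.Agent.W498.Dom

open Pool.Agent.H914 Pool.Agent.H447 VarClass Obj WeilCohomology Pool.Agent.W534

variable {k : Type u} [Field k] {𝒱 : VarClass k} {ops : CycleOps 𝒱}
  {W : WeilCohomology.{u, v} ops} {P Y S : 𝒱.Obj} {f : Y ⟶ S} {D : S.Cycles} {E : Y.Cycles}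
  {i : P ⟶ Y}

lemma comb_iff {q d : ℤ} (h : (P.dim : ℤ) + d = q) {u : Module.End W.K (W.H P)} :
    IsCombination W P q u ↔ u ∈ KOp W P P d := by
  subst h
  rw [mem_KOp_iff]
  rfl

lemma mem_perp_iff {x : W.H P} : x ∈ fixedPerp W i ↔ W.push i x = 0 := by
  constructor
  · intro h
    apply W.nondeg
    intro y
    rw [W.tr_push]
    exact h _ ⟨y, rfl⟩
  · rintro h _ ⟨y, rfl⟩
    change W.tr P (x * W.map i y) = 0
    rw [← W.tr_push, h, zero_mul, map_zero]

/-- The projectors of the total space. -/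
lemma kop_proj {L : Y.Cycles} (hL : Y.IsCyc 1 L) (hHL : HardLefschetz W Y L) (hY : Inj W Y)
    (j : ℕ) : proj (W.isInternal Y) j ∈ KOp W Y Y 0 := by
  have hR := (rop_opAlg (W := W) (X := Y))
  have hL' : LinearMap.mulLeft W.K (W.cl Y L) ∈ KS (ROp W Y) 1 := mem_KS_iff.2 (kop_L hL)
  obtain ⟨Φ, hΦ, hLam⟩ := hR.kspan.exists_lam (W.isInternal Y) W_hbd hL' hHL (by
    intro c hc
    obtain ⟨ν, hν, hinj⟩ := hY c hc
    exact hR.exists_theta_of_inj hL' hHL hc (mem_KS_iff.2 hν) hinj)
  exact mem_KS_iff.1 (hR.kspan.proj_mem (W.isInternal Y) W_hbd hL' hHL hΦ hLam j)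

lemma map_proj (j : ℕ) (y : W.H Y) : W.map i (proj (W.isInternal Y) j y) =
    proj (W.isInternal P) j (W.map i y) := by
  refine gr_induction (W.isInternal Y) (p := fun y =>
    W.map i (proj (W.isInternal Y) j y) = proj (W.isInternal P) j (W.map i y)) ?_ ?_ y
  · intro l a ha
    by_cases hlj : l = j
    · subst hlj
      rw [proj_same _ ha, proj_same _ (W.map_mem i ha)]
    · rw [proj_ne _ ha hlj, proj_ne _ (W.map_mem i ha) hlj, map_zero]
  · intro a b ha hb
    rw [map_add, map_add, map_add, map_add, ha, hb]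

/-- Orthogonality to the part of complementary degree. -/
lemma mem_perp_of_gr {c : ℕ} (hc : c ≤ P.dim) {x : W.H P} (hx : x ∈ W.gr P (P.dim + c))
    (h : ∀ y ∈ fixedGr W i (P.dim - c), W.tr P (x * y) = 0) : x ∈ fixedPerp W i := by
  rintro _ ⟨y, rfl⟩
  change W.tr P (x * W.map i y) = 0
  refine gr_induction (W.isInternal Y) (p := fun y => W.tr P (x * W.map i y) = 0) ?_ ?_ y
  · intro l a ha
    by_cases hl : l = P.dim - c
    · subst hl
      exact h _ ⟨⟨a, rfl⟩, W.map_mem i ha⟩
    · exact W.tr_eq_zero (W.mul_mem hx (W.map_mem i ha)) (by omega)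
  · intro a b ha hb
    rw [map_add, mul_add, map_add, ha, hb, add_zero]

/-- A generic combination of `U` and `B` is injective if `U` is injective modulo `B`. -/
lemma exists_generic_sum {K E F : Type*} [Field K] [CharZero K] [AddCommGroup E] [Module K E]
    [Module.Finite K E] [AddCommGroup F] [Module K F] (U B : E →ₗ[K] F)
    (h : ∀ x, B x = 0 → U x ∈ LinearMap.range B → x = 0) :
    ∃ μ : K, Function.Injective (U + μ • B) := by
  obtain ⟨N', hN⟩ := Submodule.exists_isCompl (LinearMap.ker B)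
  set e : E →ₗ[K] E := (LinearMap.ker B).subtype ∘ₗ Submodule.projectionOnto _ _ hN with he
  have he1 : ∀ x, B (e x) = 0 := fun x =>
    (Submodule.projectionOnto (LinearMap.ker B) N' hN x).2
  have he2 : ∀ x, B x = 0 → e x = x := fun x hx => by
    have := Submodule.projectionOnto_apply_left hN ⟨x, hx⟩
    exact congrArg Subtype.val this
  have hee : ∀ x, e (e x) = e x := fun x => he2 _ (he1 x)
  set A : K → E →ₗ[K] F := fun s => (U ∘ₗ e + B) + s • (U ∘ₗ (LinearMap.id - e)) with hA
  have hAp : PFam A := by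
    have h1 : PFam (fun s : K => (X : K[X]).eval s • (U ∘ₗ (LinearMap.id - e))) :=
      (PFam.const _).smul X
    have h2 := (PFam.const (U ∘ₗ e + B)).add h1
    simpa [hA] using h2
  have hA0 : Function.Injective (A 0) := by
    rw [← LinearMap.ker_eq_bot, LinearMap.ker_eq_bot']
    intro x hx
    simp only [hA, zero_smul, add_zero, LinearMap.add_apply, LinearMap.comp_apply] at hx
    have h1 : e x = 0 := by
      apply h _ (he1 x)
      rw [eq_neg_of_add_eq_zero_left hx]
      exact Submodule.neg_mem _ ⟨x, rfl⟩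
    rw [h1, map_zero, zero_add] at hx
    rw [← he2 x hx, h1]
  obtain ⟨p, hp, hpA⟩ := hAp.generic_inj hA0
  obtain ⟨s, hs, hps⟩ := exists_nonroot p hp
  refine ⟨s⁻¹, ?_⟩
  rw [← LinearMap.ker_eq_bot, LinearMap.ker_eq_bot']
  intro y hy
  simp only [LinearMap.add_apply, LinearMap.smul_apply] at hy
  have hx : A s (e y + s⁻¹ • (y - e y)) = 0 := by
    have e1 : e (e y + s⁻¹ • (y - e y)) = e y := by
      rw [map_add, map_smul, map_sub, hee, sub_self, smul_zero, add_zero]
    have e2 : B (e y + s⁻¹ • (y - e y)) = s⁻¹ • B y := by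
      rw [map_add, map_smul, map_sub, he1, sub_zero, zero_add]
    have e3 : s • (U (e y + s⁻¹ • (y - e y)) - U (e y)) = U y - U (e y) := by
      rw [map_add, map_smul, map_sub, add_sub_cancel_left, smul_smul, mul_inv_cancel₀ hs,
        one_smul]
    simp only [hA, LinearMap.add_apply, LinearMap.comp_apply, LinearMap.smul_apply,
      LinearMap.sub_apply, LinearMap.id_apply]
    rw [e1, e2, map_sub, e3, ← hy]
    abel
  have h1 : e y + s⁻¹ • (y - e y) = 0 := hpA s hps (by rw [hx, map_zero])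
  have h2 := congrArg e h1
  rw [map_add, map_smul, map_sub, hee, sub_self, smul_zero, add_zero, map_zero] at h2
  rw [h2, zero_add, sub_zero] at h1
  exact (smul_eq_zero.1 h1).resolve_left (inv_ne_zero hs)

section

variable {Q : PerverseDecomposition W f D E}

/-- The operators from the total space. -/
theorem exists_fix_op (hD : S.IsCyc 1 D) (hE : Y.IsCyc 1 E) (hi : IsSmoothFibre Q i)
    (hY : Inj W Y) (j c : ℕ) (hjc : c = 0 ∨ j = P.dim + c) :
    ∃ F ∈ KOp W Y Y (-(S.dim + c : ℕ)), ∀ x ∈ W.gr Y j,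
      W.map i (F (W.push i (W.map i x))) = 0 → W.map i x = 0 := by
  obtain ⟨κ, M⟩ := exists_fibSetup hi
  have hr := hi.dim_eq
  have S' := setup Q hD hE hr
  have hdim : ∀ c ≤ P.dim + S.dim, Module.finrank W.K (W.gr Y (P.dim + S.dim - c)) =
      Module.finrank W.K (W.gr Y (P.dim + S.dim + c)) := by
    intro c hc
    have := betti_symm (X := Y) W (i := P.dim + S.dim - c) (by omega)
    rw [show 2 * Y.dim - (P.dim + S.dim - c) = P.dim + S.dim + c by omega] at this
    exact this.symm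
  obtain ⟨σ, hσ, hl, hcore⟩ := M.core_fib S' hdim j c hjc
  have hk1 : hop W f D + σ ^ 2 • eop W Y E ∈ KOp W Y Y 1 :=
    Submodule.add_mem _ (kop_hop hD) (Submodule.smul_mem _ _ (kop_L hE))
  obtain ⟨F, hF, t⟩ := exists_lower hk1 (by rw [hr]; exact hl) hY
  refine ⟨F ^ (S.dim + c), KOp.cast (kop_pow hF _) (by push_cast; ring), ?_⟩
  intro x hx h0
  have hw : ∀ m (hm : Y.dim = m), wt (W.isInternal Y) Y.dim = wt (setup Q hD hE hm).igr m := by
    intro m hm; subst hm; rfl
  apply hcore F _ x hx h0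
  rw [← hw _ hr]; exact t

/-- The operators on the fibre. -/
theorem exists_fib_op (hD : S.IsCyc 1 D) (hE : Y.IsCyc 1 E) (hi : IsSmoothFibre Q i)
    {L : Y.Cycles} (hL : Y.IsCyc 1 L) (hHL : HardLefschetz W Y L)
    (hY : Inj W Y) (j c : ℕ) (hjc : c = 0 ∨ j = P.dim + c) :
    ∃ T ∈ KOp W P P (-c), (∀ x ∈ fixedPerp W i, T x = 0) ∧ (∀ x, T x ∈ fixedPart W i) ∧
      (∀ l ≠ j, ∀ x ∈ W.gr P l, T x = 0) ∧
      ∀ x ∈ fixedPart W i ⊓ W.gr P j, T x = 0 → x = 0 := by
  obtain ⟨F, hF, hinj⟩ := exists_fix_op hD hE hi hY j c hjc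
  have hr := hi.dim_eq
  refine ⟨(W.map i).toLinearMap ∘ₗ F ∘ₗ proj (W.isInternal Y) (j + 2 * S.dim) ∘ₗ W.push i,
    ?_, ?_, ?_, ?_, ?_⟩
  · refine KOp.cast (KOp.comp (qop_pull i).kop (KOp.comp hF (KOp.comp (kop_proj hL hHL hY _)
      (qop_push i).kop))) ?_
    rw [hr]; push_cast; ring
  · intro x hx
    rw [mem_perp_iff] at hx
    simp only [LinearMap.comp_apply, hx, map_zero]
  · intro x
    exact ⟨_, rfl⟩
  · intro l hl x hx
    have h1 := W.push_mem i hx
    have h2 : ((l : ℤ) + 2 * ((Y.dim : ℤ) - P.dim)) = ((l + 2 * S.dim : ℕ) : ℤ) := by omega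
    rw [h2, grZ_natCast] at h1
    simp only [LinearMap.comp_apply]
    rw [proj_ne _ h1 (by omega), map_zero, map_zero]
  · rintro x ⟨⟨y, hy⟩, hx⟩ h0
    have hy' : W.map i y = x := hy
    -- the component of degree `j`
    have h3 : W.map i (proj (W.isInternal Y) j y) = x := by
      rw [map_proj, hy', proj_same _ hx]
    have h5 : W.push i x ∈ W.gr Y (j + 2 * S.dim) := by
      have h1 := W.push_mem i hx
      have h2 : ((j : ℤ) + 2 * ((Y.dim : ℤ) - P.dim)) = ((j + 2 * S.dim : ℕ) : ℤ) := by omega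
      rwa [h2, grZ_natCast] at h1
    have h6 := hinj _ (proj_mem (W.isInternal Y) j y)
    rw [h3] at h6
    apply h6
    simp only [LinearMap.comp_apply] at h0
    rw [proj_same _ h5] at h0
    exact h0

/-- **The projectors of the fixed part.** -/
theorem fixedProjectors (hD : S.IsCyc 1 D) (hE : Y.IsCyc 1 E) (hi : IsSmoothFibre Q i)
    {L : Y.Cycles} (hL : Y.IsCyc 1 L) (hHL : HardLefschetz W Y L) (hY : Inj W Y) :
    FixedProjectors W i := by
  intro j
  obtain ⟨T, hT, h1, h2, h3, h4⟩ := exists_fib_op hD hE hi hL hHL hY j 0 (Or.inl rfl)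
  have hR := (rop_opAlg (W := W) (X := P))
  have hT0 : T ∈ KOp W P P 0 := KOp.cast hT (by simp)
  have hTg : ∀ x ∈ W.gr P j, T x ∈ W.gr P j := by
    intro x hx
    have := (KOp.isHom hT0) j x (by rw [grZ_natCast]; exact hx)
    rwa [show (j : ℤ) + 2 * 0 = (j : ℤ) by ring, grZ_natCast] at this
  obtain ⟨q, hq⟩ := exists_inv_on (E := T) (S := fixedPart W i ⊓ W.gr P j)
    (fun x hx => ⟨h2 x, hTg x hx.2⟩) h4
  refine ⟨aeval T q * T, ?_, hq, ?_, ?_⟩
  · rw [comb_iff (d := 0) (by ring)]
    have := hR.kspan.cast (hR.kspan.mul (hR.kspan_aeval (mem_KS_iff.2 hT0) q) (mem_KS_iff.2 hT0))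
      (add_zero 0)
    exact mem_KS_iff.1 this
  · intro x hx
    rw [Module.End.mul_apply, h1 x hx, map_zero]
  · intro l hl x hx
    rw [Module.End.mul_apply, h3 l hl x hx, map_zero]

/-- The projector onto the fixed part. -/
theorem exists_fixed_proj (h : FixedProjectors W i) :
    ∃ u ∈ KOp W P P 0, (∀ x ∈ fixedPart W i, u x = x) ∧ ∀ x ∈ fixedPerp W i, u x = 0 := by
  choose u h1 h2 h3 h4 using h
  refine ⟨∑ j ∈ range (2 * P.dim + 1), u j, ?_, ?_, ?_⟩
  · exact Submodule.sum_mem _ fun j _ => (comb_iff (by ring)).1 (h1 j)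
  · rintro x ⟨y, hy⟩
    have hy' : W.map i y = x := hy
    have key : ∀ y : W.H Y, (∑ j ∈ range (2 * P.dim + 1), u j) (W.map i y) = W.map i y := by
      intro y
      refine gr_induction (W.isInternal Y) (p := fun y =>
        (∑ j ∈ range (2 * P.dim + 1), u j) (W.map i y) = W.map i y) ?_ ?_ y
      · intro l a ha
        have ha' := W.map_mem i ha
        rw [LinearMap.sum_apply]
        by_cases hl : l < 2 * P.dim + 1
        · rw [Finset.sum_eq_single l]
          · exact h2 l _ ⟨⟨a, rfl⟩, ha'⟩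
          · intro j _ hj
            exact h4 j l (Ne.symm hj) _ ha'
          · intro h; exact absurd (Finset.mem_range.2 hl) h
        · rw [W.gr_eq_bot P l (by omega), Submodule.mem_bot] at ha'
          rw [ha']
          simp
      · intro a b ha hb
        rw [map_add, map_add, ha, hb]
    rw [← hy', key]
  · intro x hx
    rw [LinearMap.sum_apply]
    exact Finset.sum_eq_zero fun j _ => h3 j x hx

/-- The dimension of the orthogonal complement. -/
lemma finrank_perp : Module.finrank W.K (fixedPart W i) + Module.finrank W.K (fixedPerp W i) =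
    Module.finrank W.K (W.H P) := by
  set φ : W.H P →ₗ[W.K] Module.Dual W.K (W.H P) := (LinearMap.mul W.K (W.H P)).compr₂ (W.tr P)
    with hφ
  have hinj : Function.Injective φ := by
    rw [← LinearMap.ker_eq_bot, LinearMap.ker_eq_bot']
    intro x hx
    apply W.nondeg
    intro y
    exact congrArg (fun g => g y) hx
  set ψ := LinearMap.linearEquivOfInjective φ hinj Subspace.dual_finrank_eq.symm with hψ
  have h1 : fixedPerp W i = ((fixedPart W i).dualAnnihilator).comap ψ.toLinearMap := by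
    ext x
    rw [Submodule.mem_comap, Submodule.mem_dualAnnihilator]
    rfl
  have h2 : Module.finrank W.K (fixedPerp W i) =
      Module.finrank W.K (fixedPart W i).dualAnnihilator := by
    rw [h1]
    exact (LinearEquiv.ofSubmodule' ψ (fixedPart W i).dualAnnihilator).finrank_eq
  rw [h2]
  exact Subspace.finrank_add_finrank_dualAnnihilator_eq _

/-- The cohomology is the direct sum of the fixed part and its orthogonal complement. -/
theorem isCompl_fixed (h : FixedProjectors W i) : IsCompl (fixedPart W i) (fixedPerp W i) := by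
  obtain ⟨u, -, hu1, hu2⟩ := exists_fixed_proj h
  have hdis : Disjoint (fixedPart W i) (fixedPerp W i) := by
    rw [Submodule.disjoint_def]
    intro x hx hx'
    rw [← hu1 x hx, hu2 x hx']
  refine ⟨hdis, ?_⟩
  rw [codisjoint_iff]
  apply Submodule.eq_top_of_finrank_eq
  have h1 := Submodule.finrank_sup_add_finrank_inf_eq (fixedPart W i) (fixedPerp W i)
  rw [hdis.eq_bot, finrank_bot, add_zero, finrank_perp] at h1
  exact h1

/-- The fixed part is stable under restrictions of classes. -/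
lemma fixed_mul {a : W.H Y} {x : W.H P} (hx : x ∈ fixedPart W i) :
    W.map i a * x ∈ fixedPart W i := by
  obtain ⟨y, rfl⟩ := hx
  refine ⟨a * y, ?_⟩
  change W.map i (a * y) = W.map i a * W.map i y
  rw [map_mul]

lemma fixed_pow {M : Y.Cycles} {L : P.Cycles} (hML : W.map i (W.cl Y M) = W.cl P L) (c : ℕ)
    {x : W.H P} (hx : x ∈ fixedPart W i) : W.cl P L ^ c * x ∈ fixedPart W i := by
  rw [← hML, ← map_pow]
  exact fixed_mul hx

lemma pow_gr {L : P.Cycles} (hL : P.IsCyc 1 L) {c : ℕ} (hc : c ≤ P.dim) {x : W.H P}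
    (hx : x ∈ W.gr P (P.dim - c)) : W.cl P L ^ c * x ∈ W.gr P (P.dim + c) := by
  have := W.mul_mem (xi_mem hL c) hx
  rwa [show 2 * c + (P.dim - c) = P.dim + c by omega] at this

/-- **The Lefschetz conjecture for the fixed part.** -/
theorem fixedLefschetz (hD : S.IsCyc 1 D) (hE : Y.IsCyc 1 E) (hi : IsSmoothFibre Q i)
    {L' : Y.Cycles} (hL' : Y.IsCyc 1 L') (hHL' : HardLefschetz W Y L') (hY : Inj W Y)
    {M : Y.Cycles} {L : P.Cycles} (hL : P.IsCyc 1 L)
    (hML : W.map i (W.cl Y M) = W.cl P L) (hHL : HardLefschetz W P L) :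
    FixedLefschetz W i L := by
  intro c hc
  obtain ⟨T, hT, h1, h2, h3, h4⟩ := exists_fib_op hD hE hi hL' hHL' hY (P.dim + c) c (Or.inr rfl)
  have hR := (rop_opAlg (W := W) (X := P))
  have hLk : LinearMap.mulLeft W.K (W.cl P L) ∈ KS (ROp W P) 1 := mem_KS_iff.2 (kop_L hL)
  have hA : T * LinearMap.mulLeft W.K (W.cl P L) ^ c ∈ KS (ROp W P) 0 :=
    hR.kspan.cast (hR.kspan.mul (mem_KS_iff.2 hT) (hR.kspan.pow hLk c)) (by ring)
  have hTg : ∀ x ∈ W.gr P (P.dim + c), T x ∈ W.gr P (P.dim - c) := by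
    intro x hx
    have := (KOp.isHom hT) (P.dim + c : ℕ) x (by rw [grZ_natCast]; exact hx)
    rwa [show ((P.dim + c : ℕ) : ℤ) + 2 * -(c : ℤ) = ((P.dim - c : ℕ) : ℤ) by omega,
      grZ_natCast] at this
  have hLx : ∀ x, (LinearMap.mulLeft W.K (W.cl P L) ^ c) x = W.cl P L ^ c * x := by
    intro x
    rw [LinearMap.pow_mulLeft, LinearMap.mulLeft_apply]
  obtain ⟨q, hq⟩ := exists_inv_on (E := T * LinearMap.mulLeft W.K (W.cl P L) ^ c)
    (S := fixedPart W i ⊓ W.gr P (P.dim - c))
    (by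
      rintro x ⟨hx, hx'⟩
      rw [Module.End.mul_apply, hLx]
      exact ⟨h2 _, hTg _ (pow_gr hL hc hx')⟩)
    (by
      rintro x ⟨hx, hx'⟩ h0
      rw [Module.End.mul_apply, hLx] at h0
      have h5 := h4 _ ⟨fixed_pow hML c hx, pow_gr hL hc hx'⟩ h0
      refine (hHL (P.dim - c) (by omega)).1 x hx' ?_
      rw [show P.dim - (P.dim - c) = c by omega, hLx]
      exact h5)
  refine ⟨aeval (T * LinearMap.mulLeft W.K (W.cl P L) ^ c) q * T, ?_, ?_⟩
  · rw [comb_iff (d := -c) (by ring)]
    exact mem_KS_iff.1 (hR.kspan.cast (hR.kspan.mul (hR.kspan_aeval hA q) (mem_KS_iff.2 hT))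
      (by ring))
  · intro x hx
    have := hq x hx
    rw [Module.End.mul_apply, hLx] at this
    rw [Module.End.mul_apply]
    exact this

lemma span_mul' {X : 𝒱.Obj} {p q : ℤ} {a b : W.H X} (ha : a ∈ spanCycles W X p)
    (hb : b ∈ spanCycles W X q) : a * b ∈ spanCycles W X (p + q) := by
  induction ha using Submodule.span_induction with
  | mem x hx =>
    obtain ⟨p', hp', z, hz, rfl⟩ := hx
    induction hb using Submodule.span_induction with
    | mem y hy =>
      obtain ⟨q', hq', w, hw, rfl⟩ := hy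
      rw [← W.cl_mul]
      exact Submodule.subset_span ⟨p' + q', by push_cast; omega, _, ops.mul_mem hz hw, rfl⟩
    | zero => rw [mul_zero]; exact Submodule.zero_mem _
    | add x y _ _ hx hy => rw [mul_add]; exact Submodule.add_mem _ hx hy
    | smul c x _ hx => rw [mul_smul_comm]; exact Submodule.smul_mem _ _ hx
  | zero => rw [zero_mul]; exact Submodule.zero_mem _
  | add x y _ _ hx hy => rw [add_mul]; exact Submodule.add_mem _ hx hy
  | smul c x _ hx => rw [smul_mul_assoc]; exact Submodule.smul_mem _ _ hx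

/-- An operator from two classes. -/
lemma kop_tmul {p q : ℕ} {a b : W.H P} (ha : a ∈ spanCycles W P p) (hb : b ∈ spanCycles W P q) :
    ∃ u ∈ KOp W P P ((p : ℤ) + q - P.dim), ∀ x, u x = W.tr P (a * x) • b := by
  refine ⟨W.corr (W.map (fst P P) a * W.map (snd P P) b), ?_, ?_⟩
  · rw [mem_KOp_iff]
    refine ⟨_, ?_, rfl⟩
    rw [show (P.dim : ℤ) + ((p : ℤ) + q - P.dim) = (p : ℤ) + q by ring]
    exact span_mul' (span_map ha) (span_map hb)
  · intro x
    have hb' : b ∈ W.gr P (2 * q) := span_le_gr (by push_cast; ring) hb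
    rw [corr_apply, mul_assoc, W.even_comm (W.map_mem (snd P P) hb'), ← mul_assoc, ← map_mul,
      push_snd]

/-- **The conjecture B for a smooth fibre implies the conjecture B modulo the fixed part.** -/
theorem modFixed_of_lefschetzB (hD : S.IsCyc 1 D) (hE : Y.IsCyc 1 E) (hi : IsSmoothFibre Q i)
    {L' : Y.Cycles} (hL' : Y.IsCyc 1 L') (hHL' : HardLefschetz W Y L') (hY : Inj W Y)
    {M : Y.Cycles} {L : P.Cycles} (hL : P.IsCyc 1 L)
    (hML : W.map i (W.cl Y M) = W.cl P L) (hHL : HardLefschetz W P L) (hB : LefschetzB W P L) :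
    LefschetzMod W (fixedGr W i) := by
  have hFP := fixedProjectors hD hE hi hL' hHL' hY
  have hcompl := isCompl_fixed hFP
  have hdis : ∀ x, x ∈ fixedPart W i → x ∈ fixedPerp W i → x = 0 := fun x h h' =>
    Submodule.disjoint_def.1 hcompl.disjoint x h h'
  have hR := (rop_opAlg (W := W) (X := P))
  have hLk : LinearMap.mulLeft W.K (W.cl P L) ∈ KS (ROp W P) 1 := mem_KS_iff.2 (kop_L hL)
  have hLx : ∀ c x, (LinearMap.mulLeft W.K (W.cl P L) ^ c) x = W.cl P L ^ c * x := by
    intro c x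
    rw [LinearMap.pow_mulLeft, LinearMap.mulLeft_apply]
  intro c _ hc
  obtain ⟨ν, hν, hinj⟩ := inj_of_lefschetzB hL hHL hB c hc
  obtain ⟨θ, hθ, hθ'⟩ := hR.exists_theta_of_inj hLk hHL hc (mem_KS_iff.2 hν) hinj
  refine ⟨θ, (comb_iff (d := -c) (by ring)).2 (mem_KS_iff.1 hθ), ?_⟩
  intro x hx' hx h0
  obtain ⟨z, hz, hzx⟩ := (hHL (P.dim - c) (by omega)).2 x
    (by rw [show 2 * P.dim - (P.dim - c) = P.dim + c by omega]; exact hx')
  rw [show P.dim - (P.dim - c) = c by omega] at hzx
  have h1 := hθ' z hz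
  rw [hzx] at h1
  rw [h1] at h0
  have h2 := fixed_pow hML c h0.1
  rw [hLx] at hzx
  rw [hzx] at h2
  exact hdis x h2 (mem_perp_of_gr hc hx' hx)

/-- **The conjecture B modulo the fixed part and the algebraic classes.** -/
theorem lefschetzB_of_mod (hD : S.IsCyc 1 D) (hE : Y.IsCyc 1 E) (hi : IsSmoothFibre Q i)
    {L' : Y.Cycles} (hL' : Y.IsCyc 1 L') (hHL' : HardLefschetz W Y L') (hY : Inj W Y)
    {L : P.Cycles} (hL : P.IsCyc 1 L) (hHL : HardLefschetz W P L)
    {A : ℕ → Submodule W.K (W.H P)} (hA : ∀ j, A j ≤ algSpan W P j)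
    (hB : LefschetzMod W (fun j => fixedGr W i j ⊔ A j)) : LefschetzB W P L := by
  have hFP := fixedProjectors hD hE hi hL' hHL' hY
  have hcompl := isCompl_fixed hFP
  have hdis : ∀ x, x ∈ fixedPart W i → x ∈ fixedPerp W i → x = 0 := fun x h h' =>
    Submodule.disjoint_def.1 hcompl.disjoint x h h'
  apply lefschetzB_of_inj hL hHL
  intro c hc
  rcases Nat.eq_zero_or_pos c with rfl | hc0
  · exact ⟨LinearMap.id, KOp.cast (KOp.id P) (by simp), fun a _ h => h⟩
  obtain ⟨U, hU, hU'⟩ := hB c hc0 hc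
  rw [comb_iff (d := -c) (by ring)] at hU
  obtain ⟨T, hT, h1, h2, h3, h4⟩ := exists_fib_op hD hE hi hL' hHL' hY (P.dim + c) c
    (Or.inr rfl)
  obtain ⟨π, hπ, hπ1, hπ2⟩ := exists_fixed_proj hFP
  -- the decomposition of a class
  have hdec : ∀ x, π x ∈ fixedPart W i ∧ x - π x ∈ fixedPerp W i := by
    intro x
    obtain ⟨a, ha, b, hb, rfl⟩ := Submodule.mem_sup.1
      ((codisjoint_iff.1 hcompl.codisjoint) ▸ (Submodule.mem_top : x ∈ ⊤))
    rw [map_add, hπ1 a ha, hπ2 b hb, add_zero]
    exact ⟨ha, by rwa [add_sub_cancel_left]⟩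
  have hπg : ∀ j, ∀ x ∈ W.gr P j, π x ∈ W.gr P j := by
    intro j x hx
    have := (KOp.isHom hπ) j x (by rw [grZ_natCast]; exact hx)
    rwa [show (j : ℤ) + 2 * 0 = (j : ℤ) by ring, grZ_natCast] at this
  have k1 : (LinearMap.id - π : Module.End W.K (W.H P)) ∈ KOp W P P 0 :=
    Submodule.sub_mem _ (KOp.id P) hπ
  -- the algebraic classes orthogonal to the fixed part
  set A' : Submodule W.K (W.H P) := (A (P.dim - c)).map (LinearMap.id - π) with hA'
  have hA'gr : ∀ a ∈ A', a ∈ algGr W P (P.dim - c) := by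
    rintro _ ⟨a, ha, rfl⟩
    have ha' : a ∈ algGr W P (P.dim - c) := hA _ ha
    rcases Nat.even_or_odd' (P.dim - c) with ⟨p, hp | hp⟩
    · rw [hp, algGr_even] at ha' ⊢
      have := KOp.map_span k1 ha'
      rwa [add_zero] at this
    · rw [hp, algGr_odd ⟨p, rfl⟩, Submodule.mem_bot] at ha'
      rw [ha', map_zero]
      exact Submodule.zero_mem _
  have hA'p : ∀ a ∈ A', a ∈ fixedPerp W i := by
    rintro _ ⟨a, -, rfl⟩
    exact (hdec a).2
  have hA'comm : ∀ a ∈ A', ∀ x, a * x = x * a := by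
    intro a ha x
    have ha' := hA'gr a ha
    rcases Nat.even_or_odd' (P.dim - c) with ⟨p, hp | hp⟩
    · rw [hp] at ha'
      exact W.even_comm (algGr_le _ ha') x
    · rw [hp, algGr_odd ⟨p, rfl⟩, Submodule.mem_bot] at ha'
      rw [ha', zero_mul, mul_zero]
  obtain ⟨B, hBk, hB1, hB3⟩ : ∃ B ∈ KOp W P P (-c), (∀ x, B x ∈ A') ∧
      ∀ x, B x = 0 → ∀ a ∈ A', W.tr P (a * x) = 0 := by
    rcases Nat.even_or_odd' (P.dim - c) with ⟨p, hp | hp⟩
    · have hsp : ∀ a ∈ A', a ∈ spanCycles W P p := by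
        intro a ha
        have := hA'gr a ha
        rwa [hp, algGr_even] at this
      set b := Module.finBasis W.K A' with hb
      choose u hu hux using fun j => kop_tmul (hsp (b j) (b j).2) (hsp (b j) (b j).2)
      refine ⟨∑ j, u j, ?_, ?_, ?_⟩
      · exact Submodule.sum_mem _ fun j _ => KOp.cast (hu j) (by omega)
      · intro x
        rw [LinearMap.sum_apply]
        exact Submodule.sum_mem _ fun j _ => by
          rw [hux]; exact Submodule.smul_mem _ _ (b j).2
      · intro x hx a ha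
        have h5 : ∑ j, W.tr P ((b j : W.H P) * x) • b j = 0 := by
          apply Subtype.ext
          rw [LinearMap.sum_apply] at hx
          simpa [hux] using hx
        have h6 := (Fintype.linearIndependent_iff.1 b.linearIndependent) _ h5
        have h7 := b.sum_repr ⟨a, ha⟩
        have h8 : a = ∑ j, b.repr ⟨a, ha⟩ j • (b j : W.H P) := by
          have h9 := congrArg Subtype.val h7
          refine h9.symm.trans ?_
          rw [AddSubmonoidClass.coe_finsetSum]
          rfl
        rw [h8, Finset.sum_mul, map_sum]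
        apply Finset.sum_eq_zero
        intro j _
        rw [smul_mul_assoc, map_smul, h6 j, smul_zero]
    · refine ⟨0, Submodule.zero_mem _, fun x => Submodule.zero_mem _, ?_⟩
      intro x _ a ha
      have := hA'gr a ha
      rw [hp, algGr_odd ⟨p, rfl⟩, Submodule.mem_bot] at this
      rw [this, zero_mul, map_zero]
  set U' : Module.End W.K (W.H P) := (LinearMap.id - π) ∘ₗ U ∘ₗ (LinearMap.id - π) with hU'def
  set Z : Submodule W.K (W.H P) := fixedPerp W i ⊓ W.gr P (P.dim + c) with hZ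
  obtain ⟨μ, hμ⟩ := exists_generic_sum (U' ∘ₗ Z.subtype) (B ∘ₗ Z.subtype) (by
    rintro ⟨x, hx, hx'⟩ hBx hUx
    apply Subtype.ext
    change x = 0
    have hBx' : B x = 0 := hBx
    have hπx : π x = 0 := hπ2 x hx
    obtain ⟨⟨w, hw⟩, hw'⟩ := hUx
    have hUx' : B w = U x - π (U x) := by
      have : B w = U' x := hw'
      rw [this, hU'def]
      simp only [LinearMap.comp_apply, LinearMap.sub_apply, LinearMap.id_apply, hπx, sub_zero]
    apply hU' x hx'
    · intro y hy
      obtain ⟨y1, hy1, y2, hy2, rfl⟩ := Submodule.mem_sup.1 hy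
      have e1 : W.tr P ((y2 - π y2) * x) = 0 := hB3 x hBx' _ ⟨y2, hy2, rfl⟩
      have hmem : y2 - π y2 ∈ A' := ⟨y2, hy2, rfl⟩
      rw [hA'comm _ hmem] at e1
      have e2 : y1 + y2 = y1 + π y2 + (y2 - π y2) := by abel
      rw [e2, mul_add, map_add, e1, add_zero]
      exact hx _ (Submodule.add_mem _ hy1.1 (hdec y2).1)
    · have hUg : U x ∈ W.gr P (P.dim - c) := by
        have := (KOp.isHom hU) (P.dim + c : ℕ) x (by rw [grZ_natCast]; exact hx')
        rwa [show ((P.dim + c : ℕ) : ℤ) + 2 * -(c : ℤ) = ((P.dim - c : ℕ) : ℤ) by omega,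
          grZ_natCast] at this
      have e1 : U x = π (U x) + B w := by rw [hUx']; abel
      rw [e1]
      apply Submodule.add_mem
      · exact Submodule.mem_sup_left ⟨(hdec _).1, hπg _ _ hUg⟩
      · obtain ⟨a0, ha0, ha1⟩ := hB1 w
        rw [← ha1]
        simp only [LinearMap.sub_apply, LinearMap.id_apply]
        apply Submodule.sub_mem
        · exact Submodule.mem_sup_right ha0
        · exact Submodule.mem_sup_left ⟨(hdec _).1, hπg _ _ (algGr_le _ (hA _ ha0))⟩)
  refine ⟨U' + μ • B + T ∘ₗ π, ?_, ?_⟩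
  · apply Submodule.add_mem
    · apply Submodule.add_mem
      · exact KOp.cast (KOp.comp k1 (KOp.comp hU k1)) (by ring)
      · exact Submodule.smul_mem _ _ hBk
    · exact KOp.cast (KOp.comp hT hπ) (by ring)
  · intro x hx h0
    simp only [LinearMap.add_apply, LinearMap.comp_apply, LinearMap.smul_apply] at h0
    have e1 : U' x + μ • B x ∈ fixedPerp W i := by
      apply Submodule.add_mem
      · rw [hU'def]
        exact (hdec _).2
      · exact Submodule.smul_mem _ _ (hA'p _ (hB1 x))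
    have h5 : T (π x) = 0 := by
      apply hdis _ (h2 _)
      rw [← neg_eq_of_add_eq_zero_right h0]
      exact Submodule.neg_mem _ e1
    have h6 : π x = 0 := h4 _ ⟨(hdec x).1, hπg _ _ hx⟩ h5
    rw [h5, add_zero] at h0
    have h7 := (hdec x).2
    rw [h6, sub_zero] at h7
    have h8 : (⟨x, h7, hx⟩ : Z) = 0 := hμ (by
      rw [map_zero]
      exact h0)
    exact congrArg Subtype.val h8

end

end Pool.Agent.W498.Dom
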