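import Pool.Agent.W498.Dom.Bi

/-!
# The limit of the Lefschetz operators
-/

open Finset Polynomial

set_option linter.unusedSectionVars false

namespace Pool.Agent.W498.Dom

open Pool.Agent.H914 Pool.Agent.H447

variable {K : Type*} [Field K] [CharZero K] {V : Type*} [AddCommGroup V] [Module K V]

lemma PVec.pfam {E F : Type*} [AddCommGroup E] [Module K E] [AddCommGroup F] [Module K F]
    {A : K → E →ₗ[K] F} (hA : PVec A) : PFam A := fun x l =>
  hA (l ∘ₗ LinearMap.applyₗ x)

lemma commute_scal {P : ℕ → Submodule K V} (iP : DirectSum.IsInternal P) {N : ℕ}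
    (hN : ∀ i, N ≤ i → P i = ⊥) {T : Module.End K V}
    (hT : ∀ p, proj iP p * T = T * proj iP p) (f : ℕ → K) : scal iP f * T = T * scal iP f := by
  rw [scal_eq_sum iP hN, Finset.sum_mul, Finset.mul_sum]
  apply Finset.sum_congr rfl
  intro p _
  rw [smul_mul_assoc, mul_smul_comm, hT]

namespace Setup

variable {gr P : ℕ → Submodule K V} {m : ℕ} {h e : Module.End K V} (S : Setup gr P m h e)

/-- The rescaled family. -/
noncomputable def _root_.Pool.Agent.W498.Dom.LL {P : ℕ → Submodule K V}
    (iP : DirectSum.IsInternal P) (m : ℕ) (h e : Module.End K V) (s : K) : Module.End K V :=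
  h + ∑ p ∈ range (2 * m + 1), ∑ q ∈ range (p + 3),
    s ^ (p + 2 - q) • (proj iP q * e * proj iP p)

include S

lemma pvec_LL : PVec (fun s : K => LL S.iP m h e s) := by
  apply PVec.add (PVec.const h)
  apply PVec.sum
  intro p _
  apply PVec.sum
  intro q _
  have := (PVec.const (K := K) (proj S.iP q * e * proj S.iP p)).smul (X ^ (p + 2 - q))
  simpa using this

lemma LL_zero : LL S.iP m h e 0 = h + top S.iP m e := by
  rw [LL, top]
  congr 1
  apply Finset.sum_congr rfl
  intro p _
  rw [Finset.sum_eq_single (p + 2)]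
  · simp
  · intro q hq hqp
    have : p + 2 - q ≠ 0 := by
      have := Finset.mem_range.1 hq
      omega
    rw [zero_pow this, zero_smul]
  · intro h'; exact absurd (Finset.mem_range.2 (by omega)) h'

lemma LL_apply (s : K) {p : ℕ} {v : V} (hv : v ∈ P p) : LL S.iP m h e s v =
    h v + ∑ q ∈ range (p + 3), s ^ (p + 2 - q) • proj S.iP q (e v) := by
  by_cases hp : p < 2 * m + 1
  · rw [LL, LinearMap.add_apply, LinearMap.sum_apply, Finset.sum_eq_single p]
    · rw [LinearMap.sum_apply]
      congr 1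
      apply Finset.sum_congr rfl
      intro q _
      rw [LinearMap.smul_apply, Module.End.mul_apply, Module.End.mul_apply, proj_same S.iP hv]
    · intro p' _ hp'
      rw [LinearMap.sum_apply]
      apply Finset.sum_eq_zero
      intro q _
      rw [LinearMap.smul_apply, Module.End.mul_apply, proj_ne S.iP hv (Ne.symm hp'), map_zero,
        smul_zero]
    · intro h'; exact absurd (Finset.mem_range.2 hp) h'
  · rw [S.bP p (by omega)] at hv
    rw [(Submodule.mem_bot _).1 hv]
    simp

/-- The components of `e v`. -/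
lemma e_sum {p : ℕ} {v : V} (hv : v ∈ P p) : e v = ∑ q ∈ range (p + 3), proj S.iP q (e v) := by
  have h1 := S.sumP (e v)
  have h2 : ∑ q ∈ range (2 * m + 1), proj S.iP q (e v) =
      ∑ q ∈ range (2 * m + 1 + (p + 3)), proj S.iP q (e v) := by
    apply Finset.sum_subset
    · intro x hx
      rw [Finset.mem_range] at hx ⊢
      omega
    · intro x _ hx
      have h3 := proj_mem S.iP x (e v)
      rw [S.bP x (by rw [Finset.mem_range] at hx; omega)] at h3
      exact (Submodule.mem_bot _).1 h3
  have h4 : ∑ q ∈ range (p + 3), proj S.iP q (e v) =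
      ∑ q ∈ range (2 * m + 1 + (p + 3)), proj S.iP q (e v) := by
    apply Finset.sum_subset
    · intro x hx
      rw [Finset.mem_range] at hx ⊢
      omega
    · intro x _ hx
      exact S.eP p v hv x (by rw [Finset.mem_range] at hx; omega)
  rw [h4, ← h2]
  exact h1

/-- The rescaling conjugates the family to a linear pencil. -/
lemma scal_LL (s : K) : scal S.iP (fun p => s ^ p) * LL S.iP m h e s =
    (h + s ^ 2 • e) * scal S.iP (fun p => s ^ p) := by
  apply gr_ext S.iP
  intro p v hv
  rw [Module.End.mul_apply, Module.End.mul_apply, scal_apply S.iP _ hv, S.LL_apply s hv, map_add,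
    scal_apply S.iP _ (S.hP p v hv), map_smul, LinearMap.add_apply, smul_add]
  congr 1
  rw [LinearMap.smul_apply, map_sum]
  conv_rhs => rw [S.e_sum hv]
  rw [Finset.smul_sum, Finset.smul_sum]
  apply Finset.sum_congr rfl
  intro q hq
  rw [map_smul, scal_apply S.iP _ (proj_mem S.iP q (e v)), smul_smul, smul_smul, ← pow_add,
    ← pow_add]
  congr 2
  have := Finset.mem_range.1 hq
  omega

lemma scal_inv {s : K} (hs : s ≠ 0) :
    scal S.iP (fun p => s ^ p) * scal S.iP (fun p => (s ^ p)⁻¹) = 1 := by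
  rw [scal_mul, ← scal_one S.iP]
  congr 1
  funext p
  exact mul_inv_cancel₀ (pow_ne_zero p hs)

lemma inv_scal {s : K} (hs : s ≠ 0) :
    scal S.iP (fun p => (s ^ p)⁻¹) * scal S.iP (fun p => s ^ p) = 1 := by
  rw [scal_mul, ← scal_one S.iP]
  congr 1
  funext p
  exact inv_mul_cancel₀ (pow_ne_zero p hs)

/-- Conjugation. -/
lemma LL_eq {s : K} (hs : s ≠ 0) : LL S.iP m h e s =
    scal S.iP (fun p => (s ^ p)⁻¹) * (h + s ^ 2 • e) * scal S.iP (fun p => s ^ p) := by
  rw [mul_assoc, ← S.scal_LL, ← mul_assoc, S.inv_scal hs, one_mul]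

lemma LL_pow {s : K} (hs : s ≠ 0) (c : ℕ) : LL S.iP m h e s ^ c =
    scal S.iP (fun p => (s ^ p)⁻¹) * (h + s ^ 2 • e) ^ c * scal S.iP (fun p => s ^ p) := by
  induction c with
  | zero => rw [pow_zero, pow_zero, mul_one, S.inv_scal hs]
  | succ c ih =>
    rw [pow_succ (LL S.iP m h e s) c, ih, S.LL_eq hs, pow_succ (h + s ^ 2 • e) c]
    calc scal S.iP (fun p => (s ^ p)⁻¹) * (h + s ^ 2 • e) ^ c * scal S.iP (fun p => s ^ p) *
          (scal S.iP (fun p => (s ^ p)⁻¹) * (h + s ^ 2 • e) * scal S.iP (fun p => s ^ p))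
        = scal S.iP (fun p => (s ^ p)⁻¹) * (h + s ^ 2 • e) ^ c * (scal S.iP (fun p => s ^ p) *
          scal S.iP (fun p => (s ^ p)⁻¹)) * (h + s ^ 2 • e) * scal S.iP (fun p => s ^ p) := by
          noncomm_ring
      _ = _ := by rw [S.scal_inv hs]; noncomm_ring

lemma scal_gr (f : ℕ → K) {j : ℕ} {v : V} (hv : v ∈ gr j) : scal S.iP f v ∈ gr j := by
  rw [scal_eq_sum S.iP S.bP, LinearMap.sum_apply]
  apply Submodule.sum_mem
  intro p _
  rw [LinearMap.smul_apply]
  exact Submodule.smul_mem _ _ (S.projP_gr hv p)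

lemma wt_scal (f : ℕ → K) : wt S.igr m * scal S.iP f = scal S.iP f * wt S.igr m := by
  rw [scal_eq_sum S.iP S.bP, Finset.sum_mul, Finset.mul_sum]
  apply Finset.sum_congr rfl
  intro p _
  rw [smul_mul_assoc, mul_smul_comm, S.wt_projP]

/-- Transport of triples to the rescaled family. -/
lemma sl2_conj {s : K} (hs : s ≠ 0) {f : Module.End K V}
    (t : Sl2 (wt S.igr m) (h + s ^ 2 • e) f) :
    Sl2 (wt S.igr m) (LL S.iP m h e s)
      (scal S.iP (fun p => (s ^ p)⁻¹) * f * scal S.iP (fun p => s ^ p)) := by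
  set D := scal S.iP (fun p => s ^ p) with hD
  set D' := scal S.iP (fun p => (s ^ p)⁻¹) with hD'
  have e1 : D * D' = 1 := S.scal_inv hs
  have e2 : D' * D = 1 := S.inv_scal hs
  have e3 : wt S.igr m * D = D * wt S.igr m := S.wt_scal _
  have e4 : wt S.igr m * D' = D' * wt S.igr m := S.wt_scal _
  have e5 : LL S.iP m h e s = D' * (h + s ^ 2 • e) * D := S.LL_eq hs
  set T := h + s ^ 2 • e with hT
  set H := wt S.igr m with hH
  have e6 : H = D' * H * D := by rw [← e4, mul_assoc, e2, mul_one]
  constructor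
  · rw [e5]
    calc D' * T * D * (D' * f * D) - D' * f * D * (D' * T * D)
        = D' * T * (D * D') * f * D - D' * f * (D * D') * T * D := by noncomm_ring
      _ = D' * (T * f - f * T) * D := by rw [e1]; noncomm_ring
      _ = H := by rw [t.ef, ← e6]
  · rw [e5]
    calc H * (D' * T * D) - D' * T * D * H
        = (H * D') * T * D - D' * T * (D * H) := by noncomm_ring
      _ = D' * (H * T - T * H) * D := by rw [e4, ← e3]; noncomm_ring
      _ = 2 * (D' * T * D) := by rw [t.he]; noncomm_ring
  · calc H * (D' * f * D) - D' * f * D * H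
        = (H * D') * f * D - D' * f * (D * H) := by noncomm_ring
      _ = D' * (H * f - f * H) * D := by rw [e4, ← e3]; noncomm_ring
      _ = -(2 * (D' * f * D)) := by rw [t.hf]; noncomm_ring

/-- The lowering operators form a rational family. -/
lemma exists_family [Module.Finite K V] : ∃ (q : K[X]) (A : K → Module.End K V), q.eval 0 ≠ 0 ∧
    PVec A ∧ ∀ s f, Sl2 (wt S.igr m) (LL S.iP m h e s) f → q.eval s • f = A s := by
  obtain ⟨Λ, Λ', -, -, -, t⟩ := S.exists_sl2_both
  set H := wt S.igr m with hH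
  let sys : K → Module.End K V →ₗ[K] (Module.End K V × Module.End K V) := fun s =>
    LinearMap.prod (LinearMap.mulLeft K (LL S.iP m h e s) - LinearMap.mulRight K (LL S.iP m h e s))
      (LinearMap.mulLeft K H - LinearMap.mulRight K H + (2 : K) • LinearMap.id)
  have hsys : ∀ s x, sys s x = (LL S.iP m h e s * x - x * LL S.iP m h e s,
      H * x - x * H + (2 : K) • x) := fun s x => rfl
  have hfam : PFam sys := by
    intro x
    have h1 : (fun s => sys s x) = fun s => (LinearMap.inl K (Module.End K V) (Module.End K V) ∘ₗ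
        (LinearMap.mulRight K x - LinearMap.mulLeft K x)) (LL S.iP m h e s) +
        ((0 : Module.End K V), H * x - x * H + (2 : K) • x) := by
      funext s
      rw [hsys]
      simp
    rw [h1]
    exact (S.pvec_LL.map _).add (PVec.const _)
  have hinj : Function.Injective (sys 0) := by
    rw [← LinearMap.ker_eq_bot, LinearMap.ker_eq_bot']
    intro x hx
    rw [hsys, S.LL_zero] at hx
    have h1 := congrArg Prod.fst hx
    have h2 := congrArg Prod.snd hx
    simp only [Prod.fst_zero, Prod.snd_zero] at h1 h2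
    have t' := Pool.Agent.W537.sl2_adL (K := K) t
    apply e_pow_inj t' (c := 2)
    · rw [Pool.Agent.W537.adL_apply, ← sub_eq_zero]
      rw [← h2]
      push_cast
      rw [neg_smul, sub_neg_eq_add]
    · have h3 : (Pool.Agent.W537.adL K (h + top S.iP m e)) x = 0 := by
        rw [Pool.Agent.W537.adL_apply, h1]
      rw [pow_two, Module.End.mul_apply, h3, map_zero]
  obtain ⟨q, A, hq, hA, hqA⟩ := hfam.solve hinj (H, 0)
  refine ⟨q, A, hq, hA, fun s f tf => hqA s f ?_⟩
  rw [hsys, tf.ef, tf.hf]
  have h3 : -(2 * f) + (2 : K) • f = 0 := by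
    have : (2 : K) • f = 2 * f := by
      rw [ofNat_smul_eq_nsmul, nsmul_eq_mul]; rfl
    rw [this]; exact neg_add_cancel _
  rw [h3]

end Setup

/-- The second space. -/
structure MapSetup {U : Type*} [AddCommGroup U] [Module K U] (gr P : ℕ → Submodule K V)
    (grU : ℕ → Submodule K U) (n r : ℕ) (h e : Module.End K V) (hU : Module.End K U)
    (φ : U →ₗ[K] V) (ψ : V →ₗ[K] U) (δ : K) : Prop where
  iU : DirectSum.IsInternal grU
  bU : ∀ i, 2 * n + 1 ≤ i → grU i = ⊥
  hUgr : IsHom grU 2 hU
  hlU : HardLef grU n hU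
  φP : ∀ u, φ u ∈ P n
  φgr : ∀ i, ∀ u ∈ grU i, φ u ∈ gr i
  hφ : ∀ u, h (φ u) = φ (hU u)
  ψP : ∀ p, p ≠ n + 2 * r → ∀ v ∈ P p, ψ v = 0
  ψφ : ∀ u, ψ ((e ^ r) (φ u)) = δ • u
  δ0 : δ ≠ 0

namespace MapSetup

variable {U : Type*} [AddCommGroup U] [Module K U] {gr P : ℕ → Submodule K V}
    {grU : ℕ → Submodule K U} {n r : ℕ} {h e : Module.End K V} {hU : Module.End K U}
    {φ : U →ₗ[K] V} {ψ : V →ₗ[K] U} {δ : K} (S : Setup gr P (n + r) h e)
    (M : MapSetup gr P grU n r h e hU φ ψ δ)

include S M

/-- The map intertwines the lowering operators. -/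
lemma intertwine [Module.Finite K V] [Module.Finite K U] {Λ : Module.End K V}
    (t : Sl2 (Ha S.igr S.iP (n + r)) h Λ)
    {ΛU : Module.End K U} (tU : Sl2 (wt M.iU n) hU ΛU) (u : U) : Λ (φ u) = φ (ΛU u) := by
  have tt : Sl2 (LinearMap.prodMap (Ha S.igr S.iP (n + r)) (wt M.iU n)) (LinearMap.prodMap h hU)
      (LinearMap.prodMap Λ ΛU) := by
    constructor
    · apply LinearMap.ext
      rintro ⟨v, u⟩
      have h1 := congrArg (fun F => F v) t.ef
      have h2 := congrArg (fun F => F u) tU.ef
      simp only [LinearMap.sub_apply, Module.End.mul_apply] at h1 h2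
      simp [h1, h2]
    · apply LinearMap.ext
      rintro ⟨v, u⟩
      have h1 := congrArg (fun F => F v) t.he
      have h2 := congrArg (fun F => F u) tU.he
      simp only [LinearMap.sub_apply, Module.End.mul_apply, two_mul, LinearMap.add_apply] at h1 h2
      simp [h1, h2, two_mul]
    · apply LinearMap.ext
      rintro ⟨v, u⟩
      have h1 := congrArg (fun F => F v) t.hf
      have h2 := congrArg (fun F => F u) tU.hf
      simp only [LinearMap.sub_apply, Module.End.mul_apply, two_mul, LinearMap.add_apply,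
        LinearMap.neg_apply] at h1 h2
      simp [h1, h2, two_mul]
  set T : Module.End K (V × U) := LinearMap.inl K V U ∘ₗ φ ∘ₗ LinearMap.snd K V U with hT
  have hTa : ∀ v u, T (v, u) = (φ u, 0) := fun v u => rfl
  have hw : ∀ u, Ha S.igr S.iP (n + r) (φ u) = φ (wt M.iU n u) := by
    intro u
    refine gr_induction M.iU (p := fun u => Ha S.igr S.iP (n + r) (φ u) = φ (wt M.iU n u)) ?_ ?_ u
    · intro i a ha
      rw [S.Ha_apply (M.φP a) (M.φgr i a ha), wt_apply _ _ ha, map_smul]
    · intro a b ha hb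
      rw [map_add, map_add, ha, hb, map_add, map_add]
  have hc := comm_f tt (T := T)
    (by
      apply LinearMap.ext
      rintro ⟨v, u⟩
      rw [Module.End.mul_apply, Module.End.mul_apply, hTa]
      simp [hTa, hw])
    (by
      apply LinearMap.ext
      rintro ⟨v, u⟩
      rw [Module.End.mul_apply, Module.End.mul_apply, hTa]
      simp [hTa, M.hφ])
  have h1 := congrArg (fun F => F ((0 : V), u)) hc
  simp only [Module.End.mul_apply] at h1
  rw [hTa] at h1
  simp only [LinearMap.prodMap_apply, map_zero] at h1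
  rw [hTa] at h1
  exact (congrArg Prod.fst h1).symm

end MapSetup

end Pool.Agent.W498.Dom
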