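import Pool.Agent.W498.Dom.SingleMain

/-!
# Ranks of the spans of algebraic classes and dominant morphisms
-/

open CategoryTheory AlgebraicGeometry Finset

set_option linter.unusedSectionVars false

universe u v

namespace Pool.Agent.W498.Dom

open Pool.Agent.H914 Pool.Agent.H447 VarClass Obj WeilCohomology Pool.Agent.W534

section Lin

variable {K V V' : Type*} [Field K] [AddCommGroup V] [Module K V] [AddCommGroup V'] [Module K V']

lemma finrank_le_of_inj [Module.Finite K V] [Module.Finite K V'] {A : Submodule K V}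
    {B : Submodule K V'} {T : V →ₗ[K] V'} (hT : ∀ x ∈ A, T x ∈ B)
    (hinj : ∀ x ∈ A, T x = 0 → x = 0) : Module.finrank K A ≤ Module.finrank K B := by
  have h1 := finrank_eq_of_surj (A := A) (B := A.map T) (T := T)
    (fun x hx => ⟨x, hx, rfl⟩) hinj (by rintro _ ⟨x, hx, rfl⟩; exact ⟨x, hx, rfl⟩)
  rw [h1]
  apply Submodule.finrank_mono
  rintro _ ⟨x, hx, rfl⟩
  exact hT x hx

end Lin

variable {k : Type u} [Field k] {𝒱 : VarClass k} {ops : CycleOps 𝒱}
  {W : WeilCohomology.{u, v} ops} {Y X : 𝒱.Obj} {f : Y ⟶ X} {D : X.Cycles} {E : Y.Cycles}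

/-- Surjectivity on the algebraic classes from the symmetry of the ranks, in one codimension. -/
lemma surj_of_rank {T : Module.End W.K (W.H Y)}
    (hT : ∀ q, ∀ a ∈ spanCycles W Y q, T a ∈ spanCycles W Y (q + 1))
    (hHL : HardLef (W.gr Y) Y.dim T) {j c : ℕ} (hj : 2 * j + c = Y.dim)
    (hr : cycleRank W Y j = cycleRank W Y (j + c)) :
    ∀ b ∈ spanCycles W Y (j + c), ∃ a ∈ spanCycles W Y j, (T ^ c) a = b := by
  apply surj_of_finrank_eq (fun x hx => span_pow hT c hx) _ hr
  intro x hx h0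
  apply (hHL (2 * j) (by omega)).1 x (span_le_gr (by push_cast; ring) hx)
  rw [show Y.dim - 2 * j = c by omega]
  exact h0

lemma rank_le {T : Module.End W.K (W.H Y)}
    (hT : ∀ q, ∀ a ∈ spanCycles W Y q, T a ∈ spanCycles W Y (q + 1))
    (hHL : HardLef (W.gr Y) Y.dim T) {j c : ℕ} (hj : 2 * j + c = Y.dim) :
    cycleRank W Y j ≤ cycleRank W Y (j + c) := by
  apply finrank_le_of_inj (T := T ^ c) (fun x hx => span_pow hT c hx)
  intro x hx h0
  apply (hHL (2 * j) (by omega)).1 x (span_le_gr (by push_cast; ring) hx)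
  rw [show Y.dim - 2 * j = c by omega]
  exact h0

lemma rank_zero (h1 : (1 : W.H X) = 0) (q : ℤ) : cycleRank W X q = 0 := by
  have h2 : ∀ a : W.H X, a = 0 := fun a => by rw [← mul_one a, h1, mul_zero]
  have h3 : spanCycles W X q = ⊥ := by
    rw [eq_bot_iff]
    intro a _
    rw [h2 a]
    exact Submodule.zero_mem _
  rw [cycleRank, h3, finrank_bot]

/-- **The symmetry of the ranks descends along dominant morphisms.** -/
theorem ranks_of_dominant (Q : PerverseDecomposition W f D E) (hD : X.IsCyc 1 D)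
    (hE : Y.IsCyc 1 E) (hHL : HardLefschetz W X D) (hf : IsDominant ops f)
    (hY : ∀ j c, 2 * j + c = Y.dim → cycleRank W Y j = cycleRank W Y (j + c)) :
    ∀ j c, 2 * j + c = X.dim → cycleRank W X j = cycleRank W X (j + c) := by
  intro j c hjc
  by_cases h1 : (1 : W.H X) = 0
  · rw [rank_zero h1, rank_zero h1]
  apply le_antisymm
  · exact rank_le (fun q a ha => span_mul hD ha) hHL hjc
  obtain ⟨r, hr⟩ : ∃ r, Y.dim = X.dim + r := ⟨Y.dim - X.dim, by
    have := dim_le Q hD hE hHL hf h1; omega⟩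
  have S := setup Q hD hE hr
  obtain ⟨δ, M⟩ := exists_mapSetup Q hD hE hHL hf h1 hr
  have hdim : ∀ c ≤ X.dim + r, Module.finrank W.K (W.gr Y (X.dim + r - c)) =
      Module.finrank W.K (W.gr Y (X.dim + r + c)) := by
    intro c hc
    have := betti_symm (X := Y) W (i := X.dim + r - c) (by omega)
    rw [show 2 * Y.dim - (X.dim + r - c) = X.dim + r + c by omega] at this
    exact this.symm
  obtain ⟨s, hs, hl1, hl2, hcore⟩ := M.core S hdim c
  have key : ∀ a : W.K, HardLef (W.gr Y) (X.dim + r) (hop W f D + a • eop W Y E) →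
      ∃ F, Sl2 (wt (W.isInternal Y) Y.dim) (hop W f D + a • eop W Y E) F ∧
        IsHom (algGr W Y) (-2) F := by
    intro a hl
    rw [← hr] at hl
    have hT := span_pencil (W := W) (f := f) hD hE a
    apply exists_stable_lower (W.isInternal Y) W_hbd _ hl algGr_le (isHom_algGr hT)
    · intro c' hc' b hb
      rcases Nat.even_or_odd' (Y.dim - c') with ⟨p, hp | hp⟩
      · have h2 : Y.dim + c' = 2 * (p + c') := by omega
        rw [h2, algGr_even] at hb
        rw [hp, algGr_even]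
        exact surj_of_rank hT hl (j := p) (c := c') (by omega) (hY p c' (by omega)) b
          (by rwa [Nat.cast_add] at hb)
      · rw [algGr_odd (i := Y.dim + c') ⟨p + c', by omega⟩] at hb
        refine ⟨0, Submodule.zero_mem _, ?_⟩
        rw [(Submodule.mem_bot _).1 hb, map_zero]
    · exact (isHom_hop hD).add ((isHom_mulLeft W hE).smul _)
  obtain ⟨F1, t1, hF1⟩ := key _ hl1
  obtain ⟨F2, t2, hF2⟩ := key _ hl2
  set Ξ := (3 : W.K)⁻¹ • ((4 : W.K) • F2 - F1) with hΞ
  have hΞk : IsHom (algGr W Y) (-2) Ξ := ((hF2.smul _).sub hF1).smul _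
  have hEr : IsHom (algGr W Y) 2 (eop W Y E) := isHom_algGr (fun q a ha => span_mul hE ha)
  have hmem : ∀ a ∈ algGr W X (X.dim + c),
      W.push f ((eop W Y E ^ r) ((Ξ ^ c) (W.map f a))) ∈ algGr W X (X.dim - c) := by
    intro a ha
    have h2 := algGr_map (f := f) ha
    rw [← grZ_natCast (gr := algGr W Y)] at h2
    have h3 := (hEr.pow r) _ _ ((hΞk.pow c) _ _ h2)
    rw [show ((X.dim + c : ℕ) : ℤ) + (c : ℤ) * -2 + (r : ℤ) * 2 =
      ((X.dim - c + 2 * r : ℕ) : ℤ) by omega, grZ_natCast] at h3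
    exact algGr_push (by omega) h3
  have h4 := finrank_le_of_inj (A := algGr W X (X.dim + c)) (B := algGr W X (X.dim - c))
    (T := W.push f ∘ₗ (eop W Y E ^ r) ∘ₗ (Ξ ^ c) ∘ₗ (W.map f).toLinearMap) hmem (by
      intro a ha h0
      have hw : ∀ m (hm : Y.dim = m), wt (W.isInternal Y) Y.dim = wt (setup Q hD hE hm).igr m := by
        intro m hm; subst hm; rfl
      apply hcore F1 F2 _ _ a (algGr_le _ ha) h0
      · rw [← hw _ hr]; exact t1
      · rw [← hw _ hr]; exact t2)
  rw [show X.dim + c = 2 * (j + c) by omega, show X.dim - c = 2 * j by omega, algGr_even,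
    algGr_even] at h4
  rw [cycleRank, cycleRank]
  rwa [Nat.cast_add] at h4

/-! ### One codimension -/

lemma proj_smul (Q : PerverseDecomposition W f D E) (p : ℕ) (u : W.H X) (x : W.H Y) :
    proj Q.isInternal p (W.map f u * x) = W.map f u * proj Q.isInternal p x := by
  refine gr_induction Q.isInternal
    (p := fun x => proj Q.isInternal p (W.map f u * x) = W.map f u * proj Q.isInternal p x) ?_ ?_ x
  · intro q a ha
    by_cases hq : q = p
    · subst hq
      rw [proj_same _ ha, proj_same _ (Q.smul_mem q u a ha)]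
    · rw [proj_ne _ ha hq, proj_ne _ (Q.smul_mem q u a ha) hq, mul_zero]
  · intro a b ha hb
    rw [mul_add, map_add, map_add, mul_add, ha, hb]

/-- The vanishing of the perverse components of the powers of `E` in large degrees. -/
lemma proj_E_pow (Q : PerverseDecomposition W f D E) (hD : X.IsCyc 1 D) (hE : Y.IsCyc 1 E) {r : ℕ}
    (hr : Y.dim = X.dim + r) :
    proj Q.isInternal (X.dim + 2 * (r + 1)) (W.cl Y E ^ (r + 1)) = 0 := by
  have S := setup Q hD hE rfl
  have h1 : W.cl Y E ^ (r + 1) ∈ W.gr Y (2 * (r + 1)) := xi_mem hE (r + 1)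
  have h2 : proj Q.isInternal (X.dim + 2 * (r + 1)) (W.cl Y E ^ (r + 1)) ∈
      W.gr Y (2 * (r + 1)) := S.projP_gr h1 _
  apply (Q.hardLef (X.dim + 2 * (r + 1)) (2 * (r + 1)) (by omega)).1 _ ⟨proj_mem _ _ _, h2⟩
  rw [show X.dim + 2 * (r + 1) - 2 * (r + 1) = X.dim by omega]
  have h3 := pow_L_mem (isHom_hop (W := W) (f := f) hD) h2 X.dim
  rw [W.gr_eq_bot Y _ (by omega)] at h3
  exact (Submodule.mem_bot _).1 h3

lemma top_vanish (Q : PerverseDecomposition W f D E) (hD : X.IsCyc 1 D) (hE : Y.IsCyc 1 E)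
    (hHL : HardLefschetz W X D) (hf : IsDominant ops f) (h1 : (1 : W.H X) ≠ 0) {r : ℕ}
    (hr : Y.dim = X.dim + r) (u : W.H X) :
    (top Q.isInternal (X.dim + r) (eop W Y E) ^ (r + 1)) (W.map f u) = 0 := by
  have S := setup Q hD hE hr
  rw [top_pow' Q.isInternal S.bP S.eP (map_piece Q hD hE hHL hf h1 u) (r + 1), eop_pow,
    W.even_comm (xi_mem hE (r + 1)), proj_smul, proj_E_pow Q hD hE hr, mul_zero]

/-- **The symmetry of the ranks in one codimension.** -/
theorem rank_single (Q : PerverseDecomposition W f D E) (hD : X.IsCyc 1 D)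
    (hE : Y.IsCyc 1 E) (hHL : HardLefschetz W X D) (hf : IsDominant ops f) {r : ℕ}
    (hr : Y.dim = X.dim + r) {j : ℕ} (hj : 2 * j + r < X.dim)
    (hY : cycleRank W Y (j + r : ℕ) = cycleRank W Y (X.dim - j : ℕ)) :
    cycleRank W X j = cycleRank W X (X.dim - j : ℕ) := by
  obtain ⟨w, hw⟩ : ∃ w, X.dim = 2 * j + r + (w + 1) := ⟨X.dim - 2 * j - r - 1, by omega⟩
  by_cases h1 : (1 : W.H X) = 0
  · rw [rank_zero h1, rank_zero h1]
  apply le_antisymm
  · have := rank_le (W := W) (fun q a ha => span_mul hD ha) hHL (j := j) (c := w + 1 + r) (by omega)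
    rwa [show ((X.dim - j : ℕ) : ℤ) = (j : ℤ) + ((w + 1 + r : ℕ) : ℤ) by omega]
  have S := setup Q hD hE hr
  obtain ⟨δ, M⟩ := exists_mapSetup Q hD hE hHL hf h1 hr
  have hdim : ∀ c ≤ X.dim + r, Module.finrank W.K (W.gr Y (X.dim + r - c)) =
      Module.finrank W.K (W.gr Y (X.dim + r + c)) := by
    intro c hc
    have := betti_symm (X := Y) W (i := X.dim + r - c) (by omega)
    rw [show 2 * Y.dim - (X.dim + r - c) = X.dim + r + c by omega] at this
    exact this.symm
  obtain ⟨s, hs, hl, hcore⟩ := M.core_single S hdim (top_vanish Q hD hE hHL hf h1 hr) w (by omega)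
  set T := hop W f D + s ^ 2 • eop W Y E with hTdef
  have hT : ∀ q, ∀ a ∈ spanCycles W Y q, T a ∈ spanCycles W Y (q + 1) := span_pencil hD hE _
  have hl' : HardLef (W.gr Y) Y.dim T := by rw [hr]; exact hl
  -- surjectivity
  have hsurj := surj_of_rank hT hl' (j := j + r) (c := w + 1) (by omega) (by
    rw [hY]
    congr 1
    omega)
  set A := spanCycles W Y ((j + r : ℕ) : ℤ) with hA
  set C := spanCycles W X ((X.dim - j : ℕ) : ℤ) with hC
  have hCmap : ∀ y ∈ C, W.map f y ∈ spanCycles W Y (((j + r : ℕ) : ℤ) + ((w + 1 : ℕ) : ℤ)) := by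
    intro y hy
    have := span_map (f := f) hy
    rwa [show ((X.dim - j : ℕ) : ℤ) = ((j + r : ℕ) : ℤ) + ((w + 1 : ℕ) : ℤ) by omega] at this
  set B := C.map (W.map f).toLinearMap with hB
  set A' := A ⊓ B.comap (T ^ (w + 1)) with hA'
  have hTinj : ∀ x ∈ A, (T ^ (w + 1)) x = 0 → x = 0 := by
    intro x hx h0
    apply (hl' (2 * (j + r)) (by omega)).1 x (span_le_gr (by push_cast; ring) hx)
    rw [show Y.dim - 2 * (j + r) = w + 1 by omega]
    exact h0
  have e1 : Module.finrank W.K A' = Module.finrank W.K B := by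
    apply finrank_eq_of_surj (A := A') (B := B) (T := T ^ (w + 1))
      (fun x hx => (Submodule.mem_inf.1 hx).2)
      (fun x hx => hTinj x (Submodule.mem_inf.1 hx).1)
    rintro _ ⟨y, hy, rfl⟩
    obtain ⟨x, hx, hxy⟩ := hsurj _ (hCmap y hy)
    refine ⟨x, Submodule.mem_inf.2 ⟨hx, ?_⟩, hxy⟩
    rw [Submodule.mem_comap, hxy]
    exact ⟨y, hy, rfl⟩
  have e2 : Module.finrank W.K C = Module.finrank W.K B := by
    apply finrank_eq_of_surj (A := C) (B := B) (T := (W.map f).toLinearMap)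
      (fun x hx => ⟨x, hx, rfl⟩) (fun x _ h0 => map_inj hf h0)
    rintro _ ⟨y, hy, rfl⟩
    exact ⟨y, hy, rfl⟩
  have e3 : Module.finrank W.K A' ≤ Module.finrank W.K (spanCycles W X (j : ℤ)) := by
    apply finrank_le_of_inj (T := W.push f)
    · intro x hx
      exact span_push (by push_cast; omega) (by omega) hx.1
    · rintro x ⟨hx, y, hy, hxy⟩ h0
      have h2 : y ∈ W.gr X (X.dim + (w + 1 + r)) := span_le_gr (by omega) hy
      have h3 : x ∈ W.gr Y (X.dim + r - (w + 1)) := span_le_gr (by omega) hx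
      have h4 := hcore y h2 x h3 hxy.symm h0
      apply hTinj x hx
      rw [← hxy, h4, map_zero]
  rw [cycleRank, cycleRank, ← hC, e2, ← e1]
  exact e3

/-- **One power of the Lefschetz operator.** -/
theorem inj_single (Q : PerverseDecomposition W f D E) (hD : X.IsCyc 1 D)
    (hE : Y.IsCyc 1 E) (hHL : HardLefschetz W X D) (hf : IsDominant ops f) {r : ℕ}
    (hr : Y.dim = X.dim + r) {w : ℕ} (hw : w + 1 + r ≤ X.dim)
    (hν : ∃ ν ∈ KOp W Y Y (-(w + 1 : ℕ)), ∀ a ∈ W.gr Y (Y.dim + (w + 1)), ν a = 0 → a = 0) :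
    ∃ ν ∈ KOp W X X (-(w + 1 + r : ℕ)), ∀ a ∈ W.gr X (X.dim + (w + 1 + r)), ν a = 0 → a = 0 := by
  by_cases h1 : (1 : W.H X) = 0
  · refine ⟨0, Submodule.zero_mem _, fun a _ _ => ?_⟩
    rw [← mul_one a, h1, mul_zero]
  have S := setup Q hD hE hr
  obtain ⟨δ, M⟩ := exists_mapSetup Q hD hE hHL hf h1 hr
  have hdim : ∀ c ≤ X.dim + r, Module.finrank W.K (W.gr Y (X.dim + r - c)) =
      Module.finrank W.K (W.gr Y (X.dim + r + c)) := by
    intro c hc
    have := betti_symm (X := Y) W (i := X.dim + r - c) (by omega)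
    rw [show 2 * Y.dim - (X.dim + r - c) = X.dim + r + c by omega] at this
    exact this.symm
  obtain ⟨s, hs, hl, hcore⟩ := M.core_single S hdim (top_vanish Q hD hE hHL hf h1 hr) w hw
  set T := hop W f D + s ^ 2 • eop W Y E with hTdef
  have hl' : HardLef (W.gr Y) Y.dim T := by rw [hr]; exact hl
  have hTk : T ∈ KOp W Y Y 1 :=
    Submodule.add_mem _ (kop_hop hD) (Submodule.smul_mem _ _ (Pool.Agent.W534.kop_L hE))
  have hTh : IsHom (W.gr Y) 2 T := (isHom_hop hD).add ((isHom_mulLeft W hE).smul _)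
  have hR := (rop_opAlg (W := W) (X := Y))
  obtain ⟨ν, hν, hinj⟩ := hν
  obtain ⟨θ, hθ, hθT⟩ := hR.exists_theta_of_inj (mem_KS_iff.2 hTk) hl' (c := w + 1) (by omega)
    (mem_KS_iff.2 hν) hinj
  rw [mem_KS_iff] at hθ
  refine ⟨W.push f ∘ₗ θ ∘ₗ (W.map f).toLinearMap, ?_, ?_⟩
  · have k1 := (Pool.Agent.W534.qop_pull (W := W) f).kop
    have k2 := (Pool.Agent.W534.qop_push (W := W) f).kop
    refine KOp.cast (KOp.comp k2 (KOp.comp hθ k1)) ?_
    rw [hr]; push_cast; ring
  · intro a ha h0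
    have h2 := W.map_mem f ha
    obtain ⟨x, hx, hxa⟩ := (hl' (Y.dim - (w + 1)) (by omega)).2 (W.map f a) (by
      rw [show 2 * Y.dim - (Y.dim - (w + 1)) = X.dim + (w + 1 + r) by omega]; exact h2)
    rw [show Y.dim - (Y.dim - (w + 1)) = w + 1 by omega] at hxa
    have h3 : θ (W.map f a) = x := by rw [← hxa]; exact hθT x hx
    apply hcore a ha x (by rwa [show X.dim + r - (w + 1) = Y.dim - (w + 1) by omega]) hxa
    rw [← h3]
    exact h0

end Pool.Agent.W498.Dom
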