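import Pool.Agent.W498.Dom.FixDefs

/-!
# Lowering operators along the base and along the fibres: definitions
-/

open CategoryTheory AlgebraicGeometry

universe u v

namespace Pool.Agent.W498.Dom

open Pool.Agent.H914 VarClass Obj WeilCohomology

section Alg

variable {K V : Type*} [Field K] [AddCommGroup V] [Module K V]

/-- Let `V_{≤ p}` be the sum of the `P q` with `q ≤ p`, and `V_{< p}` the sum of those with `q < p`.
The operator `x` preserves the subspaces `V_{≤ p}`, and the commutator of `h` and `x` is
multiplication by `j - p` on the part of degree `j` of `V_{≤ p} / V_{< p}`. -/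
def LowersBase (gr P : ℕ → Submodule K V) (h x : Module.End K V) : Prop :=
  ∀ p j, ∀ v ∈ below P (p + 1) ⊓ gr j, x v ∈ below P (p + 1) ∧
    h (x v) - x (h v) - ((j : K) - p) • v ∈ below P p

/-- Let `V_{≤ p}` be the sum of the `P q` with `q ≤ p`, and `V_{< p}` the sum of those with `q < p`.
The operator `y` maps `V_{≤ p}` to `V_{≤ p - 2}`, and the commutator of `e` and `y` is
multiplication by `p - m` on `V_{≤ p} / V_{< p}`. -/
def LowersFibre (P : ℕ → Submodule K V) (m : ℕ) (e y : Module.End K V) : Prop :=
  ∀ p, ∀ v ∈ below P (p + 1), y v ∈ below P (p - 1) ∧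
    e (y v) - y (e v) - ((p : K) - m) • v ∈ below P p

/-- The operator `x` maps the part of degree `p + c` of `V_{≤ p}` to `V_{≤ p}`, and only elements
of `V_{< p}` to `V_{< p}`. -/
def InjectsBase (gr P : ℕ → Submodule K V) (p c : ℕ) (x : Module.End K V) : Prop :=
  ∀ v ∈ below P (p + 1) ⊓ gr (p + c), x v ∈ below P (p + 1) ∧
    (x v ∈ below P p → v ∈ below P p)

/-- The operator `y` maps `V_{< a}` to `V_{< a - 2 c}` for all `a`, and among the elements of
`V_{≤ m + c}` only those of `V_{< m + c}` to `V_{< m - c}`. -/
def InjectsFibre (P : ℕ → Submodule K V) (m c : ℕ) (y : Module.End K V) : Prop :=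
  (∀ a, ∀ v ∈ below P a, y v ∈ below P (a - 2 * c)) ∧
    ∀ v ∈ below P (m + c + 1), y v ∈ below P (m - c) → v ∈ below P (m + c)

/-- The operators `π p` are pairwise orthogonal projectors, zero for `p > N` and with sum the
identity, and for each `a` the sum of the `P q` with `q < a` is the sum of the images of the `π q`
with `q < a`. -/
def Splits (P : ℕ → Submodule K V) (N : ℕ) (π : ℕ → Module.End K V) : Prop :=
  (∀ p q, π p * π q = if p = q then π p else 0) ∧ (∀ p, N < p → π p = 0) ∧
    ∑ p ∈ Finset.range (N + 1), π p = 1 ∧ ∀ a, below P a = below (fun q => LinearMap.range (π q)) a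

end Alg

variable {k : Type u} [Field k] {𝒱 : VarClass k} {ops : CycleOps 𝒱}

/-- The decomposition theorem and the relative hard Lefschetz theorem of Beilinson, Bernstein,
Deligne and Gabber for a morphism `f` from `Y` to a projective variety `Z`, possibly singular, in
the form of their consequences for `H(Y)`. In the `ℓ`-adic theory, for `D` the pull-back of an ample
divisor on `Z` and `E` a relatively ample divisor on `Y`, the subspace `piece p` is the contribution
`⨁ j, H^(j - p)(Z, R_p) ⊆ ⨁ j, H^j(Y)` of the perverse cohomology sheaf `R_p = ᵖH^p(Rf_* ℚ_ℓ)`,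
for a decomposition `Rf_* ℚ_ℓ = ⨁ p, R_p[-p]`. -/
structure PerversePieces (W : WeilCohomology.{u, v} ops) {Y : 𝒱.Obj} (D E : Y.Cycles) where
  /-- the contribution of the perverse cohomology sheaf in degree `p` -/
  piece : ℕ → Submodule W.K (W.H Y)
  /-- the properties of the pieces -/
  isPerverse : IsPerverse (W.gr Y) {W.cl Y D} (W.cl Y D) (W.cl Y E) Y.dim piece

variable {W : WeilCohomology.{u, v} ops} {Y : 𝒱.Obj} {D E : Y.Cycles}

/-- The operators of the conjecture B along the base: a `K`-linear combination of algebraic
correspondences of degree `-1` on `Y` induces on the graded pieces `⨁ j, H^(j - p)(Z, R_p)` of the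
perverse filtration of `H(Y)` the lowering operators of the `sl(2)`-triples with raising operator
the class of `D` (of the hard Lefschetz theorem for the perverse sheaves `R_p` on `Z`). -/
def BaseB (Q : PerversePieces W D E) : Prop :=
  ∃ x, IsCombination W Y (Y.dim - 1) x ∧
    LowersBase (W.gr Y) Q.piece (LinearMap.mulLeft W.K (W.cl Y D)) x

/-- The operator of the conjecture B along the fibres: a `K`-linear combination of algebraic
correspondences of degree `-1` on `Y` induces on the sum of the graded pieces
`⨁ j, H^(j - p)(Z, R_p)` of the perverse filtration of `H(Y)` the lowering operator of the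
`sl(2)`-triple with raising operator the class of `E` (of the relative hard Lefschetz theorem). -/
def FibreB (Q : PerversePieces W D E) : Prop :=
  ∃ y, IsCombination W Y (Y.dim - 1) y ∧
    LowersFibre Q.piece Y.dim (LinearMap.mulLeft W.K (W.cl Y E)) y

/-- The conjecture B along the base, in terms of injective operators: for all `p` and all `c ≥ 1`
a `K`-linear combination of algebraic correspondences on `Y` induces an injection from
`H^c(Z, R_p)` to `H^(-c)(Z, R_p)`. -/
def BaseInj (Q : PerversePieces W D E) : Prop :=
  ∀ p c : ℕ, 1 ≤ c → ∃ x, IsCombination W Y (Y.dim - c) x ∧ InjectsBase (W.gr Y) Q.piece p c x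

/-- The conjecture B along the fibres, in terms of injective operators: for `1 ≤ c ≤ m = dim Y` a
`K`-linear combination of algebraic correspondences on `Y` lowers the perverse filtration by `2 c`
and induces an injection from the contribution of `R_(m + c)` to the one of `R_(m - c)`. -/
def FibreInj (Q : PerversePieces W D E) : Prop :=
  ∀ c : ℕ, 1 ≤ c → c ≤ Y.dim → ∃ y, IsCombination W Y (Y.dim - c) y ∧
    InjectsFibre Q.piece Y.dim c y

/-- The perverse filtration of `H(Y)` is split by projectors which are `K`-linear combinations of
algebraic correspondences. -/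
def AlgebraicSplitting (Q : PerversePieces W D E) : Prop :=
  ∃ π : ℕ → Module.End W.K (W.H Y), (∀ p, IsCombination W Y Y.dim (π p)) ∧
    Splits Q.piece (2 * Y.dim) π

end Pool.Agent.W498.Dom
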