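import Pool.Agent.W498.Dom.Single
import Pool.Agent.W498.Dom.Main

/-!
# The limit argument for a single power of the Lefschetz operators, continued
-/

open Finset Polynomial

set_option linter.unusedSectionVars false

namespace Pool.Agent.W498.Dom

open Pool.Agent.H914 Pool.Agent.H447

variable {K : Type*} [Field K] [CharZero K] {V : Type*} [AddCommGroup V] [Module K V]

namespace Setup

variable {gr P : ℕ → Submodule K V} {m : ℕ} {h e : Module.End K V} (S : Setup gr P m h e)

include S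

/-- Generic hard Lefschetz. -/
lemma exists_poly_hardLef [Module.Finite K V]
    (hdim : ∀ c ≤ m, Module.finrank K (gr (m - c)) = Module.finrank K (gr (m + c))) :
    ∃ p : K[X], p ≠ 0 ∧ ∀ s, s ≠ 0 → p.eval s ≠ 0 → HardLef gr m (h + s ^ 2 • e) := by
  obtain ⟨Λ, Λ', t1, t2, hΛ', t⟩ := S.exists_sl2_both
  have hG : ∀ c' : ℕ, ∃ p : K[X], p ≠ 0 ∧ ∀ s, p.eval s ≠ 0 →
      ∀ v ∈ gr (m - c'), c' ≤ m → (LL S.iP m h e s ^ c') v = 0 → v = 0 := by
    intro c'
    by_cases hc' : c' ≤ m
    · set G : K → gr (m - c') →ₗ[K] V := fun s =>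
        (LL S.iP m h e s ^ c') ∘ₗ (gr (m - c')).subtype with hG
      have hGf : PFam G := fun x => (S.pvec_LL.pfam.pow c') x
      have hG0 : Function.Injective (G 0) := by
        rw [← LinearMap.ker_eq_bot, LinearMap.ker_eq_bot']
        intro y hy
        apply Subtype.ext
        rw [hG] at hy
        simp only [LinearMap.comp_apply, Submodule.subtype_apply] at hy
        rw [S.LL_zero] at hy
        apply e_pow_inj t (c := c') _ hy
        rw [wt_apply S.igr m y.2]
        congr 1
        rw [Nat.cast_sub hc']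
        push_cast; ring
      obtain ⟨p, hp, hp'⟩ := hGf.generic_inj hG0
      refine ⟨p, hp, fun s hs v hv _ h0 => ?_⟩
      have h3 := hp' s hs
      rw [← LinearMap.ker_eq_bot, LinearMap.ker_eq_bot'] at h3
      exact congrArg Subtype.val (h3 ⟨v, hv⟩ h0)
    · exact ⟨1, one_ne_zero, fun s _ v _ h' => absurd h' hc'⟩
  choose pG hpG hpG' using hG
  refine ⟨∏ c' ∈ range (m + 1), pG c', Finset.prod_ne_zero_iff.2 (fun c' _ => hpG c'), ?_⟩
  intro s hs hroot
  rw [eval_prod] at hroot
  apply S.hardLef_of_inj hdim hs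
  intro c' hc' v hv h0
  exact hpG' c' s (Finset.prod_ne_zero_iff.1 hroot c' (Finset.mem_range.2 (by omega))) v hv hc' h0

end Setup

namespace MapSetup

variable {U : Type*} [AddCommGroup U] [Module K U] {gr P : ℕ → Submodule K V}
    {grU : ℕ → Submodule K U} {n r : ℕ} {h e : Module.End K V} {hU : Module.End K U}
    {φ : U →ₗ[K] V} {ψ : V →ₗ[K] U} {δ : K} (S : Setup gr P (n + r) h e)
    (M : MapSetup gr P grU n r h e hU φ ψ δ)

include S M

lemma psi_proj (v : V) : ψ (proj S.iP (n + 2 * r) v) = ψ v := by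
  conv_rhs => rw [S.sumP v, map_sum]
  rw [Finset.sum_eq_single (n + 2 * r)]
  · intro q _ hq
    exact M.ψP q hq _ (proj_mem S.iP q _)
  · intro h'
    have h1 := proj_mem S.iP (n + 2 * r) v
    rw [S.bP _ (by rw [Finset.mem_range] at h'; omega)] at h1
    rw [(Submodule.mem_bot _).1 h1, map_zero]

lemma psi_top (u : U) : ψ ((top S.iP (n + r) e ^ r) (φ u)) = δ • u := by
  rw [top_pow' S.iP S.bP S.eP (M.φP u) r, psi_proj S M, M.ψφ]

/-- **The limit argument for one power.** -/
theorem core_single [Module.Finite K V] [Module.Finite K U]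
    (hdim : ∀ c ≤ n + r, Module.finrank K (gr (n + r - c)) = Module.finrank K (gr (n + r + c)))
    (hE : ∀ u, (top S.iP (n + r) e ^ (r + 1)) (φ u) = 0) (w : ℕ) (hc : w + 1 + r ≤ n) :
    ∃ s : K, s ≠ 0 ∧ HardLef gr (n + r) (h + s ^ 2 • e) ∧
      ∀ y ∈ grU (n + (w + 1 + r)), ∀ x ∈ gr (n + r - (w + 1)),
        ((h + s ^ 2 • e) ^ (w + 1)) x = φ y → ψ x = 0 → y = 0 := by
  obtain ⟨Λ, Λ', t1, t2, hΛ', t⟩ := S.exists_sl2_both
  -- the family of inverses
  set G : K → gr (n + r - (w + 1)) →ₗ[K] V := fun s =>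
    (LL S.iP (n + r) h e s ^ (w + 1)) ∘ₗ (gr (n + r - (w + 1))).subtype with hG
  have hGf : PFam G := fun x => (S.pvec_LL.pfam.pow (w + 1)) x
  have hG0 : Function.Injective (G 0) := by
    rw [← LinearMap.ker_eq_bot, LinearMap.ker_eq_bot']
    intro y hy
    apply Subtype.ext
    rw [hG] at hy
    simp only [LinearMap.comp_apply, Submodule.subtype_apply] at hy
    rw [S.LL_zero] at hy
    apply e_pow_inj t (c := w + 1) _ hy
    rw [wt_apply S.igr (n + r) y.2]
    congr 1
    rw [Nat.cast_sub (by omega)]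
    push_cast; ring
  obtain ⟨q, N, hq, hN, hNG⟩ := hGf.leftInv hG0
  -- the family of maps
  set Φ : K → (grU (n + (w + 1 + r))) →ₗ[K] U := fun s =>
    ψ ∘ₗ (gr (n + r - (w + 1))).subtype ∘ₗ N s ∘ₗ φ ∘ₗ (grU (n + (w + 1 + r))).subtype with hΦ
  have hΦf : PFam Φ := fun y => (hN (φ y)).map (ψ ∘ₗ (gr (n + r - (w + 1))).subtype)
  have hE' : ∀ u, ((-top S.iP (n + r) e) ^ (r + 1)) (φ u) = 0 := by
    intro u
    rw [neg_pow, Module.End.mul_apply, hE, map_zero]
  have hΦ0 : Function.Injective (Φ 0) := by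
    rw [← LinearMap.ker_eq_bot, LinearMap.ker_eq_bot']
    intro y hy
    obtain ⟨z, hz, hzy⟩ := (M.hlU (n - (w + 1 + r)) (by omega)).2 (y : U) (by
      rw [show 2 * n - (n - (w + 1 + r)) = n + (w + 1 + r) by omega]; exact y.2)
    rw [show n - (n - (w + 1 + r)) = r + (w + 1) by omega] at hzy
    set p : PowerSeries K := PowerSeries.mk fun l => (Nat.choose (w + l) w : K) with hp
    set x := trunc (-top S.iP (n + r) e) hU φ r r p z with hx
    have hxeq : ((h + top S.iP (n + r) e) ^ (w + 1)) x = φ y := by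
      have h1 := trunc_inv (N := h) (F := -top S.iP (n + r) e) (hU := hU) (φ := φ) (r := r)
        (by rw [mul_neg, neg_mul, S.h_top]) M.hφ hE' w z
      rw [sub_neg_eq_add] at h1
      rw [h1, hzy]
    have hterm : ∀ l, ((-top S.iP (n + r) e) ^ l) (φ ((hU ^ (r - l)) z)) ∈
        P (n + 2 * l) := by
      intro l
      rw [neg_pow, Module.End.mul_apply, top_pow' S.iP S.bP S.eP (M.φP _) l]
      have h3 : ∀ (j : ℕ) (v : V), (((-1 : Module.End K V)) ^ j) v = ((-1 : K) ^ j) • v := by
        intro j v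
        rcases Nat.even_or_odd j with hj | hj
        · rw [hj.neg_one_pow, hj.neg_one_pow, Module.End.one_apply, one_smul]
        · rw [hj.neg_one_pow, hj.neg_one_pow, LinearMap.neg_apply, Module.End.one_apply,
            neg_one_smul]
      rw [h3]
      exact Submodule.smul_mem _ _ (proj_mem S.iP _ _)
    have hxgr : x ∈ gr (n + r - (w + 1)) := by
      rw [hx, trunc]
      apply Submodule.sum_mem
      intro l hl
      rw [Finset.mem_range] at hl
      apply Submodule.smul_mem
      have h2 : (hU ^ (r - l)) z ∈ grU (n - (w + 1 + r) + 2 * (r - l)) :=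
        pow_L_mem M.hUgr hz (r - l)
      have h3 := M.φgr _ _ h2
      have h4 : IsHom gr 2 (-top S.iP (n + r) e) := by
        have := S.isHom_top.smul (-1 : K)
        rwa [neg_one_smul] at this
      have h5 := pow_L_mem h4 h3 l
      rwa [show n - (w + 1 + r) + 2 * (r - l) + 2 * l = n + r - (w + 1) by omega] at h5
    have h6 : N 0 (φ y) = q.eval 0 • (⟨x, hxgr⟩ : gr (n + r - (w + 1))) := by
      rw [← hNG 0 ⟨x, hxgr⟩]
      congr 1
      rw [hG]
      simp only [LinearMap.comp_apply, Submodule.subtype_apply]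
      rw [S.LL_zero, hxeq]
    have h7 : ψ x = (Nat.choose (w + r) w : K) • ((-1 : K) ^ r) • δ • z := by
      rw [hx, trunc, map_sum, Finset.sum_eq_single r]
      · rw [map_smul, hp, PowerSeries.coeff_mk, Nat.sub_self, pow_zero, Module.End.one_apply]
        congr 1
        have h3 : ((-top S.iP (n + r) e) ^ r) (φ z) =
            ((-1 : K) ^ r) • (top S.iP (n + r) e ^ r) (φ z) := by
          rcases Nat.even_or_odd r with hj | hj
          · rw [hj.neg_pow, hj.neg_one_pow, one_smul]
          · rw [hj.neg_pow, hj.neg_one_pow, LinearMap.neg_apply, neg_one_smul]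
        rw [h3, map_smul, psi_top S M]
      · intro l _ hl
        rw [map_smul, M.ψP (n + 2 * l) (by omega) _ (hterm l), smul_zero]
      · intro h'; exact absurd (Finset.mem_range.2 (Nat.lt_succ_self r)) h'
    have h8 : Φ 0 y = q.eval 0 • ψ x := by
      rw [hΦ]
      simp only [LinearMap.comp_apply, Submodule.subtype_apply]
      rw [h6, Submodule.coe_smul, map_smul]
    rw [h8, h7] at hy
    have hch : (Nat.choose (w + r) w : K) ≠ 0 := by
      rw [Nat.cast_ne_zero]
      exact (Nat.choose_pos (Nat.le_add_right w r)).ne'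
    have h9 : z = 0 := by
      have h10 := (smul_eq_zero.1 hy).resolve_left hq
      have h11 := (smul_eq_zero.1 h10).resolve_left hch
      have h12 := (smul_eq_zero.1 h11).resolve_left (pow_ne_zero _ (neg_ne_zero.2 one_ne_zero))
      exact (smul_eq_zero.1 h12).resolve_left M.δ0
    apply Subtype.ext
    rw [← hzy, h9, map_zero]
    rfl
  obtain ⟨pΦ, hpΦ, hpΦ'⟩ := hΦf.generic_inj hΦ0
  obtain ⟨pH, hpH, hpH'⟩ := S.exists_poly_hardLef hdim
  obtain ⟨s, hs, hroot⟩ := exists_nonroot (pΦ * pH) (mul_ne_zero hpΦ hpH)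
  rw [eval_mul] at hroot
  refine ⟨s, hs, hpH' s hs (right_ne_zero_of_mul hroot), ?_⟩
  intro y hy x hx hxy h0
  set D' := scal S.iP (fun p => (s ^ p)⁻¹) with hD'
  set D := scal S.iP (fun p => s ^ p) with hD
  have hx' : D' x ∈ gr (n + r - (w + 1)) := S.scal_gr _ hx
  have h1 : (LL S.iP (n + r) h e s ^ (w + 1)) (D' x) = (s ^ n)⁻¹ • φ y := by
    rw [S.LL_pow hs, Module.End.mul_apply, Module.End.mul_apply, ← Module.End.mul_apply D,
      S.scal_inv hs, Module.End.one_apply, hxy, scal_apply S.iP _ (M.φP y)]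
  have h2 : (s ^ n)⁻¹ • N s (φ y) = q.eval s • (⟨D' x, hx'⟩ : gr (n + r - (w + 1))) := by
    rw [← hNG s ⟨D' x, hx'⟩, ← map_smul, ← h1]
    rfl
  have h3 : ψ (D' x) = 0 := by
    rw [← psi_proj S M]
    have h4 : proj S.iP (n + 2 * r) (D' x) = (s ^ (n + 2 * r))⁻¹ • proj S.iP (n + 2 * r) x := by
      rw [← Module.End.mul_apply, hD', proj, scal_mul, ← LinearMap.smul_apply]
      congr 1
      apply gr_ext S.iP
      intro p' v hv
      rw [scal_apply S.iP _ hv, LinearMap.smul_apply, scal_apply S.iP _ hv]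
      by_cases hp : p' = n + 2 * r
      · subst hp; simp
      · simp [hp]
    rw [h4, map_smul, psi_proj S M, h0, smul_zero]
  have h5 : Φ s ⟨y, hy⟩ = 0 := by
    have h6 : (s ^ n)⁻¹ • Φ s ⟨y, hy⟩ = 0 := by
      rw [hΦ]
      simp only [LinearMap.comp_apply, Submodule.subtype_apply]
      rw [← map_smul, ← Submodule.coe_smul, h2, Submodule.coe_smul, map_smul, h3, smul_zero]
    exact (smul_eq_zero.1 h6).resolve_left (inv_ne_zero (pow_ne_zero _ hs))
  have h7 := hpΦ' s (left_ne_zero_of_mul hroot)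
  rw [← LinearMap.ker_eq_bot, LinearMap.ker_eq_bot'] at h7
  exact congrArg Subtype.val (h7 ⟨y, hy⟩ h5)

end MapSetup

end Pool.Agent.W498.Dom
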