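import Pool.Agent.W498.Dom.Lat
import Pool.Agent.W498.Dom.Main
import Pool.Agent.W498.Dom.Single2
import Pool.Agent.W498.Dom.RelDefs

/-!
# Lowering operators along the base and along the fibres
-/

open Finset Polynomial

set_option linter.unusedSectionVars false

namespace Pool.Agent.W498.Dom

open Pool.Agent.H914 Pool.Agent.H447

variable {K : Type*} [Field K] [CharZero K] {V : Type*} [AddCommGroup V] [Module K V]

/-- A polynomial family of vectors has coefficients. -/
lemma PVec.exists_coeff {F : Type*} [AddCommGroup F] [Module K F] [Module.Finite K F] {v : K → F}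
    (hv : PVec v) : ∃ (N : ℕ) (a : ℕ → F), 0 < N ∧ ∀ s, v s = ∑ k ∈ range N, s ^ k • a k := by
  set b := Module.finBasis K F with hb
  choose p hp using fun j => hv (b.coord j)
  set N := (Finset.univ.sup fun j => (p j).natDegree) + 1 with hN
  refine ⟨N, fun k => ∑ j, (p j).coeff k • b j, Nat.succ_pos _, fun s => ?_⟩
  have h1 : ∀ j, (p j).eval s = ∑ k ∈ range N, s ^ k * (p j).coeff k := by
    intro j
    rw [Polynomial.eval_eq_sum_range' (n := N)
      (Nat.lt_succ_of_le (Finset.le_sup (f := fun j => (p j).natDegree) (Finset.mem_univ j)))]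
    exact Finset.sum_congr rfl fun k _ => mul_comm _ _
  rw [← b.sum_repr (v s)]
  have h2 : ∀ j, b.repr (v s) j = ∑ k ∈ range N, s ^ k * (p j).coeff k := by
    intro j
    rw [← h1, ← hp]
    rfl
  simp_rw [h2, Finset.sum_smul, Finset.smul_sum, smul_smul]
  rw [Finset.sum_comm]

/-- The coefficients of a polynomial family with values in a subspace. -/
lemma coeff_mem {F : Type*} [AddCommGroup F] [Module K F] {U : Submodule K F} {N : ℕ} {g : ℕ → F}
    {r : K[X]} (hr : r ≠ 0) (h : ∀ s, r.eval s ≠ 0 → ∑ n ∈ range N, s ^ n • g n ∈ U) :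
    ∀ n < N, g n ∈ U := by
  intro n hn
  rw [← Submodule.Quotient.mk_eq_zero, ← Module.forall_dual_apply_eq_zero_iff K]
  intro l
  set p : K[X] := ∑ n ∈ range N, monomial n (l (Submodule.Quotient.mk (g n))) with hp
  have h1 : r * p = 0 := by
    apply Polynomial.funext
    intro s
    rw [eval_mul, eval_zero]
    by_cases hs : r.eval s = 0
    · rw [hs, zero_mul]
    · have h2 := (Submodule.Quotient.mk_eq_zero U).2 (h s hs)
      have h3 : p.eval s = l (Submodule.Quotient.mk (∑ n ∈ range N, s ^ n • g n)) := by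
        rw [← Submodule.mkQ_apply, map_sum, map_sum, hp, eval_finsetSum]
        apply Finset.sum_congr rfl
        intro n _
        rw [eval_monomial, map_smul, map_smul, smul_eq_mul, mul_comm]
        rfl
      rw [h3, h2, map_zero, mul_zero]
  have h2 : p = 0 := (mul_eq_zero.1 h1).resolve_left hr
  have h3 := congrArg (fun q => q.coeff n) h2
  simp only [hp, finsetSum_coeff, coeff_monomial, coeff_zero] at h3
  rw [Finset.sum_eq_single n] at h3
  · simpa using h3
  · intro k _ hk
    simp [hk]
  · intro h'; exact absurd (Finset.mem_range.2 hn) h'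

namespace Setup

variable {gr P : ℕ → Submodule K V} {m : ℕ} {h e : Module.End K V} (S : Setup gr P m h e)

/-- The component of an operator raising the second degree by `n - 2 m`. -/
noncomputable def _root_.Pool.Agent.W498.Dom.cmp {P : ℕ → Submodule K V}
    (iP : DirectSum.IsInternal P) (m n : ℕ) (T : Module.End K V) : Module.End K V :=
  ∑ p ∈ range (2 * m + 1), ∑ q ∈ range (2 * m + 1),
    if q + 2 * m = n + p then proj iP q * T * proj iP p else 0

include S

lemma cmp_apply (n : ℕ) (T : Module.End K V) {p : ℕ} {v : V} (hv : v ∈ P p) :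
    cmp S.iP m n T v = ∑ q ∈ range (2 * m + 1),
      if q + 2 * m = n + p then proj S.iP q (T v) else 0 := by
  rw [cmp, LinearMap.sum_apply]
  by_cases hp : p < 2 * m + 1
  · rw [Finset.sum_eq_single p]
    · rw [LinearMap.sum_apply]
      apply Finset.sum_congr rfl
      intro q _
      split_ifs
      · rw [Module.End.mul_apply, Module.End.mul_apply, proj_same S.iP hv]
      · rfl
    · intro p' _ hp'
      rw [LinearMap.sum_apply]
      apply Finset.sum_eq_zero
      intro q _
      split_ifs
      · rw [Module.End.mul_apply, proj_ne S.iP hv (Ne.symm hp'), map_zero]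
      · rfl
    · intro h'; exact absurd (Finset.mem_range.2 hp) h'
  · rw [S.bP p (by omega), Submodule.mem_bot] at hv
    subst hv
    rw [map_zero, ← LinearMap.sum_apply, map_zero]
    symm
    apply Finset.sum_eq_zero
    intro q _
    split_ifs <;> simp

/-- The conjugate by the rescaling. -/
lemma cmp_sum (T : Module.End K V) {s : K} (hs : s ≠ 0) :
    s ^ (2 * m) • (scal S.iP (fun p => s ^ p) * T * scal S.iP (fun p => (s ^ p)⁻¹)) =
      ∑ n ∈ range (4 * m + 1), s ^ n • cmp S.iP m n T := by
  apply gr_ext S.iP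
  intro p v hv
  by_cases hp : p < 2 * m + 1
  · rw [LinearMap.smul_apply, Module.End.mul_apply, Module.End.mul_apply, scal_apply S.iP _ hv,
      LinearMap.sum_apply]
    conv_lhs => rw [S.sumP (T ((s ^ p)⁻¹ • v))]
    rw [map_sum, Finset.smul_sum]
    have h1 : ∀ n ∈ range (4 * m + 1), (s ^ n • cmp S.iP m n T) v =
        ∑ q ∈ range (2 * m + 1), if q + 2 * m = n + p then s ^ n • proj S.iP q (T v) else 0 := by
      intro n _
      rw [LinearMap.smul_apply, S.cmp_apply n T hv, Finset.smul_sum]
      apply Finset.sum_congr rfl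
      intro q _
      split_ifs
      · rfl
      · rw [smul_zero]
    rw [Finset.sum_congr rfl h1, Finset.sum_comm]
    apply Finset.sum_congr rfl
    intro q hq
    have hq' := Finset.mem_range.1 hq
    rw [Finset.sum_eq_single (q + 2 * m - p)]
    · rw [if_pos (by omega), scal_apply S.iP _ (proj_mem S.iP q _), map_smul, map_smul, smul_smul,
        smul_smul]
      congr 1
      have h2 : s ^ (2 * m) * s ^ q = s ^ (q + 2 * m - p) * s ^ p := by
        rw [← pow_add, ← pow_add]; congr 1; omega
      rw [h2, mul_assoc, mul_inv_cancel₀ (pow_ne_zero p hs), mul_one]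
    · intro n _ hn
      rw [if_neg (by omega)]
    · intro h'
      exact absurd (Finset.mem_range.2 (by omega)) h'
  · rw [S.bP p (by omega), Submodule.mem_bot] at hv
    rw [hv, map_zero, map_zero]

/-- The value of a component in terms of the filtration. -/
lemma cmp_mem (n : ℕ) (T : Module.End K V) {p : ℕ} {v : V} (hv : v ∈ P p) {a : ℕ}
    (ha : n + p < a + 2 * m) : cmp S.iP m n T v ∈ below P a := by
  rw [S.cmp_apply n T hv]
  apply Submodule.sum_mem
  intro q _
  split_ifs with hq
  · exact Submodule.mem_iSup_of_mem q (Submodule.mem_iSup_of_mem (by omega) (proj_mem S.iP q _))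
  · exact Submodule.zero_mem _

omit S in
lemma below_mono {a b : ℕ} (hab : a ≤ b) : below P a ≤ below P b := by
  apply iSup_le
  intro q
  apply iSup_le
  intro hq
  exact le_iSup_of_le q (le_iSup_of_le (by omega) le_rfl)

omit S in
lemma mem_below_of {a p : ℕ} (hp : p < a) {v : V} (hv : v ∈ P p) : v ∈ below P a :=
  Submodule.mem_iSup_of_mem p (Submodule.mem_iSup_of_mem hp hv)

omit S in
/-- To map the filtration into a subspace it is enough to map the pieces. -/
lemma below_map {a : ℕ} {T : Module.End K V} {N : Submodule K V}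
    (h : ∀ p < a, ∀ v ∈ P p, T v ∈ N) {v : V} (hv : v ∈ below P a) : T v ∈ N := by
  have h1 : below P a ≤ N.comap T := by
    apply iSup_le
    intro q
    apply iSup_le
    intro hq v hv
    exact h q hq v hv
  exact h1 hv

lemma h_below {a : ℕ} {v : V} (hv : v ∈ below P a) : h v ∈ below P a :=
  below_map (fun p hp v hv => mem_below_of hp (S.hP p v hv)) hv

lemma e_below {a : ℕ} {v : V} (hv : v ∈ below P a) : e v ∈ below P (a + 2) :=
  below_map (fun p hp v hv => by
    rw [S.e_sum hv]
    apply Submodule.sum_mem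
    intro q hq
    exact mem_below_of (by have := Finset.mem_range.1 hq; omega) (proj_mem S.iP q _)) hv

/-- The leading coefficient. -/
lemma e_top {p : ℕ} {v : V} (hv : v ∈ P p) : e v - top S.iP m e v ∈ below P (p + 2) := by
  rw [S.top_apply hv]
  have h1 := S.e_sum hv
  rw [Finset.sum_range_succ] at h1
  rw [sub_eq_of_eq_add h1]
  apply Submodule.sum_mem
  intro q hq
  exact mem_below_of (Finset.mem_range.1 hq) (proj_mem S.iP q _)

/-- The coefficient of `s ^ M` in the conjugated family. -/
lemma coeff_apply {N : ℕ} (a : ℕ → Module.End K V) (hN : 0 < N) {M : ℕ} (hM : M < 4 * m + 1)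
    {p : ℕ} {v : V} (hv : v ∈ P p) {b : ℕ} (hb : M + p ≤ b + 2 * m) :
    (∑ n ∈ range (4 * m + 1), ∑ k ∈ range N, if n + k = M then cmp S.iP m n (a k) else 0) v -
      cmp S.iP m M (a 0) v ∈ below P b := by
  have h1 : cmp S.iP m M (a 0) v = ∑ n ∈ range (4 * m + 1),
      if n = M then cmp S.iP m M (a 0) v else 0 := by
    rw [Finset.sum_ite_eq' (range (4 * m + 1)) M (fun _ => cmp S.iP m M (a 0) v),
      if_pos (Finset.mem_range.2 hM)]
  rw [h1, LinearMap.sum_apply, ← Finset.sum_sub_distrib]
  apply Submodule.sum_mem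
  intro n _
  rw [LinearMap.sum_apply]
  rcases lt_trichotomy n M with hn | rfl | hn
  · rw [if_neg (by omega), sub_zero]
    apply Submodule.sum_mem
    intro k _
    split_ifs
    · exact S.cmp_mem n (a k) hv (by omega)
    · exact Submodule.zero_mem _
  · rw [if_pos rfl, Finset.sum_eq_single 0]
    · rw [if_pos (by omega), sub_self]
      exact Submodule.zero_mem _
    · intro k _ hk
      rw [if_neg (by omega)]
      rfl
    · intro h'; exact absurd (Finset.mem_range.2 hN) h'
  · rw [if_neg (by omega), sub_zero]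
    apply Submodule.sum_mem
    intro k _
    rw [if_neg (by omega)]
    exact Submodule.zero_mem _

omit S in
lemma cmp_comb (iP : DirectSum.IsInternal P) (n N : ℕ) (s : K) (a : ℕ → Module.End K V) :
    cmp iP m n (∑ k ∈ range N, s ^ k • a k) = ∑ k ∈ range N, s ^ k • cmp iP m n (a k) := by
  simp only [cmp, Finset.smul_sum]
  rw [Finset.sum_comm (s := range N)]
  apply Finset.sum_congr rfl
  intro p _
  rw [Finset.sum_comm (s := range N)]
  apply Finset.sum_congr rfl
  intro q _
  split_ifs
  · rw [Finset.mul_sum, Finset.sum_mul]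
    apply Finset.sum_congr rfl
    intro k _
    rw [mul_smul_comm, smul_mul_assoc]
  · simp

omit S in
lemma double_sum (iP : DirectSum.IsInternal P) (N : ℕ) (s : K) (a : ℕ → Module.End K V) :
    ∑ n ∈ range (4 * m + 1), s ^ n • ∑ k ∈ range N, s ^ k • cmp iP m n (a k) =
      ∑ M ∈ range (4 * m + 1 + N), s ^ M •
        ∑ n ∈ range (4 * m + 1), ∑ k ∈ range N, if n + k = M then cmp iP m n (a k) else 0 := by
  simp only [Finset.smul_sum]
  rw [Finset.sum_comm (s := range (4 * m + 1 + N))]
  apply Finset.sum_congr rfl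
  intro n hn
  rw [Finset.sum_comm (s := range (4 * m + 1 + N))]
  apply Finset.sum_congr rfl
  intro k hk
  have hn' := Finset.mem_range.1 hn
  have hk' := Finset.mem_range.1 hk
  rw [Finset.sum_eq_single (n + k)]
  · rw [if_pos rfl, smul_smul, pow_add]
  · intro M _ hM
    rw [if_neg (Ne.symm hM), smul_zero]
  · intro h'
    exact absurd (Finset.mem_range.2 (by omega)) h'

/-- The lowering operator along the base preserves the second grading. -/
lemma lam_mem [Module.Finite K V] {Λ : Module.End K V} (t : Sl2 (Ha S.igr S.iP m) h Λ) {p : ℕ}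
    {v : V} (hv : v ∈ P p) : Λ v ∈ P p := by
  have h1 := comm_f t (S.Ha_projP p).symm (S.projP_h p)
  have h2 := congrArg (fun F => F v) h1
  simp only [Module.End.mul_apply] at h2
  rw [proj_same S.iP hv] at h2
  rw [← h2]
  exact proj_mem S.iP p _

/-- The part of the filtration below. -/
lemma sub_proj_mem {p : ℕ} {v : V} (hv : v ∈ below P (p + 1)) :
    v - proj S.iP p v ∈ below P p := by
  have := below_map (T := LinearMap.id - proj S.iP p) (N := below P p) (a := p + 1)
    (fun q hq w hw => ?_) hv
  · simpa using this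
  · rw [LinearMap.sub_apply, LinearMap.id_apply]
    by_cases hqp : q = p
    · subst hqp
      rw [proj_same S.iP hw, sub_self]
      exact Submodule.zero_mem _
    · rw [proj_ne S.iP hw hqp, sub_zero]
      exact mem_below_of (by omega) hw

/-- The leading terms of the base operator. -/
lemma lowersBase_of [Module.Finite K V] {Λ x : Module.End K V}
    (t : Sl2 (Ha S.igr S.iP m) h Λ) (hx : ∀ p, ∀ v ∈ P p, x v - Λ v ∈ below P p) :
    LowersBase gr P h x := by
  have hxP : ∀ p, ∀ v ∈ P p, x v ∈ below P (p + 1) := by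
    intro p v hv
    have h1 := Submodule.add_mem _ (below_mono (Nat.le_succ p) (hx p v hv))
      (mem_below_of (Nat.lt_succ_self p) (S.lam_mem t hv))
    rwa [sub_add_cancel] at h1
  have hxb : ∀ a, ∀ v ∈ below P a, x v ∈ below P a := fun a v hv =>
    below_map (fun p hp v hv => below_mono (by omega) (hxP p v hv)) hv
  rintro p j v ⟨hv, hj⟩
  refine ⟨hxb _ v hv, ?_⟩
  set w := proj S.iP p v with hw
  have hwP : w ∈ P p := proj_mem S.iP p v
  have hwj : w ∈ gr j := S.projP_gr hj p
  have hv' : v - w ∈ below P p := S.sub_proj_mem hv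
  have h1 : h (x v) - x (h v) - ((j : K) - p) • v =
      (h (x (v - w)) - x (h (v - w)) - ((j : K) - p) • (v - w)) +
      (h (x w - Λ w) - (x (h w) - Λ (h w)) +
        ((h * Λ - Λ * h) w - ((j : K) - p) • w)) := by
    simp only [map_sub, smul_sub, LinearMap.sub_apply, Module.End.mul_apply]
    abel
  rw [h1, t.ef, S.Ha_apply hwP hwj, sub_self, add_zero]
  apply Submodule.add_mem
  · exact Submodule.sub_mem _ (Submodule.sub_mem _ (S.h_below (hxb _ _ hv'))
      (hxb _ _ (S.h_below hv'))) (Submodule.smul_mem _ _ hv')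
  · exact Submodule.sub_mem _ (S.h_below (hx p w hwP)) (hx p _ (S.hP p w hwP))

/-- The leading terms of the fibre operator. -/
lemma lowersFibre_of {Λ' y : Module.End K V}
    (t : Sl2 (wt S.iP m) (top S.iP m e) Λ') (hΛ' : IsHom P (-2) Λ')
    (hy : ∀ p, ∀ v ∈ P p, y v - Λ' v ∈ below P (p - 2)) : LowersFibre P m e y := by
  have hΛ2 : ∀ p, 2 ≤ p → ∀ v ∈ P p, Λ' v ∈ P (p - 2) := by
    intro p hp v hv
    have h4 := hΛ' p v (by rw [grZ_natCast]; exact hv)
    rwa [show (p : ℤ) + -2 = ((p - 2 : ℕ) : ℤ) by omega, grZ_natCast] at h4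
  have hΛ0 : ∀ p, p < 2 → ∀ v ∈ P p, Λ' v = 0 := by
    intro p hp v hv
    have h4 := hΛ' p v (by rw [grZ_natCast]; exact hv)
    rw [grZ_of_neg (by omega)] at h4
    exact (Submodule.mem_bot _).1 h4
  have hb0 : ∀ v, v ∈ below P 0 → v = 0 := by
    intro v hv
    have : below P 0 = ⊥ := by
      rw [eq_bot_iff]
      exact iSup_le fun q => iSup_le fun hq => absurd hq (Nat.not_lt_zero q)
    rw [this] at hv
    exact (Submodule.mem_bot _).1 hv
  have hyP : ∀ p, ∀ v ∈ P p, y v ∈ below P (p - 1) := by
    intro p v hv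
    by_cases hp : 2 ≤ p
    · have h1 := Submodule.add_mem _ (below_mono (by omega : p - 2 ≤ p - 1) (hy p v hv))
        (mem_below_of (by omega : p - 2 < p - 1) (hΛ2 p hp v hv))
      rwa [sub_add_cancel] at h1
    · have h1 := hy p v hv
      rw [hΛ0 p (by omega) v hv, sub_zero, show p - 2 = 0 by omega] at h1
      rw [hb0 _ h1]
      exact Submodule.zero_mem _
  have hyb : ∀ a, ∀ v ∈ below P a, y v ∈ below P (a - 2) := fun a v hv =>
    below_map (fun p hp v hv => below_mono (by omega) (hyP p v hv)) hv
  have heyP : ∀ p, ∀ v ∈ P p, e (y v) ∈ below P (p + 1) := by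
    intro p v hv
    by_cases hp : 1 ≤ p
    · have := S.e_below (hyP p v hv)
      rwa [show p - 1 + 2 = p + 1 by omega] at this
    · have h1 := hyP p v hv
      rw [show p - 1 = 0 by omega] at h1
      rw [hb0 _ h1, map_zero]
      exact Submodule.zero_mem _
  have heyb : ∀ a, ∀ v ∈ below P a, e (y v) ∈ below P a := fun a v hv =>
    below_map (T := e * y) (fun p hp v hv => below_mono (by omega) (heyP p v hv)) hv
  have hyeb : ∀ a, ∀ v ∈ below P a, y (e v) ∈ below P a := fun a v hv => by
    have := hyb _ _ (S.e_below hv)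
    rwa [Nat.add_sub_cancel] at this
  intro p v hv
  refine ⟨by have := hyb _ v hv; rwa [show p + 1 - 2 = p - 1 by omega] at this, ?_⟩
  set w := proj S.iP p v with hw
  have hwP : w ∈ P p := proj_mem S.iP p v
  have hv' : v - w ∈ below P p := S.sub_proj_mem hv
  set T := top S.iP m e with hT
  have h1 : e (y v) - y (e v) - ((p : K) - m) • v =
      (e (y (v - w)) - y (e (v - w)) - ((p : K) - m) • (v - w)) +
      (e (y w - Λ' w) + (e (Λ' w) - T (Λ' w)) - (y (e w - T w)) - (y (T w) - Λ' (T w)) +
        ((T * Λ' - Λ' * T) w - ((p : K) - m) • w)) := by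
    simp only [map_sub, smul_sub, LinearMap.sub_apply, Module.End.mul_apply]
    abel
  rw [h1, t.ef, wt_apply _ m hwP, sub_self, add_zero]
  have hTw : T w ∈ P (p + 2) := by
    rw [hT, S.top_apply hwP]; exact proj_mem S.iP _ _
  apply Submodule.add_mem
  · exact Submodule.sub_mem _ (Submodule.sub_mem _ (heyb _ _ hv') (hyeb _ _ hv'))
      (Submodule.smul_mem _ _ hv')
  · refine Submodule.sub_mem _ (Submodule.sub_mem _ (Submodule.add_mem _ ?_ ?_) ?_) ?_
    · by_cases hp : 2 ≤ p
      · have := S.e_below (hy p w hwP)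
        rwa [show p - 2 + 2 = p by omega] at this
      · have h2 := hy p w hwP
        rw [show p - 2 = 0 by omega] at h2
        rw [hb0 _ h2, map_zero]
        exact Submodule.zero_mem _
    · by_cases hp : 2 ≤ p
      · have := S.e_top (hΛ2 p hp w hwP)
        rwa [show p - 2 + 2 = p by omega] at this
      · rw [hΛ0 p (by omega) w hwP, map_zero, map_zero, sub_zero]
        exact Submodule.zero_mem _
    · have := hyb _ _ (S.e_top hwP)
      rwa [Nat.add_sub_cancel] at this
    · have := hy _ _ hTw
      rwa [Nat.add_sub_cancel] at this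

/-- **The lowering operators of a pencil contain the lowering operators along the base and along the
fibres.** -/
theorem exists_lowers [Module.Finite K V] (hm : 1 ≤ m) {U : Submodule K (Module.End K V)}
    {r : K[X]} (hr : r ≠ 0)
    (hU : ∀ s, s ≠ 0 → r.eval s ≠ 0 → ∃ F ∈ U, Sl2 (wt S.igr m) (h + s ^ 2 • e) F) :
    ∃ x ∈ U, ∃ y ∈ U, LowersBase gr P h x ∧ LowersFibre P m e y := by
  obtain ⟨Λ, Λ', t1, t2, hΛ', t⟩ := S.exists_sl2_both
  obtain ⟨q, A, hq, hA, hqA⟩ := S.exists_family
  have hA0 : A 0 = q.eval 0 • (Λ + Λ') := (hqA 0 (Λ + Λ') (by rw [S.LL_zero]; exact t)).symm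
  obtain ⟨N, a, hN, ha⟩ := hA.exists_coeff
  have ha0 : a 0 = q.eval 0 • (Λ + Λ') := by
    rw [← hA0, ha 0, Finset.sum_eq_single 0]
    · simp
    · intro k _ hk
      rw [zero_pow hk, zero_smul]
    · intro h'; exact absurd (Finset.mem_range.2 hN) h'
  set b : ℕ → Module.End K V := fun M =>
    ∑ n ∈ range (4 * m + 1), ∑ k ∈ range N, if n + k = M then cmp S.iP m n (a k) else 0 with hb
  have hbU : ∀ M < 4 * m + 1 + N, b M ∈ U := by
    apply coeff_mem (r := X * r) (mul_ne_zero X_ne_zero hr)
    intro s hs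
    rw [eval_mul, eval_X] at hs
    have hs0 : s ≠ 0 := left_ne_zero_of_mul hs
    obtain ⟨F, hF, tF⟩ := hU s hs0 (right_ne_zero_of_mul hs)
    have e1 := hqA s _ (S.sl2_conj hs0 tF)
    have e2 : scal S.iP (fun p => s ^ p) * A s * scal S.iP (fun p => (s ^ p)⁻¹) =
        q.eval s • F := by
      rw [← e1, mul_smul_comm, smul_mul_assoc]
      congr 1
      calc scal S.iP (fun p => s ^ p) * (scal S.iP (fun p => (s ^ p)⁻¹) * F *
            scal S.iP (fun p => s ^ p)) * scal S.iP (fun p => (s ^ p)⁻¹)
          = (scal S.iP (fun p => s ^ p) * scal S.iP (fun p => (s ^ p)⁻¹)) * F *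
            (scal S.iP (fun p => s ^ p) * scal S.iP (fun p => (s ^ p)⁻¹)) := by noncomm_ring
        _ = F := by rw [S.scal_inv hs0, one_mul, mul_one]
    have e3 := S.cmp_sum (A s) hs0
    rw [e2] at e3
    have hcs : ∀ n, cmp S.iP m n (A s) = ∑ k ∈ range N, s ^ k • cmp S.iP m n (a k) := by
      intro n
      rw [ha s, cmp_comb]
    have e4 : ∑ n ∈ range (4 * m + 1), s ^ n • cmp S.iP m n (A s) =
        ∑ M ∈ range (4 * m + 1 + N), s ^ M • b M := by
      rw [hb, ← double_sum]
      apply Finset.sum_congr rfl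
      intro n _
      rw [hcs]
    rw [← e4, ← e3]
    exact Submodule.smul_mem _ _ (Submodule.smul_mem _ _ hF)
  set q0 := q.eval 0 with hq0
  -- the values of the two operators
  have hx0 : ∀ p, ∀ v ∈ P p, (q0⁻¹ • b (2 * m)) v - Λ v ∈ below P p := by
    intro p v hv
    have h1 := S.coeff_apply a hN (M := 2 * m) (by omega) hv (b := p) (by omega)
    have h2 : cmp S.iP m (2 * m) (a 0) v = q0 • Λ v := by
      by_cases hp : p < 2 * m + 1
      · rw [S.cmp_apply _ _ hv, Finset.sum_eq_single p]
        · rw [if_pos (by omega), ha0, LinearMap.smul_apply, LinearMap.add_apply, map_smul, map_add,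
            proj_same S.iP (S.lam_mem t1 hv)]
          have h3 : proj S.iP p (Λ' v) = 0 := by
            have h4 := hΛ' p v (by rw [grZ_natCast]; exact hv)
            by_cases h5 : 2 ≤ p
            · rw [show (p : ℤ) + -2 = ((p - 2 : ℕ) : ℤ) by omega, grZ_natCast] at h4
              exact proj_ne S.iP h4 (by omega)
            · rw [grZ_of_neg (by omega)] at h4
              rw [(Submodule.mem_bot _).1 h4, map_zero]
          rw [h3, add_zero]
        · intro q' _ hq'
          rw [if_neg (by omega)]
        · intro h'; exact absurd (Finset.mem_range.2 hp) h'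
      · rw [S.bP p (by omega), Submodule.mem_bot] at hv
        rw [hv, map_zero, map_zero, smul_zero]
    have h3 : (q0⁻¹ • b (2 * m)) v - Λ v = q0⁻¹ • (b (2 * m) v - cmp S.iP m (2 * m) (a 0) v) := by
      rw [h2, smul_sub, smul_smul, inv_mul_cancel₀ hq, one_smul, LinearMap.smul_apply]
    rw [h3]
    exact Submodule.smul_mem _ _ h1
  have hy0 : ∀ p, ∀ v ∈ P p, (q0⁻¹ • b (2 * m - 2)) v - Λ' v ∈ below P (p - 2) := by
    intro p v hv
    have h1 := S.coeff_apply a hN (M := 2 * m - 2) (by omega) hv (b := p - 2) (by omega)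
    have h2 : cmp S.iP m (2 * m - 2) (a 0) v = q0 • Λ' v := by
      have h4 := hΛ' p v (by rw [grZ_natCast]; exact hv)
      by_cases hp : p < 2 * m + 1
      · by_cases h5 : 2 ≤ p
        · rw [show (p : ℤ) + -2 = ((p - 2 : ℕ) : ℤ) by omega, grZ_natCast] at h4
          rw [S.cmp_apply _ _ hv, Finset.sum_eq_single (p - 2)]
          · rw [if_pos (by omega), ha0, LinearMap.smul_apply, LinearMap.add_apply, map_smul,
              map_add, proj_same S.iP h4, proj_ne S.iP (S.lam_mem t1 hv) (by omega), zero_add]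
          · intro q' _ hq'
            rw [if_neg (by omega)]
          · intro h'; exact absurd (Finset.mem_range.2 (by omega)) h'
        · rw [grZ_of_neg (by omega)] at h4
          rw [(Submodule.mem_bot _).1 h4, smul_zero, S.cmp_apply _ _ hv]
          apply Finset.sum_eq_zero
          intro q' _
          rw [if_neg (by omega)]
      · rw [S.bP p (by omega), Submodule.mem_bot] at hv
        rw [hv, map_zero, map_zero, smul_zero]
    have h3 : (q0⁻¹ • b (2 * m - 2)) v - Λ' v =
        q0⁻¹ • (b (2 * m - 2) v - cmp S.iP m (2 * m - 2) (a 0) v) := by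
      rw [h2, smul_sub, smul_smul, inv_mul_cancel₀ hq, one_smul, LinearMap.smul_apply]
    rw [h3]
    exact Submodule.smul_mem _ _ h1
  exact ⟨_, Submodule.smul_mem _ _ (hbU _ (by omega)), _,
    Submodule.smul_mem _ _ (hbU _ (by omega)), S.lowersBase_of t1 hx0, S.lowersFibre_of t2 hΛ' hy0⟩

end Setup

end Pool.Agent.W498.Dom
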