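import Pool.Agent.W498.Dom.RelAlg

/-!
# From the lowering operators along the base and along the fibres to the total space
-/

open Finset Polynomial

set_option linter.unusedSectionVars false

namespace Pool.Agent.W498.Dom

open Pool.Agent.H914 Pool.Agent.H447

variable {K : Type*} [Field K] [CharZero K] {V : Type*} [AddCommGroup V] [Module K V]

namespace Setup

variable {gr P : ℕ → Submodule K V} {m : ℕ} {h e : Module.End K V} (S : Setup gr P m h e)

include S

lemma proj_below {a q : ℕ} (hq : a ≤ q) {v : V} (hv : v ∈ below P a) : proj S.iP q v = 0 := by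
  have := below_map (T := proj S.iP q) (N := ⊥) (a := a) (fun p hp v hv => by
    rw [proj_ne S.iP hv (by omega)]; exact Submodule.zero_mem _) hv
  exact (Submodule.mem_bot _).1 this

lemma bi_ext {A B : Module.End K V} (hAB : ∀ p j, ∀ v ∈ P p, v ∈ gr j → A v = B v) : A = B := by
  apply gr_ext S.iP
  intro p v hv
  rw [S.sumG v, map_sum, map_sum]
  apply Finset.sum_congr rfl
  intro j _
  exact hAB p j _ (S.hom p j v hv) (proj_mem S.igr j v)

lemma isHom_cmp {T : Module.End K V} {d : ℤ} (hT : IsHom gr d T) (n : ℕ) :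
    IsHom gr d (cmp S.iP m n T) := by
  apply IsHom.sum
  intro p _
  apply IsHom.sum
  intro q _
  split_ifs
  · have := ((S.isHom_projP q).mul hT).mul (S.isHom_projP p)
    simpa using this
  · exact isHom_zero d

lemma isHomP_cmp (n : ℕ) (T : Module.End K V) :
    IsHom P ((n : ℤ) - 2 * m) (cmp S.iP m n T) := by
  intro i v hv
  by_cases hi : 0 ≤ i
  · lift i to ℕ using hi
    rw [grZ_natCast] at hv
    rw [S.cmp_apply n T hv]
    apply Submodule.sum_mem
    intro q _
    split_ifs with hq
    · rw [show (i : ℤ) + ((n : ℤ) - 2 * m) = (q : ℤ) by omega, grZ_natCast]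
      exact proj_mem S.iP q _
    · exact Submodule.zero_mem _
  · rw [grZ_of_neg (by omega), Submodule.mem_bot] at hv
    rw [hv, map_zero]
    exact Submodule.zero_mem _

lemma cmp_same (T : Module.End K V) {p : ℕ} {v : V} (hv : v ∈ P p) :
    cmp S.iP m (2 * m) T v = proj S.iP p (T v) := by
  by_cases hp : p < 2 * m + 1
  · rw [S.cmp_apply _ _ hv, Finset.sum_eq_single p]
    · rw [if_pos (by omega)]
    · intro q' _ hq'
      rw [if_neg (by omega)]
    · intro h'; exact absurd (Finset.mem_range.2 hp) h'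
  · rw [S.bP p (by omega), Submodule.mem_bot] at hv
    rw [hv, map_zero, map_zero, map_zero]

lemma cmp_two (hm : 1 ≤ m) (T : Module.End K V) {p : ℕ} {v : V} (hv : v ∈ P (p + 2)) :
    cmp S.iP m (2 * m - 2) T v = proj S.iP p (T v) := by
  by_cases hp : p + 2 < 2 * m + 1
  · rw [S.cmp_apply _ _ hv, Finset.sum_eq_single p]
    · rw [if_pos (by omega)]
    · intro q' _ hq'
      rw [if_neg (by omega)]
    · intro h'; exact absurd (Finset.mem_range.2 (by omega)) h'
  · rw [S.bP (p + 2) (by omega), Submodule.mem_bot] at hv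
    rw [hv, map_zero, map_zero, map_zero]

lemma cmp_low (hm : 1 ≤ m) (T : Module.End K V) {p : ℕ} (hp : p < 2) {v : V} (hv : v ∈ P p) :
    cmp S.iP m (2 * m - 2) T v = 0 := by
  rw [S.cmp_apply _ _ hv]
  apply Finset.sum_eq_zero
  intro q' _
  rw [if_neg (by omega)]

/-- The triple along the base. -/
lemma sl2_base [Module.Finite K V] {x : Module.End K V} (hx : LowersBase gr P h x)
    (hxg : IsHom gr (-2) x) : Sl2 (Ha S.igr S.iP m) h (cmp S.iP m (2 * m) x) := by
  obtain ⟨Λ, t⟩ := S.exists_sl2_h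
  constructor
  · apply S.bi_ext
    intro p j v hp hj
    obtain ⟨-, h2⟩ := hx p j v ⟨mem_below_of (Nat.lt_succ_self p) hp, hj⟩
    have h3 := S.proj_below le_rfl h2
    rw [map_sub, map_sub, map_smul, proj_same S.iP hp, sub_eq_zero] at h3
    rw [LinearMap.sub_apply, Module.End.mul_apply, Module.End.mul_apply, S.cmp_same x hp,
      S.cmp_same x (S.hP p v hp), S.Ha_apply hp hj, ← h3]
    congr 1
    have h4 := congrArg (fun F => F (x v)) (S.projP_h p)
    exact h4.symm
  · exact t.he
  · have h1 := (S.isHom_cmp hxg (2 * m)).wt_comm S.igr m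
    have h2 := (S.isHomP_cmp (2 * m) x).wt_comm S.iP m
    have h3 : (((2 * m : ℕ) : ℤ) - 2 * m : ℤ) = 0 := by push_cast; ring
    rw [h3] at h2
    rw [Int.cast_zero, zero_smul, add_zero] at h2
    rw [Ha, sub_mul, mul_sub, h1, h2]
    have h4 : (((-2 : ℤ) : K)) • cmp S.iP m (2 * m) x = -(2 * cmp S.iP m (2 * m) x) := by
      push_cast
      rw [neg_smul, ofNat_smul_eq_nsmul, nsmul_eq_mul]
      rfl
    rw [h4]
    abel

/-- The triple along the fibres. -/
lemma sl2_fibre [Module.Finite K V] (hm : 1 ≤ m) {y : Module.End K V} (hy : LowersFibre P m e y) :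
    Sl2 (wt S.iP m) (top S.iP m e) (cmp S.iP m (2 * m - 2) y) := by
  obtain ⟨Λ, Λ', t1, t2, hΛ', t⟩ := S.exists_sl2_both
  have hb0 : ∀ v, v ∈ below P 0 → v = 0 := by
    intro v hv
    have : below P 0 = ⊥ := by
      rw [eq_bot_iff]
      exact iSup_le fun q => iSup_le fun hq => absurd hq (Nat.not_lt_zero q)
    rw [this] at hv
    exact (Submodule.mem_bot _).1 hv
  constructor
  · apply gr_ext S.iP
    intro p v hp
    obtain ⟨h1, h2⟩ := hy p v (mem_below_of (Nat.lt_succ_self p) hp)
    have h3 := S.proj_below le_rfl h2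
    rw [map_sub, map_sub, map_smul, proj_same S.iP hp, sub_eq_zero] at h3
    rw [LinearMap.sub_apply, Module.End.mul_apply, Module.End.mul_apply, wt_apply _ m hp, ← h3]
    congr 1
    · -- the first term
      by_cases h5 : 2 ≤ p
      · obtain ⟨p, rfl⟩ := Nat.exists_eq_add_of_le' h5
        rw [S.cmp_two hm y hp, S.top_apply (proj_mem S.iP p _)]
        have h6 : y v - proj S.iP p (y v) ∈ below P p :=
          S.sub_proj_mem (by simpa using h1)
        have h7 := S.proj_below le_rfl (S.e_below h6)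
        rw [map_sub, map_sub, sub_eq_zero] at h7
        exact h7.symm
      · rw [S.cmp_low hm y (by omega) hp, map_zero]
        have h6 : y v = 0 := hb0 _ (by rwa [show p - 1 = 0 by omega] at h1)
        rw [h6, map_zero, map_zero]
    · have hTw : top S.iP m e v ∈ P (p + 2) := by
        rw [S.top_apply hp]; exact proj_mem S.iP _ _
      rw [S.cmp_two hm y hTw]
      have h6 := (hy (p + 1) (e v - top S.iP m e v) (S.e_top hp)).1
      have h7 := S.proj_below (by omega) h6 (q := p)
      rw [map_sub, map_sub, sub_eq_zero] at h7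
      exact h7.symm
  · exact t2.he
  · have h2 := (S.isHomP_cmp (2 * m - 2) y).wt_comm S.iP m
    have h3 : (((2 * m - 2 : ℕ) : ℤ) - 2 * m : ℤ) = -2 := by omega
    rw [h3] at h2
    rw [h2]
    have h4 : (((-2 : ℤ) : K)) • cmp S.iP m (2 * m - 2) y = -(2 * cmp S.iP m (2 * m - 2) y) := by
      push_cast
      rw [neg_smul, ofNat_smul_eq_nsmul, nsmul_eq_mul]
      rfl
    rw [h4]
    abel

/-- Two commuting triples. -/
lemma add_both [Module.Finite K V] {Λ Λ' : Module.End K V}
    (t1 : Sl2 (Ha S.igr S.iP m) h Λ) (t2 : Sl2 (wt S.iP m) (top S.iP m e) Λ') :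
    Sl2 (wt S.igr m) (h + top S.iP m e) (Λ + Λ') := by
  have hwh : wt S.iP m * h = h * wt S.iP m := by
    have := S.isHomP_h.wt_comm S.iP m
    rw [this]; simp
  have hwHa : wt S.iP m * Ha S.igr S.iP m = Ha S.igr S.iP m * wt S.iP m := by
    rw [Ha, mul_sub, sub_mul, S.wt_wt]
  have c1 : h * Λ' = Λ' * h := comm_f t2 hwh.symm S.h_top
  have c2 : top S.iP m e * Λ = Λ * top S.iP m e := comm_f t1 S.Ha_top.symm S.h_top.symm
  have c3 : wt S.iP m * Λ = Λ * wt S.iP m := comm_f t1 hwHa hwh
  have c4 : Ha S.igr S.iP m * Λ' = Λ' * Ha S.igr S.iP m := comm_f t2 hwHa.symm S.Ha_top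
  have t := Sl2.add t1 t2 S.Ha_top c4 hwh.symm c1 c3.symm c2.symm
  have h1 : Ha S.igr S.iP m + wt S.iP m = wt S.igr m := by rw [Ha, sub_add_cancel]
  rwa [h1] at t

/-- The rescaled operator. -/
noncomputable def _root_.Pool.Agent.W498.Dom.resc {P : ℕ → Submodule K V}
    (iP : DirectSum.IsInternal P) (m N : ℕ) (T : Module.End K V) (s : K) : Module.End K V :=
  ∑ n ∈ range (N + 1), s ^ (N - n) • cmp iP m n T

omit S in
lemma pfam_resc (iP : DirectSum.IsInternal P) (N : ℕ) (T : Module.End K V) :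
    PVec (fun s : K => resc iP m N T s) := by
  apply PVec.sum
  intro n _
  have := (PVec.const (K := K) (cmp iP m n T)).smul (X ^ (N - n))
  simpa using this

omit S in
lemma resc_zero (iP : DirectSum.IsInternal P) (N : ℕ) (T : Module.End K V) :
    resc iP m N T 0 = cmp iP m N T := by
  rw [resc, Finset.sum_eq_single N]
  · simp
  · intro n hn hnN
    have := Finset.mem_range.1 hn
    rw [zero_pow (by omega), zero_smul]
  · intro h'; exact absurd (Finset.mem_range.2 (Nat.lt_succ_self N)) h'

lemma scal_resc {N : ℕ} (hN : N < 4 * m + 1) {T : Module.End K V}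
    (hT : ∀ n, N < n → cmp S.iP m n T = 0) {s : K} (hs : s ≠ 0) :
    s ^ (2 * m) • (scal S.iP (fun p => s ^ p) * resc S.iP m N T s) =
      s ^ N • (T * scal S.iP (fun p => s ^ p)) := by
  have h1 := S.cmp_sum T (inv_ne_zero hs)
  have h2 : ∑ n ∈ range (4 * m + 1), s⁻¹ ^ n • cmp S.iP m n T =
      ∑ n ∈ range (N + 1), s⁻¹ ^ n • cmp S.iP m n T := by
    symm
    apply Finset.sum_subset
    · intro n hn
      rw [Finset.mem_range] at hn ⊢
      omega
    · intro n _ hn
      rw [hT n (by rw [Finset.mem_range] at hn; omega), smul_zero]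
  have h3 : s ^ N • ∑ n ∈ range (N + 1), s⁻¹ ^ n • cmp S.iP m n T = resc S.iP m N T s := by
    rw [resc, Finset.smul_sum]
    apply Finset.sum_congr rfl
    intro n hn
    rw [smul_smul]
    congr 1
    have h4 : s ^ N = s ^ (N - n) * s ^ n := by
      rw [← pow_add]
      congr 1
      have := Finset.mem_range.1 hn
      omega
    rw [h4, mul_assoc, ← mul_pow, mul_inv_cancel₀ hs, one_pow, mul_one]
  rw [h2] at h1
  rw [← h3, ← h1]
  have h5 : scal S.iP (fun p => s ^ p) * scal S.iP (fun p => s⁻¹ ^ p) = 1 := by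
    have := S.scal_inv hs
    simp only [← inv_pow] at this
    exact this
  have h6 : scal S.iP (fun p => (s⁻¹ ^ p)⁻¹) = scal S.iP (fun p => s ^ p) := by
    congr 1
    funext p
    rw [inv_pow, inv_inv]
  rw [h6]
  simp only [mul_smul_comm]
  rw [smul_smul, smul_smul]
  have h7 : s ^ (2 * m) * s ^ N * s⁻¹ ^ (2 * m) = s ^ N := by
    rw [mul_right_comm, ← mul_pow, mul_inv_cancel₀ hs, one_pow, one_mul]
  rw [h7]
  congr 1
  calc scal S.iP (fun p => s ^ p) * (scal S.iP (fun p => s⁻¹ ^ p) * T * scal S.iP (fun p => s ^ p))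
      = (scal S.iP (fun p => s ^ p) * scal S.iP (fun p => s⁻¹ ^ p)) * T *
          scal S.iP (fun p => s ^ p) := by noncomm_ring
    _ = T * scal S.iP (fun p => s ^ p) := by rw [h5, one_mul]

/-- **A combination of the two lowering operators is injective.** -/
theorem exists_inj_lowers [Module.Finite K V] (hm : 1 ≤ m) {x y : Module.End K V}
    (hx : LowersBase gr P h x) (hxg : IsHom gr (-2) x) (hy : LowersFibre P m e y) (c : ℕ) :
    ∃ t : K, ∀ v ∈ gr (m + c), ((x + t • y) ^ c) v = 0 → v = 0 := by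
  have hb0 : ∀ v, v ∈ below P 0 → v = 0 := by
    intro v hv
    have : below P 0 = ⊥ := by
      rw [eq_bot_iff]
      exact iSup_le fun q => iSup_le fun hq => absurd hq (Nat.not_lt_zero q)
    rw [this] at hv
    exact (Submodule.mem_bot _).1 hv
  have t := S.add_both (S.sl2_base hx hxg) (S.sl2_fibre hm hy)
  set R : K → Module.End K V := fun s =>
    resc S.iP m (2 * m) x s + resc S.iP m (2 * m - 2) y s with hR
  have hRP : PVec R := (pfam_resc S.iP _ _).add (pfam_resc S.iP _ _)
  have hR0 : R 0 = cmp S.iP m (2 * m) x + cmp S.iP m (2 * m - 2) y := by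
    rw [hR]
    simp only [resc_zero]
  have hx0 : ∀ n, 2 * m < n → cmp S.iP m n x = 0 := by
    intro n hn
    apply S.bi_ext
    intro p j v hp hj
    rw [S.cmp_apply n x hp, LinearMap.zero_apply]
    apply Finset.sum_eq_zero
    intro q _
    split_ifs with hq
    · exact S.proj_below (by omega) (hx p j v ⟨mem_below_of (Nat.lt_succ_self p) hp, hj⟩).1
    · rfl
  have hy0 : ∀ n, 2 * m - 2 < n → cmp S.iP m n y = 0 := by
    intro n hn
    apply gr_ext S.iP
    intro p v hp
    rw [S.cmp_apply n y hp, LinearMap.zero_apply]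
    apply Finset.sum_eq_zero
    intro q _
    split_ifs with hq
    · exact S.proj_below (by omega) (hy p v (mem_below_of (Nat.lt_succ_self p) hp)).1
    · rfl
  have hconj : ∀ s : K, s ≠ 0 → scal S.iP (fun p => s ^ p) * R s =
      (x + (s ^ 2)⁻¹ • y) * scal S.iP (fun p => s ^ p) := by
    intro s hs
    have h1 := S.scal_resc (by omega) hx0 hs
    have h2 := S.scal_resc (by omega) hy0 hs
    have h3 : scal S.iP (fun p => s ^ p) * resc S.iP m (2 * m) x s =
        x * scal S.iP (fun p => s ^ p) := smul_right_injective _ (pow_ne_zero _ hs) h1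
    have h4 : scal S.iP (fun p => s ^ p) * resc S.iP m (2 * m - 2) y s =
        (s ^ 2)⁻¹ • (y * scal S.iP (fun p => s ^ p)) := by
      apply smul_right_injective _ (pow_ne_zero (2 * m) hs)
      change s ^ (2 * m) • _ = s ^ (2 * m) • _
      rw [h2, smul_smul]
      congr 1
      rw [eq_mul_inv_iff_mul_eq₀ (pow_ne_zero 2 hs), ← pow_add]
      congr 1
      omega
    rw [hR]
    simp only [mul_add, add_mul, smul_mul_assoc]
    rw [h3, h4]
  set G : K → gr (m + c) →ₗ[K] V := fun s => (R s ^ c) ∘ₗ (gr (m + c)).subtype with hG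
  have hGf : PFam G := fun v => (hRP.pfam.pow c) v
  have hG0 : Function.Injective (G 0) := by
    rw [← LinearMap.ker_eq_bot, LinearMap.ker_eq_bot']
    intro v hv
    apply Subtype.ext
    rw [hG] at hv
    simp only [LinearMap.comp_apply, Submodule.subtype_apply] at hv
    rw [hR0] at hv
    apply e_pow_inj t.swap (c := c) _ hv
    rw [LinearMap.neg_apply, wt_apply S.igr m v.2, ← neg_smul]
    congr 1
    push_cast
    ring
  obtain ⟨p, hp, hp'⟩ := hGf.generic_inj hG0
  obtain ⟨s, hs, hps⟩ := exists_nonroot p hp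
  refine ⟨(s ^ 2)⁻¹, fun v hv h0 => ?_⟩
  have h3 := hp' s hps
  rw [← LinearMap.ker_eq_bot, LinearMap.ker_eq_bot'] at h3
  set u := scal S.iP (fun p => (s ^ p)⁻¹) v with hu
  have hug : u ∈ gr (m + c) := S.scal_gr _ hv
  have hvu : scal S.iP (fun p => s ^ p) u = v := by
    rw [hu, ← Module.End.mul_apply, S.scal_inv hs]; rfl
  have hsemi : SemiconjBy (scal S.iP (fun p => s ^ p)) (R s) (x + (s ^ 2)⁻¹ • y) := hconj s hs
  have h4 := congrArg (fun F => F u) (hsemi.pow_right c).eq
  simp only [Module.End.mul_apply] at h4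
  rw [hvu, h0] at h4
  have h5 : (R s ^ c) u = 0 := by
    have h6 := congrArg (scal S.iP (fun p => (s ^ p)⁻¹)) h4
    rw [← Module.End.mul_apply, S.inv_scal hs, map_zero] at h6
    exact h6
  have h6 := congrArg Subtype.val (h3 ⟨u, hug⟩ h5)
  simp only [ZeroMemClass.coe_zero] at h6
  rw [← hvu, h6, map_zero]

end Setup

end Pool.Agent.W498.Dom
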