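import Pool.Agent.W498.Dom.RelWeak
import Pool.Agent.W498.Dom.FixMain

/-!
# The Lefschetz standard conjecture along the base and along the fibres
-/

open CategoryTheory AlgebraicGeometry Finset Polynomial

set_option linter.unusedSectionVars false

universe u v

namespace Pool.Agent.W498.Dom

open Pool.Agent.H914 Pool.Agent.H447 VarClass Obj WeilCohomology Pool.Agent.W534

variable {k : Type u} [Field k] {𝒱 : VarClass k} {ops : CycleOps 𝒱}
  {W : WeilCohomology.{u, v} ops} {Y : 𝒱.Obj} {D E : Y.Cycles}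

/-- The linear algebra of the decomposition theorem. -/
lemma PerversePieces.setup (Q : PerversePieces W D E) (hD : Y.IsCyc 1 D) (hE : Y.IsCyc 1 E) :
    Setup (W.gr Y) Q.piece Y.dim (eop W Y D) (eop W Y E) := by
  have hP := Q.isPerverse
  have bP : ∀ i, 2 * Y.dim + 1 ≤ i → Q.piece i = ⊥ := by
    intro i hi
    rw [eq_bot_iff]
    refine (hP.graded i).trans (iSup_le fun j => ?_)
    rintro v ⟨hv, hj⟩
    rw [Submodule.mem_bot]
    by_cases h1 : 2 * Y.dim < j
    · rw [W.gr_eq_bot Y j h1] at hj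
      exact (Submodule.mem_bot _).1 hj
    · apply (hP.hardLef i j (by omega)).1 v ⟨hv, hj⟩
      have h2 := pow_L_mem (isHom_mulLeft W hD) hj (i - j)
      rw [W.gr_eq_bot Y _ (by omega)] at h2
      exact (Submodule.mem_bot _).1 h2
  have eP : ∀ p, ∀ v ∈ Q.piece p, ∀ q, p + 2 < q → proj hP.isInternal q (eop W Y E v) = 0 :=
    fun p v hv q hq =>
    (mem_below hP.isInternal bP).1 (hP.mul_mem p v hv) q (by omega)
  exact
  { igr := W.isInternal Y
    iP := hP.isInternal
    bgr := fun i hi => W.gr_eq_bot Y i (by omega)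
    bP := bP
    hom := by
      intro p j v hv
      refine Submodule.iSup_induction (fun j => Q.piece p ⊓ W.gr Y j)
        (motive := fun v => proj (W.isInternal Y) j v ∈ Q.piece p) (hP.graded p hv) ?_ ?_ ?_
      · rintro i x ⟨hx, hxi⟩
        by_cases hij : i = j
        · subst hij; rw [proj_same _ hxi]; exact hx
        · rw [proj_ne _ hxi hij]; exact Submodule.zero_mem _
      · rw [map_zero]; exact Submodule.zero_mem _
      · intro x y hx hy
        rw [map_add]; exact Submodule.add_mem _ hx hy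
    hgr := isHom_mulLeft W hD
    egr := isHom_mulLeft W hE
    hP := fun p v hv => hP.smul_mem p _ rfl v hv
    he := by
      apply LinearMap.ext
      intro x
      rw [Module.End.mul_apply, Module.End.mul_apply]
      simp only [LinearMap.mulLeft_apply]
      rw [← mul_assoc, ← mul_assoc, W.even_comm (W.cl_mem hD)]
    eP := eP
    hl := hP.hardLef
    van := hP.eq_bot
    rl := hardLef_top hP.isInternal bP eP hP.relHardLef }

lemma kop_galg : GAlg (W.gr Y) (KOp W Y Y) where
  one := KOp.id Y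
  mul := fun hy hz => KOp.cast (KOp.comp hy hz) (by ring)
  hom := fun hy => KOp.isHom hy

variable (Q : PerversePieces W D E) (hD : Y.IsCyc 1 D) (hE : Y.IsCyc 1 E)

include Q hD hE

/-- From the total space to the base and the fibres. -/
theorem base_fibre_of_lefschetzB {L : Y.Cycles} (hL : Y.IsCyc 1 L) (hHL : HardLefschetz W Y L)
    (hB : LefschetzB W Y L) : BaseB Q ∧ FibreB Q := by
  have hY := inj_of_lefschetzB hL hHL hB
  have S' := Q.setup hD hE
  have hdim : ∀ c ≤ Y.dim, Module.finrank W.K (W.gr Y (Y.dim - c)) =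
      Module.finrank W.K (W.gr Y (Y.dim + c)) := by
    intro c hc
    have := betti_symm (X := Y) W (i := Y.dim - c) (by omega)
    rw [show 2 * Y.dim - (Y.dim - c) = Y.dim + c by omega] at this
    exact this.symm
  by_cases hm : 1 ≤ Y.dim
  · obtain ⟨r, hr, hr'⟩ := S'.exists_poly_hardLef hdim
    obtain ⟨x, hx, y, hy, h1, h2⟩ := S'.exists_lowers hm (U := KOp W Y Y (-1)) hr (by
      intro s hs hrs
      have hk1 : eop W Y D + s ^ 2 • eop W Y E ∈ KOp W Y Y 1 :=
        Submodule.add_mem _ (kop_L hD) (Submodule.smul_mem _ _ (kop_L hE))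
      exact exists_lower hk1 (hr' s hs hrs) hY)
    exact ⟨⟨x, (comb_iff (d := -1) (by ring)).2 hx, h1⟩,
      ⟨y, (comb_iff (d := -1) (by ring)).2 hy, h2⟩⟩
  · have h0 : Y.dim = 0 := by omega
    have hgr : ∀ j, 1 ≤ j → W.gr Y j = ⊥ := by
      intro j hj
      exact S'.bgr j (by omega)
    have h3 : ∀ p, 1 ≤ p → ∀ v, v ∈ below Q.piece p := by
      intro p hp v
      rw [S'.sumP v]
      apply Submodule.sum_mem
      intro q hq
      exact Setup.mem_below_of (by have := Finset.mem_range.1 hq; omega) (proj_mem S'.iP q v)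
    refine ⟨⟨0, (comb_iff (d := -1) (by ring)).2 (Submodule.zero_mem _), ?_⟩,
      ⟨0, (comb_iff (d := -1) (by ring)).2 (Submodule.zero_mem _), ?_⟩⟩
    · rintro p j v ⟨-, hj⟩
      refine ⟨Submodule.zero_mem _, ?_⟩
      by_cases hp : 1 ≤ p
      · exact h3 p hp _
      · by_cases hj' : 1 ≤ j
        · rw [hgr j hj'] at hj
          have hj0 : v = 0 := (Submodule.mem_bot W.K).1 hj
          rw [hj0]; simp
        · have hj0 : j = 0 := by omega
          have hp0 : p = 0 := by omega
          subst hj0 hp0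
          simp
    · intro p v _
      refine ⟨Submodule.zero_mem _, ?_⟩
      by_cases hp : 1 ≤ p
      · exact h3 p hp _
      · have hp0 : p = 0 := by omega
        subst hp0
        simp [h0]

/-- From the base and the fibres to the total space. -/
theorem lefschetzB_of_base_fibre {L : Y.Cycles} (hL : Y.IsCyc 1 L) (hHL : HardLefschetz W Y L)
    (h1 : BaseB Q) (h2 : FibreB Q) : LefschetzB W Y L := by
  obtain ⟨x, hx, h1⟩ := h1
  obtain ⟨y, hy, h2⟩ := h2
  rw [comb_iff (d := -1) (by ring)] at hx hy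
  have S' := Q.setup hD hE
  apply lefschetzB_of_inj hL hHL
  intro c hc
  by_cases hc0 : c = 0
  · subst hc0
    exact ⟨LinearMap.id, KOp.cast (KOp.id Y) (by simp), fun a _ h => h⟩
  · obtain ⟨t, ht⟩ := S'.exists_inj_lowers (by omega) h1
      (fun i a ha => by simpa using KOp.isHom hx i a ha) h2 c
    refine ⟨(x + t • y) ^ c, KOp.cast (kop_pow (Submodule.add_mem _ hx
      (Submodule.smul_mem _ _ hy)) c) (by ring), ht⟩

/-- From injective operators to the lowering operator along the fibres. -/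
theorem fibreB_of_inj (h : FibreInj Q) : FibreB Q := by
  have S' := Q.setup hD hE
  obtain ⟨y, hy, h1⟩ := S'.fibre_lower kop_galg (kop_L hE) (by
    intro c hc hcm
    obtain ⟨y, hy, h1, h2⟩ := h c hc hcm
    exact ⟨y, (comb_iff (d := -c) (by ring)).1 hy, h1, h2⟩)
  exact ⟨y, (comb_iff (d := -1) (by ring)).2 hy, h1⟩

/-- The algebraic splitting of the perverse filtration. -/
theorem exists_splitting (h2 : FibreB Q) : ∃ π : ℕ → Module.End W.K (W.H Y),
    (∀ p, π p ∈ KOp W Y Y 0) ∧ Splits Q.piece (2 * Y.dim) π := by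
  obtain ⟨y, hy, h2⟩ := h2
  rw [comb_iff (d := -1) (by ring)] at hy
  have S' := Q.setup hD hE
  set w := eop W Y E * y - y * eop W Y E with hw
  have hwk : w ∈ KOp W Y Y 0 :=
    Submodule.sub_mem _ (KOp.cast (KOp.comp (kop_L hE) hy) (by ring))
      (KOp.cast (KOp.comp hy (kop_L hE)) (by ring))
  obtain ⟨π, hπ, hs⟩ := exists_splits (P := Q.piece) (N := 2 * Y.dim) (w := w)
    (fun p hp => S'.bP p (by omega)) (by
      rw [eq_top_iff]
      intro v _
      rw [S'.sumP v]
      apply Submodule.sum_mem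
      intro q hq
      exact Setup.mem_below_of (Finset.mem_range.1 hq) (proj_mem S'.iP q v))
    (Y.dim : W.K) (fun p v hv => (h2 p v hv).2)
  refine ⟨π, fun p => ?_, hs⟩
  obtain ⟨q, hq⟩ := hπ p
  rw [hq]
  exact kop_galg.aeval hwk q

theorem splitting_of_fibre (h2 : FibreB Q) : AlgebraicSplitting Q := by
  obtain ⟨π, hπ, hs⟩ := exists_splitting Q hD hE h2
  exact ⟨π, fun p => (comb_iff (d := 0) (by ring)).2 (hπ p), hs⟩

/-- From injective operators to the lowering operators along the base. -/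
theorem baseB_of_inj (h : BaseInj Q) (h2 : FibreB Q) : BaseB Q := by
  have S' := Q.setup hD hE
  obtain ⟨π, hπ, hs⟩ := exists_splitting Q hD hE h2
  obtain ⟨x, hx, h1⟩ := S'.base_lower kop_galg (kop_L hD) hπ hs (by
    intro p c hc
    obtain ⟨x, hx, h1⟩ := h p c hc
    exact ⟨x, (comb_iff (d := -c) (by ring)).1 hx, h1⟩)
  exact ⟨x, (comb_iff (d := -1) (by ring)).2 hx, h1⟩

theorem fibreInj_of_fibreB (h : FibreB Q) : FibreInj Q := by
  obtain ⟨y, hy, h1⟩ := h
  rw [comb_iff (d := -1) (by ring)] at hy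
  have S' := Q.setup hD hE
  intro c hc hcm
  exact ⟨y ^ c, (comb_iff (d := -c) (by ring)).2 (KOp.cast (kop_pow hy c) (by ring)),
    S'.fibre_weak (by omega) h1 hcm⟩

theorem baseInj_of_baseB (h : BaseB Q) : BaseInj Q := by
  obtain ⟨x, hx, h1⟩ := h
  rw [comb_iff (d := -1) (by ring)] at hx
  have S' := Q.setup hD hE
  intro p c hc
  exact ⟨x ^ c, (comb_iff (d := -c) (by ring)).2 (KOp.cast (kop_pow hx c) (by ring)),
    S'.base_weak h1 (fun i a ha => by simpa using KOp.isHom hx i a ha) p c⟩

/-- **The conjecture B is the conjunction of the conjecture B along the base and of the conjecture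
B along the fibres.** -/
theorem lefschetzB_tfae {L : Y.Cycles} (hL : Y.IsCyc 1 L) (hHL : HardLefschetz W Y L) :
    [LefschetzB W Y L, BaseB Q ∧ FibreB Q, BaseInj Q ∧ FibreInj Q].TFAE := by
  tfae_have 1 → 2 := base_fibre_of_lefschetzB Q hD hE hL hHL
  tfae_have 2 → 1 := fun h => lefschetzB_of_base_fibre Q hD hE hL hHL h.1 h.2
  tfae_have 2 → 3 := fun h => ⟨baseInj_of_baseB Q hD hE h.1, fibreInj_of_fibreB Q hD hE h.2⟩
  tfae_have 3 → 2 := fun h => ⟨baseB_of_inj Q hD hE h.1 (fibreB_of_inj Q hD hE h.2),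
    fibreB_of_inj Q hD hE h.2⟩
  tfae_finish

theorem splitting_of_fibreInj (h : FibreInj Q) : AlgebraicSplitting Q :=
  splitting_of_fibre Q hD hE (fibreB_of_inj Q hD hE h)

end Pool.Agent.W498.Dom
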