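import Pool.Agent.W498.Dom.RelAlg2

/-!
# Splitting a filtration by the eigenspaces of an operator
-/

open Finset Polynomial

set_option linter.unusedSectionVars false

namespace Pool.Agent.W498.Dom

open Pool.Agent.H914 Pool.Agent.H447

variable {K : Type*} [Field K] [CharZero K] {V : Type*} [AddCommGroup V] [Module K V]

lemma below_le {P : ℕ → Submodule K V} {a : ℕ} {N : Submodule K V} (h : ∀ p < a, P p ≤ N) :
    below P a ≤ N := iSup_le fun q => iSup_le fun hq => h q hq

lemma le_below (P : ℕ → Submodule K V) {p a : ℕ} (h : p < a) : P p ≤ below P a :=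
  fun _ hv => Submodule.mem_iSup_of_mem p (Submodule.mem_iSup_of_mem h hv)

lemma aeval_eig {w : Module.End K V} {v : V} {μ : K} (hv : w v = μ • v) (p : K[X]) :
    aeval w p v = p.eval μ • v := by
  induction p using Polynomial.induction_on' with
  | add p q hp hq => rw [map_add, LinearMap.add_apply, hp, hq, eval_add, add_smul]
  | monomial n c =>
    have h1 : ∀ n, (w ^ n) v = μ ^ n • v := by
      intro n
      induction n with
      | zero => simp
      | succ n ih => rw [pow_succ', Module.End.mul_apply, ih, map_smul, hv, smul_smul, pow_succ]
    rw [aeval_monomial, eval_monomial, Module.End.mul_apply, h1,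
      Module.algebraMap_end_apply, smul_smul]

/-- **An operator acting by different scalars on the graded pieces splits the filtration.** -/
theorem exists_splits {P : ℕ → Submodule K V} {N : ℕ} (hP : ∀ p, N < p → P p = ⊥)
    (htop : below P (N + 1) = ⊤) {w : Module.End K V} (m : K)
    (hw : ∀ p, ∀ v ∈ below P (p + 1), w v - ((p : K) - m) • v ∈ below P p) :
    ∃ π : ℕ → Module.End K V, (∀ p, ∃ q : K[X], π p = aeval w q) ∧ Splits P N π := by
  set E : ℕ → Submodule K V := fun p =>
    if p ≤ N then LinearMap.ker (w - ((p : K) - m) • (1 : Module.End K V)) else ⊥ with hE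
  have hEw : ∀ p, ∀ v ∈ E p, w v = ((p : K) - m) • v := by
    intro p v hv
    by_cases hp : p ≤ N
    · simp only [hE, if_pos hp, LinearMap.mem_ker, LinearMap.sub_apply, LinearMap.smul_apply,
        Module.End.one_apply] at hv
      exact sub_eq_zero.1 hv
    · simp only [hE, if_neg hp, Submodule.mem_bot] at hv
      rw [hv, map_zero, smul_zero]
  have hwE : ∀ p ≤ N, ∀ v, w v = ((p : K) - m) • v → v ∈ E p := by
    intro p hp v hv
    simp only [hE, if_pos hp, LinearMap.mem_ker, LinearMap.sub_apply, LinearMap.smul_apply,
      Module.End.one_apply]
    exact sub_eq_zero.2 hv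
  -- the eigenspaces fill the filtration
  have hA : ∀ a, below P a ≤ below E a := by
    intro a
    induction a with
    | zero => exact below_le fun p hp => absurd hp (Nat.not_lt_zero p)
    | succ a ih =>
      apply below_le
      intro p hp
      rcases Nat.lt_succ_iff_lt_or_eq.1 hp with hp | rfl
      · exact (le_below P hp).trans (ih.trans (below_le fun q hq => le_below E (by omega)))
      · by_cases hpN : p ≤ N
        · intro v hv
          have h1 : w v - ((p : K) - m) • v ∈ below E p :=
            ih (hw p v (le_below P (Nat.lt_succ_self p) hv))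
          have h2 : below E p ≤ (below E p).map (w - ((p : K) - m) • (1 : Module.End K V)) := by
            apply below_le
            intro q hq u hu
            have hne : ((q : K) - p) ≠ 0 := by
              rw [sub_ne_zero]; exact_mod_cast hq.ne
            refine ⟨((q : K) - p)⁻¹ • u, Submodule.smul_mem _ _ (le_below E hq hu), ?_⟩
            rw [map_smul, LinearMap.sub_apply, LinearMap.smul_apply, Module.End.one_apply,
              hEw q u hu, ← sub_smul, smul_smul]
            have : ((q : K) - p)⁻¹ * ((q : K) - m - ((p : K) - m)) = 1 := by
              rw [sub_sub_sub_cancel_right, inv_mul_cancel₀ hne]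
            rw [this, one_smul]
          obtain ⟨v', hv', h3⟩ := h2 h1
          have h4 : v - v' ∈ E p := by
            apply hwE p hpN
            rw [LinearMap.sub_apply, LinearMap.smul_apply, Module.End.one_apply] at h3
            rw [map_sub, smul_sub]
            have : w v - w v' = (w v - ((p : K) - m) • v) - (w v' - ((p : K) - m) • v') +
              (((p : K) - m) • v - ((p : K) - m) • v') := by abel
            rw [this, h3, sub_self, zero_add]
          have h5 := Submodule.add_mem _ (le_below E (Nat.lt_succ_self p) h4)
            (Setup.below_mono (Nat.le_succ p) hv')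
          rwa [sub_add_cancel] at h5
        · rw [hP p (by omega)]
          exact bot_le
  have hB : ∀ p, E p ≤ below P (p + 1) := by
    intro p v hv
    by_cases hp : p ≤ N
    · have key : ∀ b, v ∈ below P (p + 1 + b) → v ∈ below P (p + 1) := by
        intro b
        induction b with
        | zero => exact fun h => h
        | succ b ih =>
          intro h
          apply ih
          have h1 := hw (p + 1 + b) v h
          rw [hEw p v hv, ← sub_smul] at h1
          have hne : ((p : K) - m - (((p + 1 + b : ℕ) : K) - m)) ≠ 0 := by
            rw [sub_sub_sub_cancel_right, sub_ne_zero]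
            exact_mod_cast (by omega : p ≠ p + 1 + b)
          have h2 := Submodule.smul_mem _ (((p : K) - m - (((p + 1 + b : ℕ) : K) - m))⁻¹) h1
          rwa [smul_smul, inv_mul_cancel₀ hne, one_smul] at h2
      apply key N
      have : v ∈ below P (N + 1) := by rw [htop]; trivial
      exact Setup.below_mono (by omega) this
    · simp only [hE, if_neg hp, Submodule.mem_bot] at hv
      rw [hv]
      exact Submodule.zero_mem _
  have hEtop : below E (N + 1) = ⊤ := by
    rw [eq_top_iff, ← htop]; exact hA _
  -- the projectors
  have hinj : Set.InjOn (fun i : ℕ => (i : K) - m) (range (N + 1) : Finset ℕ) := by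
    intro a _ b _ hab
    exact_mod_cast sub_left_injective hab
  set π : ℕ → Module.End K V := fun p =>
    if p ≤ N then aeval w (Lagrange.basis (range (N + 1)) (fun i : ℕ => (i : K) - m) p) else 0
    with hπ
  have hπE : ∀ p ≤ N, ∀ q ≤ N, ∀ v ∈ E q, π p v = if p = q then v else 0 := by
    intro p hp q hq v hv
    simp only [hπ, if_pos hp]
    rw [aeval_eig (hEw q v hv)]
    split_ifs with hpq
    · subst hpq
      rw [Lagrange.eval_basis_self hinj (Finset.mem_range.2 (by omega)), one_smul]
    · have h9 := Lagrange.eval_basis_of_ne (v := fun i : ℕ => (i : K) - m) hpq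
        (Finset.mem_range.2 (by omega : q < N + 1))
      rw [h9, zero_smul]
  have hext : ∀ A B : Module.End K V, (∀ q ≤ N, ∀ v ∈ E q, A v = B v) → A = B := by
    intro A B hAB
    have h1 : below E (N + 1) ≤ LinearMap.eqLocus A B :=
      below_le fun q hq v hv => hAB q (by omega) v hv
    rw [hEtop] at h1
    ext v
    exact h1 (Submodule.mem_top : v ∈ ⊤)
  have h0 : ∀ p, N < p → π p = 0 := by
    intro p hp
    simp only [hπ, if_neg (not_le.2 hp)]
  have hrange : ∀ p, LinearMap.range (π p) = E p := by
    intro p
    by_cases hp : p ≤ N
    · apply le_antisymm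
      · rintro _ ⟨v, rfl⟩
        have h1 : below E (N + 1) ≤ (E p).comap (π p) := by
          apply below_le
          intro q hq v hv
          rw [Submodule.mem_comap, hπE p hp q (by omega) v hv]
          split_ifs with hpq
          · rw [hpq]; exact hv
          · exact Submodule.zero_mem _
        rw [hEtop] at h1
        exact h1 (Submodule.mem_top : v ∈ ⊤)
      · intro v hv
        exact ⟨v, by rw [hπE p hp p hp v hv, if_pos rfl]⟩
    · rw [h0 p (by omega), LinearMap.range_zero]
      simp only [hE, if_neg hp]
  refine ⟨π, fun p => ?_, fun p q => ?_, h0, ?_, fun a => ?_⟩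
  · by_cases hp : p ≤ N
    · exact ⟨_, by simp only [hπ, if_pos hp]; rfl⟩
    · exact ⟨0, by rw [h0 p (by omega), map_zero]⟩
  · by_cases hp : p ≤ N
    · by_cases hq : q ≤ N
      · apply hext
        intro r hr v hv
        rw [Module.End.mul_apply, hπE q hq r hr v hv]
        split_ifs with h1 h2 h2
        · rfl
        · subst h1
          rw [hπE p hp q hq v hv, if_neg h2]; rfl
        · subst h2
          rw [map_zero, hπE p hp r hr v hv, if_neg h1]
        · rw [map_zero]; rfl
      · rw [h0 q (by omega), mul_zero, if_neg (by omega)]
    · rw [h0 p (by omega), zero_mul]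
      split_ifs <;> rfl
  · apply hext
    intro r hr v hv
    rw [LinearMap.sum_apply, Finset.sum_eq_single r]
    · rw [hπE r hr r hr v hv, if_pos rfl]; rfl
    · intro p hp hpr
      rw [hπE p (by have := Finset.mem_range.1 hp; omega) r hr v hv, if_neg hpr]
    · intro h'; exact absurd (Finset.mem_range.2 (by omega)) h'
  · have h1 : (fun q => LinearMap.range (π q)) = E := funext hrange
    rw [h1]
    exact le_antisymm (hA a) (below_le fun q hq => (hB q).trans (Setup.below_mono (by omega)))

end Pool.Agent.W498.Dom
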