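import Pool.Agent.W498.Dom.RelSplit
import Pool.Agent.H447R3.AoC

/-!
# Lowering operators from injective operators
-/

open Finset Polynomial

set_option linter.unusedSectionVars false

namespace Pool.Agent.W498.Dom

open Pool.Agent.H914 Pool.Agent.H447

variable {K : Type*} [Field K] [CharZero K] {V : Type*} [AddCommGroup V] [Module K V]

/-- A graded algebra of homogeneous operators over `K`. -/
structure GAlg (gr : ℕ → Submodule K V) (U : ℤ → Submodule K (Module.End K V)) : Prop where
  one : 1 ∈ U 0
  mul : ∀ {d e : ℤ} {y z : Module.End K V}, y ∈ U d → z ∈ U e → y * z ∈ U (d + e)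
  hom : ∀ {d : ℤ} {y : Module.End K V}, y ∈ U d → IsHom gr (2 * d) y

namespace GAlg

variable {gr : ℕ → Submodule K V} {U : ℤ → Submodule K (Module.End K V)} (hU : GAlg gr U)

include hU

lemma cast {d e : ℤ} {y : Module.End K V} (h : y ∈ U d) (hde : d = e) : y ∈ U e := hde ▸ h

lemma aeval {w : Module.End K V} (hw : w ∈ U 0) (q : K[X]) : Polynomial.aeval w q ∈ U 0 := by
  have hpow : ∀ i : ℕ, w ^ i ∈ U 0 := by
    intro i
    induction i with
    | zero => rw [pow_zero]; exact hU.one
    | succ i ih => rw [pow_succ]; exact hU.cast (hU.mul ih hw) (by ring)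
  rw [aeval_eq_sum_range]
  exact Submodule.sum_mem _ fun i _ => Submodule.smul_mem _ _ (hpow i)

end GAlg

/-- The operator `T` is the leading part, raising the degree by `t`, of the operator `z`. -/
def Lead (P : ℕ → Submodule K V) (t : ℤ) (z T : Module.End K V) : Prop :=
  IsHom P t T ∧ ∀ p : ℕ, ∀ v ∈ P p, z v - T v ∈ below P ((p : ℤ) + t).toNat

lemma Lead.bound {P : ℕ → Submodule K V} {t : ℤ} {z T : Module.End K V} (hT : Lead P t z T) {a : ℤ}
    {v : V} (hv : v ∈ below P a.toNat) : z v ∈ below P (a + t).toNat := by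
  refine Setup.below_map (fun p hp v hv => ?_) hv
  have h1 := hT.2 p v hv
  have h2 := hT.1 p v (by rw [grZ_natCast]; exact hv)
  have h3 : T v ∈ below P (a + t).toNat := by
    by_cases hn : 0 ≤ (p : ℤ) + t
    · obtain ⟨j, hj⟩ := Int.eq_ofNat_of_zero_le hn
      rw [hj, grZ_natCast] at h2
      exact Setup.mem_below_of (by omega) h2
    · rw [grZ_of_neg (by omega)] at h2
      rw [(Submodule.mem_bot _).1 h2]
      exact Submodule.zero_mem _
  have h4 := Submodule.add_mem _ (Setup.below_mono (by omega : ((p : ℤ) + t).toNat ≤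
    (a + t).toNat) h1) h3
  rwa [sub_add_cancel] at h4

lemma Lead.mul {P : ℕ → Submodule K V} {t t' : ℤ} {z T z' T' : Module.End K V}
    (hT : Lead P t z T) (hT' : Lead P t' z' T') : Lead P (t + t') (z * z') (T * T') := by
  refine ⟨hT.1.mul hT'.1, fun p v hv => ?_⟩
  rw [Module.End.mul_apply, Module.End.mul_apply]
  have e1 : z (z' v) - T (T' v) = z (z' v - T' v) + (z (T' v) - T (T' v)) := by
    rw [map_sub]; abel
  rw [e1]
  apply Submodule.add_mem
  · have := hT.bound (hT'.2 p v hv)
    rwa [show (p : ℤ) + t' + t = (p : ℤ) + (t + t') by ring] at this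
  · have h4 := hT'.1 p v (by rw [grZ_natCast]; exact hv)
    by_cases hn : 0 ≤ (p : ℤ) + t'
    · obtain ⟨j, hj⟩ := Int.eq_ofNat_of_zero_le hn
      rw [hj, grZ_natCast] at h4
      have := hT.2 j _ h4
      have hj' : ((j : ℕ) : ℤ) = (p : ℤ) + t' := hj.symm
      rwa [hj', show (p : ℤ) + t' + t = (p : ℤ) + (t + t') by ring] at this
    · rw [grZ_of_neg (by omega)] at h4
      rw [(Submodule.mem_bot _).1 h4, map_zero, map_zero, sub_zero]
      exact Submodule.zero_mem _

lemma Lead.pow {P : ℕ → Submodule K V} {t : ℤ} {z T : Module.End K V} (hT : Lead P t z T)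
    (c : ℕ) : Lead P (c * t) (z ^ c) (T ^ c) := by
  induction c with
  | zero =>
    refine ⟨by simpa using isHom_one, fun p v _ => ?_⟩
    simp
  | succ c ih =>
    rw [pow_succ, pow_succ]
    have := ih.mul hT
    rwa [show (c : ℤ) * t + t = ((c + 1 : ℕ) : ℤ) * t by push_cast; ring] at this

namespace Setup

variable {gr P : ℕ → Submodule K V} {m : ℕ} {h e : Module.End K V} (S : Setup gr P m h e)
  {U : ℤ → Submodule K (Module.End K V)}

/-- The operators induced on the graded pieces by operators of `U d` raising the filtration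
by `t d`. -/
def _root_.Pool.Agent.W498.Dom.Ind (gr P : ℕ → Submodule K V)
    (U : ℤ → Submodule K (Module.End K V)) (t d : ℤ) (T : Module.End K V) : Prop :=
  IsHom P (t * d) T ∧ IsHom gr (2 * d) T ∧ ∃ z ∈ U d, ∀ p : ℕ, ∀ v ∈ P p,
    z v - T v ∈ below P ((p : ℤ) + t * d).toNat

include S

omit S in
lemma Ind.bound {t d : ℤ} {T z : Module.End K V} (hT : IsHom P (t * d) T)
    (hz : ∀ p : ℕ, ∀ v ∈ P p, z v - T v ∈ below P ((p : ℤ) + t * d).toNat) {a : ℤ} {v : V}
    (hv : v ∈ below P a.toNat) : z v ∈ below P (a + t * d).toNat := by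
  refine below_map (fun p hp v hv => ?_) hv
  have h1 := hz p v hv
  have h2 := hT p v (by rw [grZ_natCast]; exact hv)
  have h3 : T v ∈ below P (a + t * d).toNat := by
    by_cases hn : 0 ≤ (p : ℤ) + t * d
    · obtain ⟨j, hj⟩ := Int.eq_ofNat_of_zero_le hn
      rw [hj, grZ_natCast] at h2
      exact mem_below_of (by omega) h2
    · rw [grZ_of_neg (by omega)] at h2
      rw [(Submodule.mem_bot _).1 h2]
      exact Submodule.zero_mem _
  have h4 := Submodule.add_mem _ (below_mono (by omega : ((p : ℤ) + t * d).toNat ≤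
    (a + t * d).toNat) h1) h3
  rwa [sub_add_cancel] at h4

omit S in
lemma Ind.smul {t d : ℤ} {T : Module.End K V} (hT : Ind gr P U t d T) (c : K) :
    Ind gr P U t d (c • T) := by
  obtain ⟨h1, h2, z, hz, h3⟩ := hT
  refine ⟨h1.smul c, h2.smul c, c • z, Submodule.smul_mem _ _ hz, fun p v hv => ?_⟩
  rw [LinearMap.smul_apply, LinearMap.smul_apply, ← smul_sub]
  exact Submodule.smul_mem _ _ (h3 p v hv)

omit S in
lemma Ind.add {t d : ℤ} {T T' : Module.End K V} (hT : Ind gr P U t d T)
    (hT' : Ind gr P U t d T') : Ind gr P U t d (T + T') := by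
  obtain ⟨h1, h2, z, hz, h3⟩ := hT
  obtain ⟨h1', h2', z', hz', h3'⟩ := hT'
  refine ⟨h1.add h1', h2.add h2', z + z', Submodule.add_mem _ hz hz', fun p v hv => ?_⟩
  rw [LinearMap.add_apply, LinearMap.add_apply, add_sub_add_comm]
  exact Submodule.add_mem _ (h3 p v hv) (h3' p v hv)

omit S in
lemma Ind.zero (t d : ℤ) : Ind gr P U t d 0 :=
  ⟨isHom_zero _, isHom_zero _, 0, Submodule.zero_mem _, fun p v _ => by
    rw [LinearMap.zero_apply, sub_self]; exact Submodule.zero_mem _⟩

omit S in
lemma Ind.one (hU : GAlg gr U) (t : ℤ) : Ind gr P U t 0 1 :=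
  ⟨by rw [mul_zero]; exact isHom_one, by rw [mul_zero]; exact isHom_one, 1, hU.one,
    fun p v _ => by rw [sub_self]; exact Submodule.zero_mem _⟩

omit S in
lemma Ind.mul (hU : GAlg gr U) {t d d' : ℤ} {T T' : Module.End K V} (hT : Ind gr P U t d T)
    (hT' : Ind gr P U t d' T') : Ind gr P U t (d + d') (T * T') := by
  obtain ⟨h1, h2, z, hz, h3⟩ := hT
  obtain ⟨h1', h2', z', hz', h3'⟩ := hT'
  refine ⟨?_, ?_, z * z', hU.mul hz hz', fun p v hv => ?_⟩
  · rw [mul_add]; exact h1.mul h1'
  · rw [mul_add]; exact h2.mul h2'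
  · rw [Module.End.mul_apply, Module.End.mul_apply]
    have e1 : z (z' v) - T (T' v) = z (z' v - T' v) + (z (T' v) - T (T' v)) := by
      rw [map_sub]; abel
    rw [e1]
    apply Submodule.add_mem
    · have := Ind.bound h1 h3 (h3' p v hv)
      rwa [show (p : ℤ) + t * d' + t * d = (p : ℤ) + t * (d + d') by ring] at this
    · have h4 := h1' p v (by rw [grZ_natCast]; exact hv)
      by_cases hn : 0 ≤ (p : ℤ) + t * d'
      · obtain ⟨j, hj⟩ := Int.eq_ofNat_of_zero_le hn
        rw [hj, grZ_natCast] at h4
        have := h3 j _ h4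
        have hj' : ((j : ℕ) : ℤ) = (p : ℤ) + t * d' := hj.symm
        rwa [hj', show (p : ℤ) + t * d' + t * d = (p : ℤ) + t * (d + d') by ring] at this
      · rw [grZ_of_neg (by omega)] at h4
        rw [(Submodule.mem_bot _).1 h4, map_zero, map_zero, sub_zero]
        exact Submodule.zero_mem _

omit S in
lemma Ind.of_span {t d : ℤ} {T : Module.End K V} (hT : T ∈ KS (Ind gr P U t) d) :
    Ind gr P U t d T := by
  induction hT using Submodule.span_induction with
  | mem x hx => exact hx
  | zero => exact Ind.zero t d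
  | add x y _ _ hx hy => exact Ind.add hx hy
  | smul c x _ hx => exact Ind.smul hx c

/-- The components of the operators preserving the filtration. -/
lemma lead_cmp {t : ℤ} {n : ℕ} (hn : (n : ℤ) = 2 * m + t) {z : Module.End K V}
    (hb : ∀ a : ℕ, ∀ v ∈ below P a, z v ∈ below P ((a : ℤ) + t).toNat) :
    Lead P t z (cmp S.iP m n z) := by
  refine ⟨?_, fun p v hv => ?_⟩
  · have := S.isHomP_cmp n z
    rwa [show (n : ℤ) - 2 * m = t by omega] at this
  · have h1 := hb (p + 1) v (mem_below_of (Nat.lt_succ_self p) hv)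
    have hb0 : ∀ v, v ∈ below P 0 → v = 0 := by
      intro v hv
      have : below P 0 = ⊥ := by
        rw [eq_bot_iff]
        exact iSup_le fun q => iSup_le fun hq => absurd hq (Nat.not_lt_zero q)
      rw [this] at hv
      exact (Submodule.mem_bot _).1 hv
    by_cases hn' : 0 ≤ (p : ℤ) + t
    · obtain ⟨j, hj⟩ := Int.eq_ofNat_of_zero_le hn'
      have h2 : (((p + 1 : ℕ) : ℤ) + t).toNat = j + 1 := by push_cast; omega
      rw [h2] at h1
      rw [hj, Int.toNat_natCast]
      have h3 : Pool.Agent.W498.Dom.cmp S.iP m n z v = proj S.iP j (z v) := by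
        rw [S.cmp_apply n z hv]
        by_cases hj2 : j < 2 * m + 1
        · rw [Finset.sum_eq_single j]
          · rw [if_pos (by omega)]
          · intro q _ hq
            rw [if_neg (by omega)]
          · intro h'; exact absurd (Finset.mem_range.2 hj2) h'
        · have h4 := proj_mem S.iP j (z v)
          rw [S.bP j (by omega)] at h4
          rw [(Submodule.mem_bot _).1 h4]
          apply Finset.sum_eq_zero
          intro q hq
          rw [if_neg (by have := Finset.mem_range.1 hq; omega)]
      rw [h3]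
      exact S.sub_proj_mem h1
    · have h2 : (((p + 1 : ℕ) : ℤ) + t).toNat = 0 := by push_cast; omega
      rw [h2] at h1
      rw [hb0 _ h1, S.cmp_apply n z hv, hb0 _ h1]
      rw [Finset.sum_eq_zero]
      · rw [sub_zero]; exact Submodule.zero_mem _
      · intro q _
        split_ifs
        · exact map_zero _
        · rfl

/-- The components of the operators of `U` preserving the filtration. -/
lemma Ind.cmp (hU : GAlg gr U) {t d : ℤ} {n : ℕ} (hn : (n : ℤ) = 2 * m + t * d)
    {z : Module.End K V} (hz : z ∈ U d)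
    (hb : ∀ a : ℕ, ∀ v ∈ below P a, z v ∈ below P ((a : ℤ) + t * d).toNat) :
    Ind gr P U t d (cmp S.iP m n z) :=
  have h1 := S.lead_cmp hn hb
  ⟨h1.1, S.isHom_cmp (hU.hom hz) n, z, hz, h1.2⟩

omit S in
/-- The algebra of operators induced on the graded pieces, for the second grading. -/
lemma Ind.opAlg (hU : GAlg gr U) : OpAlg P (Ind gr P U 2) where
  one := Ind.one hU 2
  zero d := Ind.zero 2 d
  add := Ind.add
  smul q _ _ hT := Ind.smul hT (q : K)
  mul := Ind.mul hU
  hom := fun hT => hT.1

/-- **Lowering operators along the fibres from injective operators.** -/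
theorem fibre_lower [Module.Finite K V] (hU : GAlg gr U) (he : e ∈ U 1)
    (hy : ∀ c : ℕ, 1 ≤ c → c ≤ m → ∃ y ∈ U (-c), (∀ a, ∀ v ∈ below P a, y v ∈ below P (a - 2 * c)) ∧
      ∀ v ∈ below P (m + c + 1), y v ∈ below P (m - c) → v ∈ below P (m + c)) :
    ∃ y ∈ U (-1), LowersFibre P m e y := by
  have hR := Ind.opAlg (gr := gr) (P := P) hU
  have hL : Ind gr P U 2 1 (top S.iP m e) := by
    refine ⟨by simpa using S.isHomP_top, by simpa using S.isHom_top, e, he, fun p v hv => ?_⟩
    have := S.e_top hv
    rwa [show ((p : ℤ) + 2 * 1).toNat = p + 2 by omega]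
  have hLK : top S.iP m e ∈ KS (Ind gr P U 2) 1 := Submodule.subset_span hL
  obtain ⟨Φ, hΦ, hLam⟩ := hR.kspan.exists_lam S.iP S.bP hLK S.rl (by
    intro c hc
    have hν : ∃ ν ∈ KS (Ind gr P U 2) (-c), ∀ a ∈ P (m + c), ν a = 0 → a = 0 := by
      by_cases hc0 : 1 ≤ c
      · obtain ⟨y, hyU, h1, h2⟩ := hy c hc0 hc
        have hI : Ind gr P U 2 (-c) (cmp S.iP m (2 * m - 2 * c) y) := by
          apply Ind.cmp S hU (by omega) hyU
          intro a v hv
          rw [show ((a : ℤ) + 2 * -(c : ℤ)).toNat = a - 2 * c by omega]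
          exact h1 a v hv
        refine ⟨_, Submodule.subset_span hI, fun a ha h0 => ?_⟩
        have h3 : proj S.iP (m - c) (y a) = 0 := by
          rw [S.cmp_apply _ _ ha, Finset.sum_eq_single (m - c)] at h0
          · rwa [if_pos (by omega)] at h0
          · intro q _ hq
            rw [if_neg (by omega)]
          · intro h'; exact absurd (Finset.mem_range.2 (by omega)) h'
        have h4 := h1 (m + c + 1) a (mem_below_of (Nat.lt_succ_self _) ha)
        rw [show m + c + 1 - 2 * c = m - c + 1 by omega] at h4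
        have h5 := S.sub_proj_mem h4
        rw [h3, sub_zero] at h5
        have h6 := S.proj_below le_rfl (h2 a (mem_below_of (Nat.lt_succ_self _) ha) h5)
        rwa [proj_same S.iP ha] at h6
      · have : c = 0 := by omega
        subst this
        exact ⟨1, Submodule.subset_span (by simpa using hR.one), fun a _ h0 => h0⟩
    obtain ⟨ν, hν, hinj⟩ := hν
    exact hR.exists_theta_of_inj hLK S.rl hc hν hinj)
  obtain ⟨F, t, hFP, hF⟩ := exists_sl2 S.iP S.isHomP_top S.bP S.rl
  have hFR := Ind.of_span (lower_of_lam hR.kspan S.iP S.bP hLK S.rl hΦ hLam hF)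
  obtain ⟨-, -, y, hyU, hyF⟩ := hFR
  refine ⟨y, hyU, S.lowersFibre_of t hFP fun p v hv => ?_⟩
  have := hyF p v hv
  rwa [show ((p : ℤ) + 2 * -1).toNat = p - 2 by omega] at this

/-- Homogeneous operators for the first weight. -/
lemma isHomA {T : Module.End K V} {d : ℤ} (hT : IsHom P 0 T) (hT' : IsHom gr (2 * d) T) :
    IsHom (grA S.igr S.iP m) (2 * d) T := by
  intro i a ha
  by_cases hi : 0 ≤ i
  · lift i to ℕ using hi
    rw [grZ_natCast, S.mem_grA] at ha
    have h1 := hT'.wt_comm S.igr m
    have h2 := hT.wt_comm S.iP m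
    rw [Int.cast_zero, zero_smul, add_zero] at h2
    have h3 : Ha S.igr S.iP m * T = T * Ha S.igr S.iP m + ((2 * d : ℤ) : K) • T := by
      rw [Ha, sub_mul, mul_sub, h1, h2]; abel
    have h4 := congrArg (fun F => F a) h3
    simp only [Module.End.mul_apply, LinearMap.add_apply, LinearMap.smul_apply] at h4
    rw [ha, map_smul, ← add_smul] at h4
    have h5 : Ha S.igr S.iP m (T a) = ((((i : ℤ) - (2 * m : ℕ) + 2 * d : ℤ)) : K) • T a := by
      rw [h4]; congr 1; push_cast; ring
    by_cases hn : 0 ≤ (i : ℤ) + 2 * d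
    · obtain ⟨j, hj⟩ := Int.eq_ofNat_of_zero_le hn
      have hj' : (i : ℤ) + 2 * d = (j : ℕ) := hj
      rw [hj', grZ_natCast, S.mem_grA, h5]
      congr 2
      omega
    · rw [grZ_of_neg (by omega), Submodule.mem_bot, S.sumP (T a)]
      apply Finset.sum_eq_zero
      intro p hp
      have h6 := S.comp_mem h5 p
      rw [grZ_of_neg (by have := Finset.mem_range.1 hp; push_cast; omega)] at h6
      exact (Submodule.mem_bot _).1 h6
  · rw [grZ_of_neg (by omega), Submodule.mem_bot] at ha
    rw [ha, map_zero]
    exact Submodule.zero_mem _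

/-- The algebra of operators induced on the graded pieces, for the first weight. -/
lemma Ind.opAlgA (hU : GAlg gr U) : OpAlg (grA S.igr S.iP m) (Ind gr P U 0) where
  one := Ind.one hU 0
  zero d := Ind.zero 0 d
  add := Ind.add
  smul q _ _ hT := Ind.smul hT (q : K)
  mul := Ind.mul hU
  hom := fun hT => S.isHomA (by simpa using hT.1) hT.2.1

/-- **Lowering operators along the base from injective operators.** -/
theorem base_lower [Module.Finite K V] (hU : GAlg gr U) (hh : h ∈ U 1)
    {π : ℕ → Module.End K V} (hπU : ∀ p, π p ∈ U 0) (hπ : Splits P (2 * m) π)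
    (hx : ∀ p c : ℕ, 1 ≤ c → ∃ x ∈ U (-c), ∀ v ∈ below P (p + 1) ⊓ gr (p + c),
      x v ∈ below P (p + 1) ∧ (x v ∈ below P p → v ∈ below P p)) :
    ∃ x ∈ U (-1), LowersBase gr P h x := by
  obtain ⟨hππ, hπ0, hπ1, hπP⟩ := hπ
  have hR := Ind.opAlgA S hU
  have hL : Ind gr P U 0 1 h := by
    refine ⟨by simpa using S.isHomP_h, by simpa using S.hgr, h, hh, fun p v hv => ?_⟩
    rw [sub_self]; exact Submodule.zero_mem _
  have hLK : h ∈ KS (Ind gr P U 0) 1 := Submodule.subset_span hL
  -- the projectors and the filtration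
  have hπlow : ∀ p a, a ≤ p → ∀ v ∈ below P a, π p v = 0 := by
    intro p a hpa v hv
    rw [hπP] at hv
    have := below_map (P := fun q => LinearMap.range (π q)) (T := π p) (N := ⊥) (fun q hq v hv => by
      obtain ⟨u, rfl⟩ := hv
      rw [← Module.End.mul_apply, hππ, if_neg (by omega)]
      exact Submodule.zero_mem _) hv
    exact (Submodule.mem_bot _).1 this
  have hπmem : ∀ p v, π p v ∈ below P (p + 1) := by
    intro p v
    rw [hπP]
    exact mem_below_of (P := fun q => LinearMap.range (π q)) (Nat.lt_succ_self p) ⟨v, rfl⟩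
  have hπtop : ∀ p, ∀ v ∈ below P (p + 1), v - π p v ∈ below P p := by
    intro p v hv
    rw [hπP] at hv ⊢
    have := below_map (P := fun q => LinearMap.range (π q)) (T := 1 - π p)
      (N := below (fun q => LinearMap.range (π q)) p) (fun q hq v hv => by
      obtain ⟨u, rfl⟩ := hv
      rw [LinearMap.sub_apply, Module.End.one_apply, ← Module.End.mul_apply, hππ]
      by_cases hqp : p = q
      · subst hqp
        rw [if_pos rfl, sub_self]; exact Submodule.zero_mem _
      · rw [if_neg hqp, LinearMap.zero_apply, sub_zero]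
        exact mem_below_of (P := fun q => LinearMap.range (π q)) (by omega) ⟨u, rfl⟩) hv
    exact this
  obtain ⟨Φ, hΦ, hLam⟩ := hR.kspan.exists_lam S.igrA S.bgrA hLK S.hlA (by
    intro c hc
    have hν : ∃ ν ∈ KS (Ind gr P U 0) (-c), ∀ a ∈ grA S.igr S.iP m (2 * m + c),
        ν a = 0 → a = 0 := by
      by_cases hc0 : 1 ≤ c
      · choose x hxU hxi using fun p => hx p c hc0
        set z : Module.End K V := ∑ p ∈ range (2 * m + 1), π p * x p * π p with hz
        have hzU : z ∈ U (-c) := by
          apply Submodule.sum_mem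
          intro p _
          exact hU.cast (hU.mul (hU.mul (hπU p) (hxU p)) (hπU p)) (by ring)
        -- the leading term
        have hzlead : ∀ p, ∀ v ∈ below P (p + 1), z v - π p (x p (π p v)) ∈ below P p := by
          intro p v hv
          by_cases hp : p < 2 * m + 1
          · rw [hz, LinearMap.sum_apply, ← Finset.sum_erase_add _ _ (Finset.mem_range.2 hp)]
            rw [Module.End.mul_apply, Module.End.mul_apply, add_sub_cancel_right]
            apply Submodule.sum_mem
            intro q hq
            have hqp := Finset.ne_of_mem_erase hq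
            rw [Module.End.mul_apply, Module.End.mul_apply]
            rcases lt_or_gt_of_ne hqp with hlt | hgt
            · exact below_mono (by omega) (hπmem q _)
            · rw [hπlow q (p + 1) (by omega) v hv, map_zero, map_zero]
              exact Submodule.zero_mem _
          · have h1 : ∀ w : V, w ∈ below P p := by
              intro w
              rw [S.sumP w]
              apply Submodule.sum_mem
              intro q hq
              exact mem_below_of (by have := Finset.mem_range.1 hq; omega) (proj_mem S.iP q w)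
            exact h1 _
        have hzP : ∀ p, ∀ v ∈ P p, z v ∈ below P (p + 1) := by
          intro p v hv
          have h1 := hzlead p v (mem_below_of (Nat.lt_succ_self p) hv)
          have h2 := Submodule.add_mem _ (below_mono (Nat.le_succ p) h1) (hπmem p (x p (π p v)))
          rwa [sub_add_cancel] at h2
        have hI : Ind gr P U 0 (-c) (cmp S.iP m (2 * m) z) := by
          apply Ind.cmp S hU (by push_cast; ring) hzU
          intro a v hv
          rw [show ((a : ℤ) + 0 * -(c : ℤ)).toNat = a by omega]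
          exact below_map (fun p hp v hv => below_mono (by omega) (hzP p v hv)) hv
        refine ⟨_, Submodule.subset_span hI, fun a ha h0 => ?_⟩
        rw [S.mem_grA] at ha
        rw [S.sumP a]
        apply Finset.sum_eq_zero
        intro p hp
        set v := proj S.iP p a with hv
        have hvP : v ∈ P p := proj_mem S.iP p a
        have hvg : v ∈ gr (p + c) := by
          have h1 := S.comp_mem ha p
          rw [show ((((2 * m + c : ℕ) : ℤ) - (2 * m : ℕ) + p)) = ((p + c : ℕ) : ℤ) by
            push_cast; ring, grZ_natCast] at h1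
          exact h1
        have h1 : cmp S.iP m (2 * m) z v = 0 := by
          have h2 : IsHom P 0 (cmp S.iP m (2 * m) z) := by
            have := S.isHomP_cmp (2 * m) z
            rwa [show ((2 * m : ℕ) : ℤ) - 2 * m = 0 by push_cast; ring] at this
          have h3 := congrArg (fun F => F a) (h2.proj_comm S.iP p)
          simp only [Module.End.mul_apply] at h3
          rw [h0, map_zero] at h3
          exact h3.symm
        rw [S.cmp_same z hvP] at h1
        have h2 := S.sub_proj_mem (hzP p v hvP)
        rw [h1, sub_zero] at h2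
        set u := π p v with hu
        have hvb := mem_below_of (Nat.lt_succ_self p) hvP
        have hub : u ∈ below P (p + 1) := hπmem p v
        have hug : u ∈ gr (p + c) := by
          have := (hU.hom (hπU p)) (p + c : ℕ) v (by rw [grZ_natCast]; exact hvg)
          rwa [mul_zero, add_zero, grZ_natCast] at this
        obtain ⟨h3, h4⟩ := hxi p u ⟨hub, hug⟩
        have h5 : x p u ∈ below P p := by
          have h6 := hzlead p v hvb
          have h7 := hπtop p _ h3
          have h8 := Submodule.sub_mem _ (Submodule.add_mem _ h7 h2) h6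
          have h9 : x p u - π p (x p u) + z v - (z v - π p (x p u)) = x p u := by abel
          rwa [h9] at h8
        have h6 := h4 h5
        have h7 := Submodule.add_mem _ (hπtop p v hvb) h6
        rw [sub_add_cancel] at h7
        have h8 := S.proj_below le_rfl h7
        rwa [proj_same S.iP hvP] at h8
      · have : c = 0 := by omega
        subst this
        exact ⟨1, Submodule.subset_span (by simpa using hR.one), fun a _ h0 => h0⟩
    obtain ⟨ν, hν, hinj⟩ := hν
    exact hR.exists_theta_of_inj hLK S.hlA hc hν hinj)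
  obtain ⟨F, t, hFP, hF⟩ := exists_sl2 S.igrA S.isHom_grA S.bgrA S.hlA
  have hFR := Ind.of_span (lower_of_lam hR.kspan S.igrA S.bgrA hLK S.hlA hΦ hLam hF)
  obtain ⟨-, -, x, hxU, hxF⟩ := hFR
  have h1 : wt S.igrA (2 * m) = Ha S.igr S.iP m := by
    apply gr_ext S.igrA
    intro i a ha
    rw [wt_apply _ _ ha, S.mem_grA.1 ha]
    push_cast; rfl
  rw [h1] at t
  refine ⟨x, hxU, S.lowersBase_of t fun p v hv => ?_⟩
  have := hxF p v hv
  rwa [show ((p : ℤ) + 0 * -1).toNat = p by omega] at this

/-- The powers of the lowering operator along the fibres. -/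
theorem fibre_weak [Module.Finite K V] (hm : 1 ≤ m) {y : Module.End K V}
    (hy : LowersFibre P m e y) {c : ℕ} (hc : c ≤ m) :
    (∀ a, ∀ v ∈ below P a, (y ^ c) v ∈ below P (a - 2 * c)) ∧
      ∀ v ∈ below P (m + c + 1), (y ^ c) v ∈ below P (m - c) → v ∈ below P (m + c) := by
  have hl : Lead P (-2) y (cmp S.iP m (2 * m - 2) y) := by
    apply S.lead_cmp (by omega)
    intro a v hv
    rw [show ((a : ℤ) + -2).toNat = a - 2 by omega]
    refine below_map (fun p hp v hv => ?_) hv
    exact below_mono (by omega) (hy p v (mem_below_of (Nat.lt_succ_self p) hv)).1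
  have hlc := hl.pow c
  have t := S.sl2_fibre hm hy
  refine ⟨fun a v hv => ?_, fun v hv h0 => ?_⟩
  · have := hlc.bound (a := a) (v := v) (by rwa [Int.toNat_natCast])
    rwa [show ((a : ℤ) + c * -2).toNat = a - 2 * c by omega] at this
  · set w := proj S.iP (m + c) v with hw
    have hwP : w ∈ P (m + c) := proj_mem S.iP _ v
    have h1 := S.sub_proj_mem hv
    have h2 := hlc.bound (a := (m + c : ℕ)) (v := v - w) (by rwa [Int.toNat_natCast])
    have h3 := hlc.2 _ w hwP
    rw [show ((((m + c : ℕ) : ℤ)) + c * -2).toNat = m - c by omega] at h2 h3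
    rw [map_sub] at h2
    have h4 : (cmp S.iP m (2 * m - 2) y ^ c) w ∈ below P (m - c) := by
      have h5 := Submodule.sub_mem _ h0 (Submodule.add_mem _ h2 h3)
      have h6 : (y ^ c) v - ((y ^ c) v - (y ^ c) w + ((y ^ c) w -
        (cmp S.iP m (2 * m - 2) y ^ c) w)) = (cmp S.iP m (2 * m - 2) y ^ c) w := by abel
      rwa [h6] at h5
    have h5 : (cmp S.iP m (2 * m - 2) y ^ c) w ∈ P (m - c) := by
      have := hlc.1 (m + c : ℕ) w (by rw [grZ_natCast]; exact hwP)
      rwa [show (((m + c : ℕ) : ℤ)) + c * -2 = ((m - c : ℕ) : ℤ) by omega, grZ_natCast] at this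
    have h6 : (cmp S.iP m (2 * m - 2) y ^ c) w = 0 := by
      rw [← proj_same S.iP h5]
      exact S.proj_below le_rfl h4
    have h7 : w = 0 := by
      apply e_pow_inj t.swap (c := c) _ h6
      rw [LinearMap.neg_apply, wt_apply S.iP m hwP, ← neg_smul]
      congr 1
      push_cast
      ring
    rw [← hw, h7, sub_zero] at h1
    exact h1

/-- The powers of the lowering operator along the base. -/
theorem base_weak [Module.Finite K V] {x : Module.End K V}
    (hx : LowersBase gr P h x) (hxg : IsHom gr (-2) x) (p c : ℕ) :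
    ∀ v ∈ below P (p + 1) ⊓ gr (p + c), (x ^ c) v ∈ below P (p + 1) ∧
      ((x ^ c) v ∈ below P p → v ∈ below P p) := by
  have hxP : ∀ p, ∀ v ∈ P p, x v ∈ below P (p + 1) := by
    intro p v hv
    rw [S.sumG v, map_sum]
    apply Submodule.sum_mem
    intro j _
    exact (hx p j _ ⟨mem_below_of (Nat.lt_succ_self p) (S.hom p j v hv),
      proj_mem S.igr j v⟩).1
  have hl : Lead P 0 x (cmp S.iP m (2 * m) x) := by
    apply S.lead_cmp (by push_cast; ring)
    intro a v hv
    rw [add_zero, Int.toNat_natCast]
    exact below_map (fun p hp v hv => below_mono (by omega) (hxP p v hv)) hv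
  have hlc := hl.pow c
  have t := S.sl2_base hx hxg
  rintro v ⟨hv, hvg⟩
  refine ⟨?_, fun h0 => ?_⟩
  · have := hlc.bound (a := (p + 1 : ℕ)) (v := v) (by rwa [Int.toNat_natCast])
    rwa [mul_zero, add_zero, Int.toNat_natCast] at this
  · set w := proj S.iP p v with hw
    have hwP : w ∈ P p := proj_mem S.iP _ v
    have hwg : w ∈ gr (p + c) := S.projP_gr hvg p
    have h1 := S.sub_proj_mem hv
    have h2 := hlc.bound (a := (p : ℕ)) (v := v - w) (by rwa [Int.toNat_natCast])
    have h3 := hlc.2 _ w hwP
    rw [mul_zero, add_zero, Int.toNat_natCast] at h2 h3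
    rw [map_sub] at h2
    have h4 : (cmp S.iP m (2 * m) x ^ c) w ∈ below P p := by
      have h5 := Submodule.sub_mem _ h0 (Submodule.add_mem _ h2 h3)
      have h6 : (x ^ c) v - ((x ^ c) v - (x ^ c) w + ((x ^ c) w -
        (cmp S.iP m (2 * m) x ^ c) w)) = (cmp S.iP m (2 * m) x ^ c) w := by abel
      rwa [h6] at h5
    have h5 : (cmp S.iP m (2 * m) x ^ c) w ∈ P p := by
      have := hlc.1 p w (by rw [grZ_natCast]; exact hwP)
      rwa [mul_zero, add_zero, grZ_natCast] at this
    have h6 : (cmp S.iP m (2 * m) x ^ c) w = 0 := by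
      rw [← proj_same S.iP h5]
      exact S.proj_below le_rfl h4
    have h7 : w = 0 := by
      apply e_pow_inj t.swap (c := c) _ h6
      rw [LinearMap.neg_apply, S.Ha_apply hwP hwg, ← neg_smul]
      congr 1
      push_cast
      ring
    rw [← hw, h7, sub_zero] at h1
    exact h1

end Setup

end Pool.Agent.W498.Dom
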