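import Pool.Agent.W498.Dom.Core

/-!
# The limit argument for a single power of the Lefschetz operators
-/

open Finset Polynomial

set_option linter.unusedSectionVars false

namespace Pool.Agent.W498.Dom

open Pool.Agent.H914 Pool.Agent.H447

section

variable {K : Type*} [Field K] {E F : Type*} [AddCommGroup E] [Module K E] [AddCommGroup F]
  [Module K F]

/-- A polynomial family of left inverses, up to a polynomial factor. -/
theorem PFam.leftInv [Module.Finite K E] {A : K → E →ₗ[K] F} (hA : PFam A)
    (h0 : Function.Injective (A 0)) :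
    ∃ (q : K[X]) (N : K → F →ₗ[K] E), q.eval 0 ≠ 0 ∧ PFam N ∧
      ∀ s x, N s (A s x) = q.eval s • x := by
  obtain ⟨G, hG⟩ := LinearMap.exists_leftInverse_of_injective (A 0) (LinearMap.ker_eq_bot.2 h0)
  have hfam : PFam (fun s => (G ∘ₗ A s : Module.End K E)) := fun x => (hA x).map G
  obtain ⟨P, hP⟩ := hfam.exists_matrix
  set b := Module.finBasis K E with hb
  have hdet : ∀ s, P.det.eval s = (P.map (eval s)).det := by
    intro s
    have := RingHom.map_det (evalRingHom s) P
    simpa using this
  refine ⟨P.det, fun s => Matrix.toLin b b (P.adjugate.map (eval s)) ∘ₗ G, ?_, ?_, ?_⟩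
  · rw [hdet 0, hP, LinearMap.det_toMatrix, hG, LinearMap.det_id]
    exact one_ne_zero
  · intro y
    have h1 : ∀ s, (Matrix.toLin b b (P.adjugate.map (eval s)) ∘ₗ G) y =
        ∑ i, (∑ j, P.adjugate i j * C (b.coord j (G y))).eval s • b i := by
      intro s
      rw [LinearMap.comp_apply, Matrix.toLin_apply]
      apply Finset.sum_congr rfl
      intro i _
      congr 1
      rw [eval_finsetSum, Matrix.mulVec, dotProduct]
      apply Finset.sum_congr rfl
      intro j _
      rw [eval_mul, eval_C, Matrix.map_apply, Module.Basis.coord_apply]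
    rw [show (fun s => (Matrix.toLin b b (P.adjugate.map (eval s)) ∘ₗ G) y) = _ from funext h1]
    apply PVec.sum
    intro i _
    exact (PVec.const (K := K) (b i)).smul _
  · intro s x
    have h3 : (P.map (eval s)).adjugate = P.adjugate.map (eval s) := by
      have := RingHom.map_adjugate (evalRingHom s) P
      simpa using this.symm
    have h4 : G (A s x) = Matrix.toLin b b (P.map (eval s)) x := by
      rw [hP, Matrix.toLin_toMatrix]; rfl
    rw [LinearMap.comp_apply, h4, ← LinearMap.comp_apply, ← Matrix.toLin_mul, ← h3,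
      Matrix.adjugate_mul, ← hdet, map_smul, Matrix.toLin_one, LinearMap.smul_apply,
      LinearMap.id_apply]

end

variable {K : Type*} [Field K] [CharZero K] {V : Type*} [AddCommGroup V] [Module K V]

section Trunc

variable {U : Type*} [AddCommGroup U] [Module K U] {N F : Module.End K V} {hU : Module.End K U}
  {φ : U →ₗ[K] V} {r : ℕ}

/-- Truncated power series applied to a vector. -/
noncomputable def trunc (F : Module.End K V) (hU : Module.End K U) (φ : U →ₗ[K] V) (r d : ℕ)
    (p : PowerSeries K) (z : U) : V :=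
  ∑ l ∈ range (r + 1), (PowerSeries.coeff l p) • (F ^ l) (φ ((hU ^ (d - l)) z))

lemma trunc_step (hNF : N * F = F * N) (hN : ∀ u, N (φ u) = φ (hU u))
    (hF : ∀ u, (F ^ (r + 1)) (φ u) = 0) {d : ℕ} (hd : r ≤ d) (p : PowerSeries K) (z : U) :
    (N - F) (trunc F hU φ r d p z) = trunc F hU φ r (d + 1) ((1 - PowerSeries.X) * p) z := by
  have hcom : ∀ l v, N ((F ^ l) v) = (F ^ l) (N v) := by
    intro l v
    have h1 : Commute N F := hNF
    rw [← Module.End.mul_apply, ← Module.End.mul_apply, (h1.pow_right l).eq]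
  have h1 : ∀ l ∈ range (r + 1), N ((PowerSeries.coeff l p) • (F ^ l) (φ ((hU ^ (d - l)) z))) =
      (PowerSeries.coeff l p) • (F ^ l) (φ ((hU ^ (d + 1 - l)) z)) := by
    intro l hl
    rw [Finset.mem_range] at hl
    rw [map_smul, hcom, hN, ← Module.End.mul_apply hU, ← pow_succ',
      show d - l + 1 = d + 1 - l by omega]
  have h2 : ∑ l ∈ range (r + 1), F ((PowerSeries.coeff l p) • (F ^ l) (φ ((hU ^ (d - l)) z))) =
      ∑ l ∈ range r, (PowerSeries.coeff l p) • (F ^ (l + 1)) (φ ((hU ^ (d - l)) z)) := by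
    rw [Finset.sum_range_succ]
    have h3 : F ((PowerSeries.coeff r p) • (F ^ r) (φ ((hU ^ (d - r)) z))) = 0 := by
      rw [map_smul, ← Module.End.mul_apply, ← pow_succ', hF, smul_zero]
    rw [h3, add_zero]
    apply Finset.sum_congr rfl
    intro l _
    rw [map_smul, ← Module.End.mul_apply, ← pow_succ']
  rw [LinearMap.sub_apply, trunc, map_sum, map_sum, h2, Finset.sum_congr rfl h1, trunc]
  rw [Finset.sum_range_succ' (fun l => (PowerSeries.coeff l p) • (F ^ l)
    (φ ((hU ^ (d + 1 - l)) z))), Finset.sum_range_succ' (fun l => (PowerSeries.coeff l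
    ((1 - PowerSeries.X) * p)) • (F ^ l) (φ ((hU ^ (d + 1 - l)) z)))]
  have h4 : PowerSeries.coeff 0 ((1 - PowerSeries.X) * p) = PowerSeries.coeff 0 p := by
    simp
  rw [h4, add_sub_right_comm, ← Finset.sum_sub_distrib]
  congr 1
  apply Finset.sum_congr rfl
  intro l _
  rw [sub_mul, one_mul, map_sub, PowerSeries.coeff_succ_X_mul, sub_smul,
    show d + 1 - (l + 1) = d - l by omega]

lemma trunc_pow (hNF : N * F = F * N) (hN : ∀ u, N (φ u) = φ (hU u))
    (hF : ∀ u, (F ^ (r + 1)) (φ u) = 0) (w : ℕ) (p : PowerSeries K) (z : U) :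
    ((N - F) ^ w) (trunc F hU φ r r p z) =
      trunc F hU φ r (r + w) ((1 - PowerSeries.X) ^ w * p) z := by
  induction w with
  | zero => simp
  | succ w ih =>
    rw [pow_succ', Module.End.mul_apply, ih, trunc_step hNF hN hF (by omega), ← mul_assoc,
      ← pow_succ', add_assoc]

lemma trunc_inv (hNF : N * F = F * N) (hN : ∀ u, N (φ u) = φ (hU u))
    (hF : ∀ u, (F ^ (r + 1)) (φ u) = 0) (w : ℕ) (z : U) :
    ((N - F) ^ (w + 1)) (trunc F hU φ r r (PowerSeries.mk fun l => (Nat.choose (w + l) w : K)) z) =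
      φ ((hU ^ (r + (w + 1))) z) := by
  have h1 : ((1 - PowerSeries.X) ^ (w + 1) *
      (PowerSeries.mk fun l => (Nat.choose (w + l) w : K)) : PowerSeries K) = 1 := by
    rw [mul_comm]
    exact PowerSeries.mk_add_choose_mul_one_sub_pow_eq_one K w
  rw [trunc_pow hNF hN hF, h1, trunc, Finset.sum_eq_single 0]
  · simp
  · intro l _ hl
    rw [PowerSeries.coeff_one, if_neg hl, zero_smul]
  · intro h; exact absurd (Finset.mem_range.2 (Nat.succ_pos r)) h

end Trunc

end Pool.Agent.W498.Dom
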