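import Pool.Agent.W498.Dom.Stable
import Pool.Agent.W534.Uni

/-!
# Algebraic classes and dominant morphisms
-/

open CategoryTheory AlgebraicGeometry Finset

set_option linter.unusedSectionVars false

universe u v

namespace Pool.Agent.W498.Dom

open Pool.Agent.H914 Pool.Agent.H447 VarClass Obj WeilCohomology Pool.Agent.W534

variable {k : Type u} [Field k] {𝒱 : VarClass k} {ops : CycleOps 𝒱}
  {W : WeilCohomology.{u, v} ops} {Y X : 𝒱.Obj} {f : Y ⟶ X} {D : X.Cycles} {E : Y.Cycles}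

/-! ### Spans of algebraic classes -/

lemma span_le_gr {q : ℤ} {j : ℕ} (hj : (j : ℤ) = 2 * q) : spanCycles W X q ≤ W.gr X j := by
  rw [spanCycles, Submodule.span_le]
  rintro _ ⟨p, hp, z, hz, rfl⟩
  have := W.cl_mem hz
  rwa [show 2 * p = j by omega] at this

lemma span_map {q : ℤ} {a : W.H X} (ha : a ∈ spanCycles W X q) :
    W.map f a ∈ spanCycles W Y q := by
  induction ha using Submodule.span_induction with
  | mem x hx =>
    obtain ⟨p, hp, z, hz, rfl⟩ := hx
    rw [← W.cl_pull]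
    exact Submodule.subset_span ⟨p, hp, _, ops.pull_mem f hz, rfl⟩
  | zero => rw [map_zero]; exact Submodule.zero_mem _
  | add x y _ _ hx hy => rw [map_add]; exact Submodule.add_mem _ hx hy
  | smul c x _ hx => rw [map_smul]; exact Submodule.smul_mem _ _ hx

lemma span_push {q q' : ℤ} (hq : q + X.dim = q' + Y.dim) (hq' : 0 ≤ q') {a : W.H Y}
    (ha : a ∈ spanCycles W Y q) : W.push f a ∈ spanCycles W X q' := by
  induction ha using Submodule.span_induction with
  | mem x hx =>
    obtain ⟨p, hp, z, hz, rfl⟩ := hx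
    rw [← W.cl_push]
    obtain ⟨p', rfl⟩ := Int.eq_ofNat_of_zero_le hq'
    exact Submodule.subset_span ⟨p', rfl, _, ops.push_mem f hz (by omega), rfl⟩
  | zero => rw [map_zero]; exact Submodule.zero_mem _
  | add x y _ _ hx hy => rw [map_add]; exact Submodule.add_mem _ hx hy
  | smul c x _ hx => rw [map_smul]; exact Submodule.smul_mem _ _ hx

lemma span_mul {q : ℤ} (hE : Y.IsCyc 1 E) {a : W.H Y} (ha : a ∈ spanCycles W Y q) :
    W.cl Y E * a ∈ spanCycles W Y (q + 1) := by
  induction ha using Submodule.span_induction with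
  | mem x hx =>
    obtain ⟨p, hp, z, hz, rfl⟩ := hx
    rw [← W.cl_mul]
    exact Submodule.subset_span ⟨1 + p, by push_cast; omega, _, ops.mul_mem hE hz, rfl⟩
  | zero => rw [mul_zero]; exact Submodule.zero_mem _
  | add x y _ _ hx hy => rw [mul_add]; exact Submodule.add_mem _ hx hy
  | smul c x _ hx => rw [mul_smul_comm]; exact Submodule.smul_mem _ _ hx

lemma span_mul_map {q : ℤ} (hD : X.IsCyc 1 D) {a : W.H Y} (ha : a ∈ spanCycles W Y q) :
    W.map f (W.cl X D) * a ∈ spanCycles W Y (q + 1) := by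
  rw [← W.cl_pull]
  exact span_mul (ops.pull_mem f hD) ha

lemma span_pow {q : ℤ} {T : Module.End W.K (W.H Y)}
    (hT : ∀ q, ∀ a ∈ spanCycles W Y q, T a ∈ spanCycles W Y (q + 1)) (j : ℕ) {a : W.H Y}
    (ha : a ∈ spanCycles W Y q) : (T ^ j) a ∈ spanCycles W Y (q + j) := by
  induction j with
  | zero => simpa using ha
  | succ j ih =>
    rw [pow_succ', Module.End.mul_apply]
    have := hT _ _ ih
    rwa [show q + ((j + 1 : ℕ) : ℤ) = q + j + 1 by push_cast; ring]

lemma span_pencil (hD : X.IsCyc 1 D) (hE : Y.IsCyc 1 E) (s : W.K) (q : ℤ) (a : W.H Y)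
    (ha : a ∈ spanCycles W Y q) :
    (hop W f D + s • eop W Y E) a ∈ spanCycles W Y (q + 1) := by
  rw [LinearMap.add_apply, LinearMap.smul_apply]
  exact Submodule.add_mem _ (span_mul_map hD ha) (Submodule.smul_mem _ _ (span_mul hE ha))

/-- The graded subspace of the combinations of algebraic classes. -/
def algGr (W : WeilCohomology.{u, v} ops) (X : 𝒱.Obj) (i : ℕ) : Submodule W.K (W.H X) :=
  Submodule.span W.K {c | ∃ p : ℕ, 2 * p = i ∧ ∃ z, X.IsCyc p z ∧ W.cl X z = c}

lemma algGr_even (p : ℕ) : algGr W X (2 * p) = spanCycles W X p := by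
  rw [algGr, spanCycles]
  congr 1
  ext c
  constructor
  · rintro ⟨p', hp', h⟩
    obtain rfl : p' = p := by omega
    exact ⟨p', rfl, h⟩
  · rintro ⟨p', hp', h⟩
    obtain rfl : p' = p := by omega
    exact ⟨p', rfl, h⟩

lemma algGr_odd {i : ℕ} (hi : Odd i) : algGr W X i = ⊥ := by
  rw [algGr, Submodule.span_eq_bot]
  rintro _ ⟨p, hp, _⟩
  exfalso
  obtain ⟨j, hj⟩ := hi
  omega

lemma algGr_le (i : ℕ) : algGr W X i ≤ W.gr X i := by
  rcases Nat.even_or_odd' i with ⟨p, rfl | rfl⟩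
  · rw [algGr_even]
    exact span_le_gr (by push_cast; ring)
  · rw [algGr_odd ⟨p, rfl⟩]
    exact bot_le

lemma isHom_algGr {T : Module.End W.K (W.H Y)}
    (hT : ∀ q, ∀ a ∈ spanCycles W Y q, T a ∈ spanCycles W Y (q + 1)) :
    IsHom (algGr W Y) 2 T := by
  intro i a ha
  by_cases hi : 0 ≤ i
  · lift i to ℕ using hi
    rw [show (i : ℤ) + 2 = ((i + 2 : ℕ) : ℤ) by push_cast; ring, grZ_natCast]
    rw [grZ_natCast] at ha
    rcases Nat.even_or_odd' i with ⟨p, rfl | rfl⟩
    · rw [algGr_even] at ha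
      have := hT _ _ ha
      rw [show 2 * p + 2 = 2 * (p + 1) by ring, algGr_even]
      rwa [show ((p + 1 : ℕ) : ℤ) = p + 1 by push_cast; ring]
    · rw [algGr_odd ⟨p, rfl⟩] at ha
      rw [(Submodule.mem_bot _).1 ha, map_zero]
      exact Submodule.zero_mem _
  · rw [grZ_of_neg (by omega)] at ha
    rw [(Submodule.mem_bot _).1 ha, map_zero]
    exact Submodule.zero_mem _

lemma algGr_map {i : ℕ} {a : W.H X} (ha : a ∈ algGr W X i) : W.map f a ∈ algGr W Y i := by
  rcases Nat.even_or_odd' i with ⟨p, rfl | rfl⟩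
  · rw [algGr_even] at ha ⊢
    exact span_map ha
  · rw [algGr_odd ⟨p, rfl⟩] at ha
    rw [(Submodule.mem_bot _).1 ha, map_zero]
    exact Submodule.zero_mem _

lemma algGr_push {i j : ℕ} (hij : i + 2 * X.dim = j + 2 * Y.dim) {a : W.H Y}
    (ha : a ∈ algGr W Y i) : W.push f a ∈ algGr W X j := by
  rcases Nat.even_or_odd' i with ⟨p, rfl | rfl⟩
  · obtain ⟨q, rfl⟩ : ∃ q, j = 2 * q := ⟨j / 2, by omega⟩
    rw [algGr_even] at ha ⊢
    exact span_push (by omega) (by omega) ha
  · rw [algGr_odd ⟨p, rfl⟩] at ha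
    rw [(Submodule.mem_bot _).1 ha, map_zero]
    exact Submodule.zero_mem _

end Pool.Agent.W498.Dom
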