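import Pool.Agent.W498.Dom.Single2

/-!
# Lowering operators preserving a graded subspace
-/

open Finset

set_option linter.unusedSectionVars false

namespace Pool.Agent.W498.Dom

open Pool.Agent.H914 Pool.Agent.H447

variable {K : Type*} [Field K] [CharZero K] {V : Type*} [AddCommGroup V] [Module K V]
  {gr : ℕ → Submodule K V} {n : ℕ} {L : Module.End K V} {S : ℕ → Submodule K V}

lemma grZ_mono (hS : ∀ i, S i ≤ gr i) (i : ℤ) : grZ S i ≤ grZ gr i := by
  by_cases hi : 0 ≤ i
  · lift i to ℕ using hi
    rw [grZ_natCast, grZ_natCast]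
    exact hS i
  · rw [grZ_of_neg (by omega)]
    exact bot_le

/-- The operators preserving the grading and the subspaces. -/
def RS (gr S : ℕ → Submodule K V) (d : ℤ) (y : Module.End K V) : Prop :=
  IsHom gr (2 * d) y ∧ IsHom S (2 * d) y

lemma rs_opAlg : OpAlg gr (RS gr S) where
  one := ⟨by simpa using isHom_one, by simpa using isHom_one⟩
  zero := fun d => ⟨isHom_zero _, isHom_zero _⟩
  add := fun hy hz => ⟨hy.1.add hz.1, hy.2.add hz.2⟩
  smul := fun q _ _ hy => ⟨hy.1.smul _, hy.2.smul _⟩
  mul := fun {d e y z} hy hz => by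
    have h1 := IsHom.mul hy.1 hz.1
    have h2 := IsHom.mul hy.2 hz.2
    rw [RS, show 2 * (d + e) = 2 * d + 2 * e by ring]
    exact ⟨h1, h2⟩
  hom := fun h => h.1

/-- If the powers of `L` map the subspaces onto each other, the lowering operator preserves the
subspaces. -/
theorem exists_stable_lower [Module.Finite K V] (h : DirectSum.IsInternal gr)
    (hbd : ∀ i, 2 * n + 1 ≤ i → gr i = ⊥) (hL : IsHom gr 2 L) (hHL : HardLef gr n L)
    (hS : ∀ i, S i ≤ gr i) (hLS : IsHom S 2 L)
    (hsurj : ∀ c ≤ n, ∀ b ∈ S (n + c), ∃ a ∈ S (n - c), (L ^ c) a = b) :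
    ∃ f, Sl2 (wt h n) L f ∧ IsHom S (-2) f := by
  have hR : OpAlg gr (RS gr S) := rs_opAlg
  have hLR : RS gr S 1 L := ⟨by simpa using hL, by simpa using hLS⟩
  obtain ⟨Φ, hΦ, hLam⟩ := hR.exists_lam h hbd hLR hHL (by
    intro c hc
    obtain ⟨θ, hθ, hθL⟩ := exists_theta h hL hHL hc
    refine ⟨θ * proj h (n + c), ⟨?_, ?_⟩, ?_⟩
    · have h1 := hθ.mul (isHom_scal h (fun i => if i = n + c then (1 : K) else 0))
      rw [add_zero] at h1
      exact h1
    · intro i a ha
      by_cases hi : i = ((n + c : ℕ) : ℤ)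
      · subst hi
        rw [grZ_natCast] at ha
        obtain ⟨b, hb, rfl⟩ := hsurj c hc a ha
        rw [Module.End.mul_apply, proj_same h (hS _ ha), hθL b (hS _ hb),
          show (((n + c : ℕ) : ℤ) + 2 * -(c : ℤ)) = ((n - c : ℕ) : ℤ) by omega, grZ_natCast]
        exact hb
      · have h2 := grZ_mono hS i ha
        have h3 : proj h (n + c) a = 0 := by
          by_cases h0 : 0 ≤ i
          · lift i to ℕ using h0
            rw [grZ_natCast] at h2
            exact proj_ne h h2 (by intro h'; apply hi; exact_mod_cast h')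
          · rw [grZ_of_neg (by omega)] at h2
            rw [(Submodule.mem_bot _).1 h2, map_zero]
        rw [Module.End.mul_apply, h3, map_zero]
        exact Submodule.zero_mem _
    · intro a ha
      have h1 : (L ^ c) a ∈ gr (n + c) := by
        have := pow_L_mem hL ha c
        rwa [show n - c + 2 * c = n + c by omega] at this
      rw [Module.End.mul_apply, proj_same h h1]
      exact hθL a ha)
  obtain ⟨f, t, -, hf⟩ := exists_sl2 h hL hbd hHL
  have h4 := lower_of_lam hR h hbd hLR hHL hΦ hLam hf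
  exact ⟨f, t, by simpa using h4.2⟩

end Pool.Agent.W498.Dom
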